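import Mathlib

/-!
Lattice part of the C_24 page (MP_4d0966).  `k` odd.
`N_k = A_2 + <-8> + <-18 k^2>`, basis `l1, l2, e, f`.
-/

namespace Pool.Agent.GSL

/-- The bilinear form of `N_k = A_2 + <-8> + <-18 k^2>` on `Z^4`, basis `l1, l2, e, f`. -/
def bil (k : ℤ) (v w : Fin 4 → ℤ) : ℤ :=
  2 * v 0 * w 0 - v 0 * w 1 - v 1 * w 0 + 2 * v 1 * w 1 - 8 * v 2 * w 2 - 18 * k ^ 2 * v 3 * w 3

/-- A prime `q` modulo which `3` is no square divides `3 a^2 - b^2` to an even order. -/
theorem even_order (q : ℕ) (hq : q.Prime) (h3 : ¬ IsSquare ((3 : ℤ) : ZMod q)) (a b : ℤ)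
    (h0 : 3 * a ^ 2 - b ^ 2 ≠ 0) : Even (padicValInt q (3 * a ^ 2 - b ^ 2)) := by
  have := Fact.mk hq
  have hgn : Int.gcd a b ≠ 0 := by
    intro h
    rw [Int.gcd_eq_zero_iff] at h
    apply h0; rw [h.1, h.2]; ring
  obtain ⟨g, hg⟩ : ∃ g : ℤ, g = (Int.gcd a b : ℤ) := ⟨_, rfl⟩
  have hg0 : g ≠ 0 := by rw [hg]; exact_mod_cast hgn
  obtain ⟨a', ha⟩ : g ∣ a := by rw [hg]; exact Int.gcd_dvd_left ..
  obtain ⟨b', hb⟩ : g ∣ b := by rw [hg]; exact Int.gcd_dvd_right ..
  have hco : IsCoprime a' b' := by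
    have h2 : Int.gcd (g * a') (g * b') = g.natAbs * Int.gcd a' b' := Int.gcd_mul_left ..
    rw [← ha, ← hb] at h2
    have h3' : g.natAbs = Int.gcd a b := by rw [hg]; simp
    rw [h3'] at h2
    have h5 := Nat.eq_of_mul_eq_mul_left (Nat.pos_of_ne_zero hgn)
      (show Int.gcd a b * 1 = Int.gcd a b * Int.gcd a' b' by rw [mul_one]; exact h2)
    exact Int.isCoprime_iff_gcd_eq_one.mpr h5.symm
  have hfac : 3 * a ^ 2 - b ^ 2 = g * g * (3 * a' ^ 2 - b' ^ 2) := by
    rw [ha, hb]; ring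
  have hnd : ¬ (q : ℤ) ∣ (3 * a' ^ 2 - b' ^ 2) := by
    intro hd
    have hz : ((3 * a' ^ 2 - b' ^ 2 : ℤ) : ZMod q) = 0 := (ZMod.intCast_zmod_eq_zero_iff_dvd _ q).mpr hd
    push_cast at hz
    by_cases haz : ((a' : ℤ) : ZMod q) = 0
    · have hbz : ((b' : ℤ) : ZMod q) = 0 := by
        have : ((b' : ℤ) : ZMod q) ^ 2 = 0 := by
          rw [haz] at hz; linear_combination -hz
        exact (pow_eq_zero_iff two_ne_zero).mp this
      have h1 := (ZMod.intCast_zmod_eq_zero_iff_dvd _ q).mp haz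
      have h2 := (ZMod.intCast_zmod_eq_zero_iff_dvd _ q).mp hbz
      have h3 := hco.isUnit_of_dvd' h1 h2
      have h4 : (q : ℤ).natAbs = 1 := Int.isUnit_iff_natAbs_eq.mp h3
      simp at h4
      exact hq.one_lt.ne' h4
    · apply h3
      refine ⟨((b' : ℤ) : ZMod q) / ((a' : ℤ) : ZMod q), ?_⟩
      push_cast
      field_simp
      linear_combination hz
  have hne : (3 * a' ^ 2 - b' ^ 2) ≠ 0 := by
    intro h; apply h0; rw [hfac, h, mul_zero]
  rw [hfac, padicValInt.mul (mul_ne_zero hg0 hg0) hne, padicValInt.mul hg0 hg0,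
    padicValInt.eq_zero_of_not_dvd hnd]
  exact ⟨padicValInt q g, by ring⟩

/-- `3` is no square modulo a prime `q = 5, 7 mod 12`. -/
theorem three_nonsq (q : ℕ) (hq : q.Prime) (h : q % 12 = 5 ∨ q % 12 = 7) :
    ¬ IsSquare ((3 : ℤ) : ZMod q) := by
  have := Fact.mk hq
  have hodd : Odd q := by
    rw [Nat.odd_iff]; omega
  have h1 : jacobiSym 3 q = jacobiSym 3 (q % (4 * (3 : ℤ).natAbs)) := jacobiSym.mod_right 3 hodd
  have h2 : (4 * (3 : ℤ).natAbs) = 12 := by norm_num
  rw [h2] at h1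
  have h4 : jacobiSym 3 q = -1 := by
    rcases h with h | h
    · rw [h1, h]; norm_num
    · rw [h1, h]; norm_num
  rw [← jacobiSym.legendreSym.to_jacobiSym] at h4
  exact (legendreSym.eq_neg_one_iff q).mp h4

/-- If all primes `5, 7 mod 12` divide `n` to an even order and `n` is prime to `6` then `n = 1, 11 mod 12`. -/
theorem mod_twelve (n : ℕ) (hn : n % 2 = 1) (hn3 : n % 3 ≠ 0)
    (h : ∀ q : ℕ, q.Prime → (q % 12 = 5 ∨ q % 12 = 7) → Even (padicValNat q n)) :
    n % 12 = 1 ∨ n % 12 = 11 := by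
  induction n using Nat.strong_induction_on with
  | _ n ih =>
    rcases Nat.lt_or_ge 1 n with h1 | h1
    swap
    · have : n = 1 := by omega
      left; omega
    obtain ⟨p, hp, m, rfl⟩ : ∃ p, p.Prime ∧ ∃ m, n = p * m := by
      obtain ⟨p, hp, m, hm⟩ := Nat.exists_prime_and_dvd (show n ≠ 1 by omega)
      exact ⟨p, hp, m, hm⟩
    have := Fact.mk hp
    have hp2 : p % 2 = 1 := by
      rcases Nat.mod_two_eq_zero_or_one p with h2 | h2
      · exfalso
        have := Nat.mul_mod p m 2; rw [h2] at this; simp at this; omega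
      · exact h2
    have hp3 : p % 3 ≠ 0 := by
      intro h2; apply hn3
      have := Nat.mul_mod p m 3; rw [h2] at this; simpa using this
    have hm2 : m % 2 = 1 := by
      rcases Nat.mod_two_eq_zero_or_one m with h2 | h2
      · exfalso
        have := Nat.mul_mod p m 2; rw [h2] at this; simp at this; omega
      · exact h2
    have hm3 : m % 3 ≠ 0 := by
      intro h2; apply hn3
      have := Nat.mul_mod p m 3; rw [h2] at this; simpa using this
    have hm0 : m ≠ 0 := by omega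
    have hval : ∀ q : ℕ, q.Prime → q ≠ p → padicValNat q (p * m) = padicValNat q m := by
      intro q hq hne
      have := Fact.mk hq
      rw [padicValNat.mul hp.ne_zero hm0, padicValNat.eq_zero_of_not_dvd, zero_add]
      intro hd
      exact hne ((Nat.prime_dvd_prime_iff_eq hq hp).mp hd)
    have hvp : padicValNat p (p * m) = 1 + padicValNat p m := by
      rw [padicValNat.mul hp.ne_zero hm0, padicValNat_self]
    have hcase : p % 12 = 1 ∨ p % 12 = 11 ∨ (p % 12 = 5 ∨ p % 12 = 7) := by omega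
    rcases hcase with hc | hc | hc
    · have hm := ih m (by nlinarith [hp.one_lt]) hm2 hm3 (by
        intro q hq hq12
        have hne : q ≠ p := by rintro rfl; omega
        rw [← hval q hq hne]; exact h q hq hq12)
      have := Nat.mul_mod p m 12
      rw [hc] at this
      rcases hm with hm | hm <;> rw [hm] at this <;> omega
    · have hm := ih m (by nlinarith [hp.one_lt]) hm2 hm3 (by
        intro q hq hq12
        have hne : q ≠ p := by rintro rfl; omega
        rw [← hval q hq hne]; exact h q hq hq12)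
      have := Nat.mul_mod p m 12
      rw [hc] at this
      rcases hm with hm | hm <;> rw [hm] at this <;> omega
    · -- p divides m
      have hev := h p hp hc
      rw [hvp] at hev
      have hvm : padicValNat p m ≠ 0 := by
        intro h0; rw [h0] at hev; exact absurd hev (by decide)
      have hdm : p ∣ m := by
        by_contra hnd
        exact hvm (padicValNat.eq_zero_of_not_dvd hnd)
      obtain ⟨r, rfl⟩ := hdm
      have hr0 : r ≠ 0 := by rintro rfl; simp at hm0
      have hr2 : r % 2 = 1 := by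
        rcases Nat.mod_two_eq_zero_or_one r with h2 | h2
        · exfalso
          have := Nat.mul_mod p r 2; rw [h2] at this; simp at this; omega
        · exact h2
      have hr3 : r % 3 ≠ 0 := by
        intro h2; apply hm3
        have := Nat.mul_mod p r 3; rw [h2] at this; simpa using this
      have hr := ih r (by nlinarith [hp.one_lt, Nat.pos_of_ne_zero hr0, Nat.mul_pos hp.pos (Nat.pos_of_ne_zero hr0)]) hr2 hr3 (by
        intro q hq hq12
        by_cases hne : q = p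
        · subst hne
          have h5 := h q hq hq12
          rw [padicValNat.mul hp.ne_zero hm0, padicValNat.mul hp.ne_zero hr0, padicValNat_self] at h5
          rw [← add_assoc] at h5
          exact (Nat.even_add.mp h5).mp (by decide)
        · have := Fact.mk hq
          have h5 := h q hq hq12
          rw [hval q hq hne, padicValNat.mul hp.ne_zero hr0, padicValNat.eq_zero_of_not_dvd, zero_add] at h5
          · exact h5
          · intro hd
            exact hne ((Nat.prime_dvd_prime_iff_eq hq hp).mp hd))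
      have h6 : (p * (p * r)) % 12 = ((p % 12) * (p % 12) * (r % 12)) % 12 := by
        rw [← mul_assoc, Nat.mul_mod (p * p) r 12, Nat.mul_mod p p 12]
        simp [Nat.mul_mod]
      rw [h6]
      rcases hc with hc | hc <;> rcases hr with hr | hr <;> rw [hc, hr] <;> decide

/-- Hence `3 U^2 + 1 = 16 x^2 + 36 k^2 y^2` has no solution with `k y` odd. -/
theorem no_sol (U x z : ℤ) (hz : Odd z) : 3 * U ^ 2 + 1 ≠ 16 * x ^ 2 + 36 * z ^ 2 := by
  intro h
  -- z may be replaced by |z|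
  obtain ⟨m, hm, hmz⟩ : ∃ m : ℕ, m % 2 = 1 ∧ (m : ℤ) ^ 2 = z ^ 2 := by
    refine ⟨z.natAbs, ?_, by simp⟩
    have := Int.natAbs_odd.mpr hz
    rwa [Nat.odd_iff] at this
  rw [← hmz] at h
  have hm1 : 1 ≤ m := by omega
  obtain ⟨n, hn⟩ : ∃ n : ℕ, n + 1 = 6 * m := ⟨6 * m - 1, by omega⟩
  have hn12 : n % 12 = 5 := by omega
  have hnn : (n : ℤ) = 6 * m - 1 := by
    have h5 : ((n + 1 : ℕ) : ℤ) = ((6 * m : ℕ) : ℤ) := by rw [hn]
    push_cast at h5
    linarith
  have hprod : 3 * U ^ 2 - (4 * x) ^ 2 = (n : ℤ) * (n + 2 : ℕ) := by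
    push_cast; rw [hnn]; linear_combination h
  have hn0 : n ≠ 0 := by omega
  have hne : 3 * U ^ 2 - (4 * x) ^ 2 ≠ 0 := by
    rw [hprod]
    have : (n : ℤ) ≠ 0 := by exact_mod_cast hn0
    exact mul_ne_zero this (by positivity)
  have key := mod_twelve n (by omega) (by omega) (by
    intro q hq hq12
    have := Fact.mk hq
    by_cases hd : q ∣ n
    · have h1 := even_order q hq (three_nonsq q hq hq12) U (4 * x) hne
      rw [hprod] at h1
      have h2 : ((n : ℤ) * (n + 2 : ℕ)) = ((n * (n + 2) : ℕ) : ℤ) := by push_cast; ring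
      rw [h2, padicValInt.of_nat, padicValNat.mul hn0 (by omega),
        padicValNat.eq_zero_of_not_dvd (n := n + 2)] at h1
      · simpa using h1
      · intro hd2
        have h3 : q ∣ 2 := (Nat.dvd_add_right hd).mp hd2
        have := (Nat.prime_dvd_prime_iff_eq hq Nat.prime_two).mp h3
        omega
    · rw [padicValNat.eq_zero_of_not_dvd hd]; exact ⟨0, rfl⟩)
  omega

/-- The vectors `l1, l2, e, f`. -/
def l1 : Fin 4 → ℤ := ![1, 0, 0, 0]

/-- No isotropic `w` in `N_k` with `(w, l1) = 1` (`k` odd). -/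
theorem no_w (k : ℤ) (w : Fin 4 → ℤ) : ¬ (bil k w w = 0 ∧ bil k w l1 = 1) := by
  rintro ⟨h0, h1⟩
  simp only [bil, l1] at h0 h1
  simp at h1
  have hq : w 1 = 2 * w 0 - 1 := by linarith
  rw [hq] at h0
  have h2 : 3 * w 0 ^ 2 - 3 * w 0 + 1 = 4 * w 2 ^ 2 + 9 * (k * w 3) ^ 2 := by linarith
  have hz : Odd (k * w 3) := by
    by_contra hne
    rw [Int.not_odd_iff_even] at hne
    obtain ⟨c, hc⟩ := hne
    rw [hc] at h2
    obtain ⟨d, hd⟩ : Even (w 0 * (w 0 - 1)) := Int.even_mul_pred_self _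
    have h3 : 3 * (d + d) + 1 = 4 * w 2 ^ 2 + 9 * (c + c) ^ 2 := by rw [← hd]; linarith
    have h4 : 9 * (c + c) ^ 2 = 2 * (18 * c ^ 2) := by ring
    rw [h4] at h3
    omega
  refine no_sol (2 * w 0 - 1) (w 2) (k * w 3) hz ?_
  linarith

/-- A hyperbolic plane in `N_k` (`k` odd). -/
theorem hyperbolic (k : ℤ) (hk : Odd k) :
    ∃ v u : Fin 4 → ℤ, bil k v v = 0 ∧ bil k u u = 0 ∧ bil k v u = 1 := by
  obtain ⟨j, hj⟩ := hk
  obtain ⟨m, hm⟩ : ∃ m : ℤ, 2 * m = 1 - 9 * k ^ 2 := ⟨-4 - 18 * j ^ 2 - 18 * j, by rw [hj]; ring⟩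
  -- v = l2 + f + m w0, u0 = h + w0 = 3 l1 + 2 l2 + e, u0^2 = 6 + 0 + 0
  obtain ⟨v, hv⟩ : ∃ v : Fin 4 → ℤ, v = ![2 * m, 1, m, 1] := ⟨_, rfl⟩
  obtain ⟨u, hu⟩ : ∃ u : Fin 4 → ℤ, u = ![3 - 3 * (2 * m), 2 - 3, 1 - 3 * m, -3] := ⟨_, rfl⟩
  have e1 : bil k v v = 0 := by
    rw [hv]; simp [bil]; linear_combination (-2 : ℤ) * hm
  have e2 : bil k u u = 0 := by
    rw [hu]; simp [bil]; linear_combination (-18 : ℤ) * hm
  have e3 : bil k v u = 1 := by
    rw [hv, hu]; simp [bil]; linear_combination (6 : ℤ) * hm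
  exact ⟨v, u, e1, e2, e3⟩

/-- `<8> + <18 k^2>` represents neither `2` nor `6`. -/
theorem no_roots (k x y : ℤ) (hk : Odd k) :
    8 * x ^ 2 + 18 * k ^ 2 * y ^ 2 ≠ 2 ∧ 8 * x ^ 2 + 18 * k ^ 2 * y ^ 2 ≠ 6 := by
  have hk0 : k ≠ 0 := by rintro rfl; simp at hk
  have hk1 : 1 ≤ k ^ 2 := by have := sq_pos_of_ne_zero hk0; linarith
  rcases eq_or_ne y 0 with rfl | hy
  · rcases eq_or_ne x 0 with rfl | hx
    · norm_num
    · have : 1 ≤ x ^ 2 := by have := sq_pos_of_ne_zero hx; linarith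
      constructor <;> intro h <;> nlinarith
  · have h1 : 1 ≤ y ^ 2 := by have := sq_pos_of_ne_zero hy; linarith
    have h2 : 1 ≤ k ^ 2 * y ^ 2 := by nlinarith
    constructor <;> intro h <;> nlinarith [sq_nonneg x]

end Pool.Agent.GSL
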