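import Pool.Agent.GSV.Quat

/-!
# GSL: quaternion algebras over `M` and `K`-linear isomorphisms of their Lie algebras

`br d c`: the commutator of two pure quaternions `x 0 i + x 1 j + x 2 k` of `(d, c)`.
`quat_of_lie`: let `M / K` be a finite extension without `K`-endomorphisms other than the identity.
An injective `K`-linear map of the pure quaternions of `(d₁, c₁)` to those of `(d₂, c₂)` which
preserves the commutators is `M`-linear, and `(d₁, c₁)`, `(d₂, c₂)` are isomorphic over `M`.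
-/

set_option autoImplicit false

noncomputable section

namespace Pool.Agent.GSL

open scoped Quaternion

section Br

variable {M : Type*} [Field M]

/-- the commutator of pure quaternions -/
def br (d c : M) (x y : Fin 3 → M) : Fin 3 → M :=
  ![-2 * c * (x 1 * y 2 - x 2 * y 1), -2 * d * (x 2 * y 0 - x 0 * y 2),
    2 * (x 0 * y 1 - x 1 * y 0)]

/-- the square of a pure quaternion -/
def nq (d c : M) (x y : Fin 3 → M) : M := d * x 0 * y 0 + c * x 1 * y 1 - d * c * x 2 * y 2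

variable {d c : M}

theorem br_smul_left (a : M) (x y : Fin 3 → M) : br d c (a • x) y = a • br d c x y := by
  funext i
  fin_cases i <;> simp [br] <;> ring

theorem br_smul_right (a : M) (x y : Fin 3 → M) : br d c x (a • y) = a • br d c x y := by
  funext i
  fin_cases i <;> simp [br] <;> ring

theorem br_sub_left (x x' y : Fin 3 → M) : br d c (x - x') y = br d c x y - br d c x' y := by
  funext i
  fin_cases i <;> simp [br] <;> ring

theorem br_comm (x y : Fin 3 → M) : br d c x y = -br d c y x := by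
  funext i
  fin_cases i <;> simp [br] <;> ring

theorem br_self (x : Fin 3 → M) : br d c x x = 0 := by
  funext i
  fin_cases i
  · change -2 * c * (x 1 * x 2 - x 2 * x 1) = 0
    ring
  · change -2 * d * (x 2 * x 0 - x 0 * x 2) = 0
    ring
  · change 2 * (x 0 * x 1 - x 1 * x 0) = 0
    ring

theorem br_br (x y : Fin 3 → M) :
    br d c x (br d c x y) = (4 : M) • (nq d c x x • y - nq d c x y • x) := by
  funext i
  fin_cases i <;> simp [br, nq] <;> ring

/-- the basis -/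
def bs (i : Fin 3) : Fin 3 → M := Pi.single i 1

theorem br_01 : br d c (bs 0) (bs 1) = (2 : M) • bs 2 := by
  funext i
  fin_cases i <;> simp [br, bs]

theorem br_12 : br d c (bs 1) (bs 2) = (-2 * c) • bs 0 := by
  funext i
  fin_cases i <;> simp [br, bs]

theorem br_20 : br d c (bs 2) (bs 0) = (-2 * d) • bs 1 := by
  funext i
  fin_cases i <;> simp [br, bs]

theorem br_bs0 (h2 : (2 : M) ≠ 0) (hd : d ≠ 0) {x : Fin 3 → M} (h : br d c x (bs 0) = 0) :
    x 1 = 0 ∧ x 2 = 0 := by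
  have h0 := congrFun h 1
  have h1 := congrFun h 2
  simp [br, bs, h2, hd] at h0 h1
  exact ⟨h1, h0⟩

theorem br_bs1 (h2 : (2 : M) ≠ 0) (hc : c ≠ 0) {x : Fin 3 → M} (h : br d c x (bs 1) = 0) :
    x 0 = 0 ∧ x 2 = 0 := by
  have h0 := congrFun h 0
  have h1 := congrFun h 2
  simp [br, bs, h2, hc] at h0 h1
  exact ⟨h1, h0⟩

theorem br_bs2 (h2 : (2 : M) ≠ 0) (hd : d ≠ 0) (hc : c ≠ 0) {x : Fin 3 → M}
    (h : br d c x (bs 2) = 0) : x 0 = 0 ∧ x 1 = 0 := by
  have h0 := congrFun h 0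
  have h1 := congrFun h 1
  simp [br, bs, h2, hc, hd] at h0 h1
  exact ⟨h1, h0⟩

theorem br_zero (h2 : (2 : M) ≠ 0) (hd : d ≠ 0) (hc : c ≠ 0) {x : Fin 3 → M}
    (h : ∀ y, br d c x y = 0) : x = 0 := by
  obtain ⟨h3, h4⟩ := br_bs0 h2 hd (h (bs 0))
  obtain ⟨h5, -⟩ := br_bs1 h2 hc (h (bs 1))
  funext i
  fin_cases i
  · exact h5
  · exact h3
  · exact h4

theorem eq_bs (x : Fin 3 → M) : x = x 0 • bs 0 + x 1 • bs 1 + x 2 • bs 2 := by
  funext i
  fin_cases i <;> simp [bs]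

end Br

variable {K M : Type*} [Field K] [Field M] [Algebra K M] {d₁ c₁ d₂ c₂ : M}

/-- a `K`-linear endomorphism in the centroid of the Lie algebra is the multiplication with an
element of `M` -/
theorem centroid (h2 : (2 : M) ≠ 0) (hd : d₂ ≠ 0) (hc : c₂ ≠ 0)
    (T : (Fin 3 → M) →ₗ[K] (Fin 3 → M))
    (h1 : ∀ u v, T (br d₂ c₂ u v) = br d₂ c₂ (T u) v)
    (h3 : ∀ u v, T (br d₂ c₂ u v) = br d₂ c₂ u (T v)) : ∃ l : M, ∀ u, T u = l • u := by
  have hT0 : T 0 = 0 := map_zero T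
  have hlin : ∀ (a : M) (u : Fin 3 → M), T (a • u) = a • T u := by
    intro a u
    rw [← sub_eq_zero]
    refine br_zero h2 hd hc fun v => ?_
    rw [br_sub_left, sub_eq_zero, ← h1, br_smul_left, ← br_smul_right, h1, br_smul_right,
      br_smul_left]
  have e0 := br_bs0 (c := c₂) h2 hd (x := T (bs 0)) (by rw [← h1, br_self, hT0])
  have e1 := br_bs1 (d := d₂) h2 hc (x := T (bs 1)) (by rw [← h1, br_self, hT0])
  have e2 := br_bs2 h2 hd hc (x := T (bs 2)) (by rw [← h1, br_self, hT0])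
  obtain ⟨l, hl⟩ : ∃ l, l = T (bs 0) 0 := ⟨_, rfl⟩
  obtain ⟨l', hl'⟩ : ∃ l, l = T (bs 1) 1 := ⟨_, rfl⟩
  have f0 : T (bs 0) = l • bs 0 := by
    conv_lhs => rw [eq_bs (T (bs 0)), e0.1, e0.2, zero_smul, zero_smul, add_zero, add_zero, ← hl]
  have f1 : T (bs 1) = l' • bs 1 := by
    conv_lhs => rw [eq_bs (T (bs 1)), e1.1, e1.2, zero_smul, zero_smul, zero_add, add_zero, ← hl']
  have g1 : T (bs 2) = l • bs 2 := by
    have h4 := h1 (bs 0) (bs 1)
    rw [br_01, hlin, f0, br_smul_left, br_01, smul_comm] at h4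
    exact smul_right_injective _ h2 h4
  have g2 : T (bs 2) = l' • bs 2 := by
    have h4 := h3 (bs 0) (bs 1)
    rw [br_01, hlin, f1, br_smul_right, br_01, smul_comm] at h4
    exact smul_right_injective _ h2 h4
  have g3 : l' = l := by
    have h4 := congrFun (g2.symm.trans g1) 2
    simpa [bs] using h4
  refine ⟨l, fun u => ?_⟩
  conv_lhs => rw [eq_bs u]
  rw [map_add, map_add, hlin, hlin, hlin, g1, f1, g3, f0]
  conv_rhs => rw [eq_bs u]
  simp only [smul_add, smul_smul, mul_comm]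

theorem linear_of_lie [FiniteDimensional K M] (h2 : (2 : M) ≠ 0)
    (hM : ∀ f : M →ₐ[K] M, f = AlgHom.id K M) (hd : d₂ ≠ 0) (hc : c₂ ≠ 0)
    (φ : (Fin 3 → M) →ₗ[K] (Fin 3 → M)) (hinj : Function.Injective φ)
    (h : ∀ x y, φ (br d₁ c₁ x y) = br d₂ c₂ (φ x) (φ y)) (m : M) (x : Fin 3 → M) :
    φ (m • x) = m • φ x := by
  have hsurj : Function.Surjective φ := LinearMap.injective_iff_surjective.1 hinj
  set e := LinearEquiv.ofBijective φ ⟨hinj, hsurj⟩ with he
  have key : ∀ m : M, ∃ l : M, ∀ x, φ (m • x) = l • φ x := by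
    intro m
    set T : (Fin 3 → M) →ₗ[K] (Fin 3 → M) := (φ ∘ₗ (DistribSMul.toLinearMap K (Fin 3 → M) m)) ∘ₗ
      e.symm.toLinearMap with hT
    have hTφ : ∀ x, T (φ x) = φ (m • x) := by
      intro x
      change φ (m • e.symm (φ x)) = _
      have h4 : e.symm (φ x) = x := e.symm_apply_apply x
      rw [h4]
    obtain ⟨l, hl⟩ := centroid h2 hd hc T (by
      intro u v
      obtain ⟨x, rfl⟩ := hsurj u
      obtain ⟨y, rfl⟩ := hsurj v
      rw [← h, hTφ, hTφ, ← h, br_smul_left]) (by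
      intro u v
      obtain ⟨x, rfl⟩ := hsurj u
      obtain ⟨y, rfl⟩ := hsurj v
      rw [← h, hTφ, hTφ, ← h, br_smul_right])
    exact ⟨l, fun x => by rw [← hTφ, hl]⟩
  choose l hl using key
  obtain ⟨x₀, hx₀⟩ : ∃ x : Fin 3 → M, φ x ≠ 0 := by
    refine ⟨bs 0, fun h0 => ?_⟩
    have h1 := hinj (h0.trans (map_zero φ).symm)
    have h3 := congrFun h1 0
    simp [bs] at h3
  have inj' : ∀ {a b : M}, a • φ x₀ = b • φ x₀ → a = b := fun h0 => smul_left_injective M hx₀ h0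
  set f : M →ₐ[K] M :=
    { toFun := l
      map_one' := inj' (by rw [← hl, one_smul, one_smul])
      map_mul' := fun a b => inj' (by rw [← hl, mul_smul, hl, hl, mul_smul])
      map_zero' := inj' (by rw [← hl, zero_smul, zero_smul, map_zero])
      map_add' := fun a b => inj' (by rw [← hl, add_smul, map_add, hl, hl, add_smul])
      commutes' := fun k => inj' (by rw [← hl, algebraMap_smul, algebraMap_smul, map_smul]) }
    with hf
  have h5 : l m = m := congrArg (fun g : M →ₐ[K] M => g m) (hM f)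
  rw [hl, h5]

/-- **From an isomorphism of the Lie algebras over `K` to the quaternion algebras over `M`.** -/
theorem quat_of_lie [FiniteDimensional K M] (h2 : (2 : M) ≠ 0)
    (hM : ∀ f : M →ₐ[K] M, f = AlgHom.id K M) (hd₁ : d₁ ≠ 0) (hc₁ : c₁ ≠ 0) (hd₂ : d₂ ≠ 0)
    (hc₂ : c₂ ≠ 0) (φ : (Fin 3 → M) →ₗ[K] (Fin 3 → M)) (hinj : Function.Injective φ)
    (h : ∀ x y, φ (br d₁ c₁ x y) = br d₂ c₂ (φ x) (φ y)) :
    Nonempty (ℍ[M, d₁, c₁] ≃ₐ[M] ℍ[M, d₂, c₂]) := by
  have hlin := linear_of_lie h2 hM hd₂ hc₂ φ hinj h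
  have h4 : (4 : M) ≠ 0 := by
    have h3 : (4 : M) = 2 * 2 := by norm_num
    rw [h3]
    exact mul_ne_zero h2 h2
  have e01 : br d₂ c₂ (φ (bs 0)) (φ (bs 1)) = (2 : M) • φ (bs 2) := by
    rw [← h, br_01, hlin]
  have e12 : br d₂ c₂ (φ (bs 1)) (φ (bs 2)) = (-2 * c₁) • φ (bs 0) := by
    rw [← h, br_12, hlin]
  have e20 : br d₂ c₂ (φ (bs 2)) (φ (bs 0)) = (-2 * d₁) • φ (bs 1) := by
    rw [← h, br_20, hlin]
  -- a relation between `φ (bs 0)`, `φ (bs 1)`
  have ind : ∀ a b : M, a • φ (bs 0) = b • φ (bs 1) → a = 0 ∧ b = 0 := by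
    intro a b hab
    rw [← hlin, ← hlin] at hab
    have h5 := hinj hab
    have h6 := congrFun h5 0
    have h7 := congrFun h5 1
    simp [bs] at h6 h7
    exact ⟨h6, h7.symm⟩
  have r1 : (4 : M) • (nq d₂ c₂ (φ (bs 0)) (φ (bs 0)) • φ (bs 1) -
      nq d₂ c₂ (φ (bs 0)) (φ (bs 1)) • φ (bs 0)) = (4 : M) • (d₁ • φ (bs 1)) := by
    rw [← br_br, e01, br_smul_right, br_comm, e20, smul_neg, smul_smul, smul_smul, ← neg_smul]
    congr 1
    ring
  have r2 : (4 : M) • (nq d₂ c₂ (φ (bs 1)) (φ (bs 1)) • φ (bs 0) -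
      nq d₂ c₂ (φ (bs 1)) (φ (bs 0)) • φ (bs 1)) = (4 : M) • (c₁ • φ (bs 0)) := by
    rw [← br_br, br_comm (φ (bs 1)) (φ (bs 0)), e01, ← neg_smul, br_smul_right, e12, smul_smul,
      smul_smul]
    congr 1
    ring
  have s1 := smul_right_injective _ h4 r1
  have s2 := smul_right_injective _ h4 r2
  obtain ⟨t1, t2⟩ := ind (nq d₂ c₂ (φ (bs 0)) (φ (bs 1)))
    (nq d₂ c₂ (φ (bs 0)) (φ (bs 0)) - d₁) (by
      rw [sub_smul, ← s1]
      abel)
  obtain ⟨t3, -⟩ := ind (nq d₂ c₂ (φ (bs 1)) (φ (bs 1)) - c₁)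
    (nq d₂ c₂ (φ (bs 1)) (φ (bs 0))) (by
      rw [sub_smul, ← s2]
      abel)
  refine GSV.Quat.of_pure h2 hd₁ hc₁ (φ (bs 0) 0) (φ (bs 0) 1) (φ (bs 0) 2) (φ (bs 1) 0)
    (φ (bs 1) 1) (φ (bs 1) 2) ?_ ?_ ?_
  · rw [nq] at t2
    linear_combination t2
  · rw [nq] at t3
    linear_combination t3
  · rw [nq] at t1
    linear_combination t1

end Pool.Agent.GSL
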