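import Pool.Agent.GSL.Seg

/-!
# GSL: closure

`seg_clo`: if a linear map `T` maps the tensors `x` of rank one with `f x ≠ 0` and `g x ≠ 0` to
tensors of rank one, for two nonzero linear forms `f`, `g`, then it maps all tensors of rank one to
tensors of rank one.
-/

set_option autoImplicit false

noncomputable section

namespace Pool.Agent.GSL

open Polynomial

variable {E : Type} [Field E]

/-- the polynomial of a linear form on the curve `x + t y + t ^ 2 z + t ^ 3 w` -/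
def pc (f : T8 E →ₗ[E] E) (x y z w : T8 E) : E[X] :=
  C (f x) + C (f y) * X + C (f z) * X ^ 2 + C (f w) * X ^ 3

theorem pc_eval (f : T8 E →ₗ[E] E) (x y z w : T8 E) (t : E) :
    (pc f x y z w).eval t = f (x + t • y + t ^ 2 • z + t ^ 3 • w) := by
  simp only [pc, eval_add, eval_mul, eval_C, eval_X, eval_pow, map_add, map_smul, smul_eq_mul]
  ring

theorem pc_ne_of_eval (f : T8 E →ₗ[E] E) {x : T8 E} (y z w : T8 E) (h : f x ≠ 0) :
    pc f x y z w ≠ 0 := by
  intro h0
  apply h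
  have h1 := pc_eval f x y z w 0
  rw [h0] at h1
  simpa using h1.symm

theorem pc_ne_of_lead (f : T8 E →ₗ[E] E) (x y z : T8 E) {w : T8 E} (h : f w ≠ 0) :
    pc f x y z w ≠ 0 := by
  intro h0
  apply h
  have h1 : (pc f x y z w).coeff 3 = f w := by
    simp [pc]
  rw [h0] at h1
  simpa using h1.symm

theorem exists_e {f : T8 E →ₗ[E] E} (hf : f ≠ 0) : ∃ i j k, f (e i j k) ≠ 0 := by
  by_contra hne
  have h1 : ∀ i j k, f (e i j k) = 0 := by
    intro i j k
    by_contra h2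
    exact hne ⟨i, j, k, h2⟩
  apply hf
  refine LinearMap.ext fun x => ?_
  rw [expand x]
  simp only [map_add, map_smul, h1, smul_zero, add_zero, LinearMap.zero_apply]

/-- a curve in the cone from `x` to a basis vector -/
theorem curve {x : T8 E} (hx : Seg x) (h0 : x ≠ 0) (i j k : Fin 2) :
    ∃ y z : T8 E, ∀ t : E, Seg (x + t • y + t ^ 2 • z + t ^ 3 • e i j k) := by
  obtain ⟨i0, j0, k0, hne⟩ : ∃ i0 j0 k0, x i0 j0 k0 ≠ 0 := by
    by_contra hne
    apply h0
    funext i j k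
    by_contra h2
    exact hne ⟨i, j, k, h2⟩
  obtain ⟨G0, hG0⟩ : ∃ G : Matrix (Fin 2) (Fin 2) E, G = Matrix.single i i0 1 := ⟨_, rfl⟩
  obtain ⟨G1, hG1⟩ : ∃ G : Matrix (Fin 2) (Fin 2) E, G = Matrix.single j j0 1 := ⟨_, rfl⟩
  obtain ⟨G2, hG2⟩ : ∃ G : Matrix (Fin 2) (Fin 2) E, G = Matrix.single k k0 (x i0 j0 k0)⁻¹ :=
    ⟨_, rfl⟩
  have h3 : m0 G0 (m1 G1 (m2 G2 x)) = e i j k := by
    funext a b c
    rw [hG0, hG1, hG2]
    simp only [m0, m1, m2, e, Matrix.single_apply]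
    fin_cases i0 <;> fin_cases j0 <;> fin_cases k0 <;> fin_cases i <;> fin_cases j <;>
      fin_cases k <;> fin_cases a <;> fin_cases b <;> fin_cases c <;> simp_all
  refine ⟨m0 G0 x + m1 G1 x + m2 G2 x, m0 G0 (m1 G1 x) + m0 G0 (m2 G2 x) + m1 G1 (m2 G2 x),
    fun t => ?_⟩
  have h4 : x + t • (m0 G0 x + m1 G1 x + m2 G2 x) +
      t ^ 2 • (m0 G0 (m1 G1 x) + m0 G0 (m2 G2 x) + m1 G1 (m2 G2 x)) + t ^ 3 • e i j k =
      m0 (1 + t • G0) (m1 (1 + t • G1) (m2 (1 + t • G2) x)) := by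
    rw [← h3, m0_one, m1_one, m2_one]
    funext a b c
    simp only [m0, m1, m2, Pi.add_apply, Pi.smul_apply, Matrix.smul_apply, smul_eq_mul]
    ring
  rw [h4]
  exact ((hx.m2 _).m1 _).m0 _

/-- the coordinates -/
def cf (T : T8 E →ₗ[E] T8 E) (i j k : Fin 2) : T8 E →ₗ[E] E where
  toFun x := T x i j k
  map_add' x y := by
    rw [map_add]
    rfl
  map_smul' a x := by
    rw [map_smul]
    rfl

theorem cf_apply (T : T8 E →ₗ[E] T8 E) (i j k : Fin 2) (x : T8 E) : cf T i j k x = T x i j k := rfl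

theorem clo_curve [Infinite E] {T : T8 E →ₗ[E] T8 E} {x y z w : T8 E} {B : E[X]} (hB : B ≠ 0)
    (H : ∀ t : E, B.eval t ≠ 0 → Seg (T (x + t • y + t ^ 2 • z + t ^ 3 • w))) : Seg (T x) := by
  obtain ⟨P, hP⟩ : ∃ P : Fin 2 → Fin 2 → Fin 2 → E[X], P = fun i j k => pc (cf T i j k) x y z w :=
    ⟨_, rfl⟩
  have h1 : ∀ i j k t, (P i j k).eval t = T (x + t • y + t ^ 2 • z + t ^ 3 • w) i j k := by
    intro i j k t
    rw [hP]
    exact pc_eval (cf T i j k) x y z w t
  have h0 : ∀ i j k, T x i j k = (P i j k).eval 0 := by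
    intro i j k
    rw [h1]
    simp
  have key : ∀ Q R S U : E[X], (∀ t : E, B.eval t ≠ 0 → Q.eval t * R.eval t = S.eval t * U.eval t) →
      Q.eval 0 * R.eval 0 = S.eval 0 * U.eval 0 := by
    intro Q R S U h
    have h2 : (Q * R - S * U) * B = 0 := by
      apply Polynomial.funext
      intro t
      rw [eval_mul, eval_sub, eval_mul, eval_mul, eval_zero]
      by_cases ht : B.eval t = 0
      · rw [ht, mul_zero]
      · rw [h t ht, sub_self, zero_mul]
    have h3 := (mul_eq_zero.1 h2).resolve_right hB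
    have h4 := congrArg (Polynomial.eval 0) h3
    rw [eval_sub, eval_mul, eval_mul, eval_zero] at h4
    exact sub_eq_zero.1 h4
  constructor <;> rw [h0, h0, h0, h0] <;> apply key <;> intro t ht <;> rw [h1, h1, h1, h1]
  · exact (H t ht).f0
  · exact (H t ht).f1
  · exact (H t ht).f2
  · exact (H t ht).f3
  · exact (H t ht).f4
  · exact (H t ht).f5
  · exact (H t ht).g0
  · exact (H t ht).g1
  · exact (H t ht).g2

theorem seg_zero : Seg (0 : T8 E) := by
  constructor <;> simp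

/-- **Closure.** -/
theorem seg_clo [Infinite E] {T : T8 E →ₗ[E] T8 E} {f g : T8 E →ₗ[E] E} (hf : f ≠ 0) (hg : g ≠ 0)
    (H : ∀ x, Seg x → f x ≠ 0 → g x ≠ 0 → Seg (T x)) (x : T8 E) (hx : Seg x) : Seg (T x) := by
  have h1 : ∀ x, Seg x → f x ≠ 0 → Seg (T x) := by
    intro x hx hfx
    have hx0 : x ≠ 0 := by
      rintro rfl
      exact hfx (map_zero f)
    obtain ⟨i, j, k, hg'⟩ := exists_e hg
    obtain ⟨y, z, hc⟩ := curve hx hx0 i j k
    refine clo_curve (B := pc f x y z (e i j k) * pc g x y z (e i j k)) (y := y) (z := z)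
      (w := e i j k) (mul_ne_zero (pc_ne_of_eval f y z _ hfx) (pc_ne_of_lead g x y z hg'))
      fun t ht => ?_
    rw [eval_mul, pc_eval, pc_eval] at ht
    exact H _ (hc t) (left_ne_zero_of_mul ht) (right_ne_zero_of_mul ht)
  by_cases hx0 : x = 0
  · rw [hx0, map_zero]
    exact seg_zero
  obtain ⟨i, j, k, hf'⟩ := exists_e hf
  obtain ⟨y, z, hc⟩ := curve hx hx0 i j k
  refine clo_curve (B := pc f x y z (e i j k)) (y := y) (z := z) (w := e i j k)
    (pc_ne_of_lead f x y z hf') fun t ht => ?_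
  rw [pc_eval] at ht
  exact h1 _ (hc t) ht

end Pool.Agent.GSL
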