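import Pool.Agent.GSL.Desc
import Pool.Agent.GSL.Clo
import Pool.Agent.GSL.Cent

/-!
# GSL: a linear map between the cones gives an isomorphism of the quaternion algebras

`quat_of_J`: two frames with the same cubic field `M`, whose only `K`-endomorphism is the identity.
If an invertible matrix `J` over `K` maps the points `w` of the first cone with `pU w ≠ 0` and
`pU (J w) ≠ 0` into the second cone, then the quaternion algebras `(d₁, c₁)` and `(d₂, c₂)` over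
`M` are isomorphic.
-/

set_option autoImplicit false

noncomputable section

namespace Pool.Agent.GSL

open Matrix Pool.Agent.GSH Pool.Agent.GSQ Pool.Agent.GSQ.JM

open scoped Quaternion

variable {K : Type} [Field K] [CharZero K] {M : Type} [Field M] [Algebra K M] {H₁ H₂ : Pen K}
  {c₁ c₂ : M} {Ω : Type} [Field Ω] [Algebra K Ω] [IsAlgClosed Ω] {s : Fin 3 → (M →ₐ[K] Ω)}

theorem infinite_of_alg (K Ω : Type) [Field K] [CharZero K] [Field Ω] [Algebra K Ω] :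
    Infinite Ω :=
  have : CharZero Ω := charZero_of_injective_algebraMap (algebraMap K Ω).injective
  inferInstance

section

variable (hH₁ : IsHer H₁) (hd₁ : H₁.d ≠ 0) (hH₂ : IsHer H₂) (hd₂ : H₂.d ≠ 0)
    (hM : Module.finrank K M = 3) (F₁ : Fr H₁ M c₁) (F₂ : Fr H₂ M c₂)
    (hc₁ : c₁ ≠ 0) (hc₂ : c₂ ≠ 0) {n₁ n₂ : K} (hn₁ : n₁ ≠ 0) (hn₂ : n₂ ≠ 0)
    (hN₁ : Algebra.norm K c₁ = n₁ ^ 2) (hN₂ : Algebra.norm K c₂ = n₂ ^ 2)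
    (hs : Function.Injective s) {δ₁ δ₂ : Ω} (hδ₁ : δ₁ ^ 2 = algebraMap K Ω H₁.d)
    (hδ₂ : δ₂ ^ 2 = algebraMap K Ω H₂.d) {J : Matrix I8 I8 K} (hJ : IsUnit J.det)
    (JW : ∀ w ∈ (F₁.pen n₁).W Ω, pU w ≠ 0 → pU (mK J *ᵥ w) ≠ 0 → mK J *ᵥ w ∈ (F₂.pen n₂).W Ω)

omit [CharZero K] [IsAlgClosed Ω] in
theorem mK_inv_mul {J : Matrix I8 I8 K} (hJ : IsUnit J.det) (w : I8 → Ω) :
    mK J⁻¹ *ᵥ (mK J *ᵥ w) = w := by
  rw [← mK_mul', nonsing_inv_mul J hJ, mK_one']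

omit [CharZero K] [IsAlgClosed Ω] in
theorem mK_mul_inv {J : Matrix I8 I8 K} (hJ : IsUnit J.det) (w : I8 → Ω) :
    mK J *ᵥ (mK J⁻¹ *ᵥ w) = w := by
  rw [← mK_mul', mul_nonsing_inv J hJ, mK_one']

include hH₁ hd₁ hH₂ hd₂ hM hc₁ hc₂ hn₁ hn₂ hN₁ hN₂ hs hδ₁ hδ₂ hJ JW

/-- the conjugate of an endomorphism of the first side -/
theorem conj_q (q : Fin 3 → M) : ∃ (a : K) (q' : Fin 3 → M),
    J * rho F₁ n₁ q * J⁻¹ = a • (1 : Matrix I8 I8 K) + rho F₂ n₂ q' := by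
  have hz2 := two_ne' K Ω
  have : Infinite Ω := infinite_of_alg K Ω
  obtain ⟨P₁, hP₁⟩ : ∃ P : (I8 → Ω) ≃ₗ[Ω] T8 Ω, ∀ w, P w = psi F₁ n₁ s δ₁ w :=
    ⟨LinearEquiv.ofBijective (psiL F₁ n₁ s δ₁) (psi_bij hH₁ hd₁ hM F₁ hc₁ hn₁ hs hδ₁),
      fun _ => rfl⟩
  obtain ⟨T, hT⟩ : ∃ T : T8 Ω →ₗ[Ω] T8 Ω, ∀ w, T (P₁ w) = psi F₂ n₂ s δ₂ (mK J *ᵥ w) := by
    refine ⟨(psiL F₂ n₂ s δ₂ ∘ₗ mulVecLin (mK J)) ∘ₗ P₁.symm.toLinearMap, fun w => ?_⟩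
    rw [LinearMap.comp_apply, LinearEquiv.coe_coe, LinearEquiv.symm_apply_apply]
    rfl
  obtain ⟨f, hf⟩ : ∃ f : T8 Ω →ₗ[Ω] Ω, ∀ w, f (P₁ w) = pU w 0 := by
    refine ⟨(LinearMap.proj (Sum.inr 0 : I8)) ∘ₗ P₁.symm.toLinearMap, fun w => ?_⟩
    rw [LinearMap.comp_apply, LinearEquiv.coe_coe, LinearEquiv.symm_apply_apply]
    rfl
  obtain ⟨g, hg⟩ : ∃ g : T8 Ω →ₗ[Ω] Ω, ∀ w, g (P₁ w) = pU (mK J *ᵥ w) 0 := by
    refine ⟨(LinearMap.proj (Sum.inr 0 : I8) ∘ₗ mulVecLin (mK J)) ∘ₗ P₁.symm.toLinearMap,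
      fun w => ?_⟩
    rw [LinearMap.comp_apply, LinearEquiv.coe_coe, LinearEquiv.symm_apply_apply]
    rfl
  obtain ⟨e₀, he₀⟩ : ∃ e₀ : I8 → Ω, pU e₀ 0 = 1 := ⟨Pi.single (Sum.inr 0) 1, by simp [pU]⟩
  have hf0 : f ≠ 0 := by
    rintro rfl
    have h1 := hf e₀
    rw [he₀, LinearMap.zero_apply] at h1
    exact zero_ne_one h1
  have hg0 : g ≠ 0 := by
    rintro rfl
    have h1 := hg (mK J⁻¹ *ᵥ e₀)
    rw [mK_mul_inv hJ, he₀, LinearMap.zero_apply] at h1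
    exact zero_ne_one h1
  have hTinj : Function.Injective T := by
    rw [injective_iff_map_eq_zero]
    intro x hx
    obtain ⟨w, rfl⟩ := P₁.surjective x
    rw [hT] at hx
    have h1 : mK J *ᵥ w = 0 := by
      apply psi_inj hH₂ hd₂ hM F₂ hc₂ hn₂ hs hδ₂
      rw [psiL_apply, hx, map_zero]
    have h2 := mK_inv_mul hJ w
    rw [h1, mulVec_zero] at h2
    rw [← h2, map_zero]
  have hTseg : ∀ x, Seg x → Seg (T x) := by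
    refine seg_clo hf0 hg0 fun x hx hfx hgx => ?_
    obtain ⟨w, rfl⟩ := P₁.surjective x
    rw [hP₁] at hx
    rw [hf] at hfx
    rw [hg] at hgx
    rw [hT]
    have h1 : pU w ≠ 0 := fun h0 => hfx (by rw [h0]; rfl)
    have h2 : pU (mK J *ᵥ w) ≠ 0 := fun h0 => hgx (by rw [h0]; rfl)
    exact seg_of_W hH₂ hd₂ hM F₂ hc₂ hn₂ hN₂ hs hδ₂
      (JW w (W_of_seg hH₁ hd₁ hM F₁ hc₁ hn₁ hN₁ hs hδ₁ hx) h1 h2) h2
  obtain ⟨α, p, u, r, h⟩ := seg_main hz2 T hTinj hTseg (qm δ₁ s c₁ q)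
  refine exists_q hH₂ hd₂ hM F₂ hc₂ hn₂ hN₂ hs hδ₂ (al := α) (p := p) (u := u) (r := r)
    fun w => ?_
  have h1 := h (P₁ (mK J⁻¹ *ᵥ w))
  have h2 : act (qm δ₁ s c₁ q) (P₁ (mK J⁻¹ *ᵥ w)) = P₁ (mK (rho F₁ n₁ q) *ᵥ (mK J⁻¹ *ᵥ w)) := by
    rw [hP₁, hP₁, psi_rho hH₁ hd₁ hM F₁ hc₁ hn₁ hN₁ hs hδ₁]
  rw [h2, hT, hT, mK_mul_inv hJ] at h1
  rw [mK_mul', mK_mul', h1]

/-- **The algebras are isomorphic.** -/
theorem quat_of_J (hG : ∀ f : M →ₐ[K] M, f = AlgHom.id K M) :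
    Nonempty (ℍ[M, algebraMap K M H₁.d, c₁] ≃ₐ[M] ℍ[M, algebraMap K M H₂.d, c₂]) := by
  have hfin : FiniteDimensional K M := fin_of_three hM
  have hC : CharZero M := charZero_of_injective_algebraMap (algebraMap K M).injective
  have key := conj_q hH₁ hd₁ hH₂ hd₂ hM F₁ F₂ hc₁ hc₂ hn₁ hn₂ hN₁ hN₂ hs hδ₁ hδ₂ hJ JW
  have hJ1 : J⁻¹ * J = 1 := nonsing_inv_mul J hJ
  have hJ2 : J * J⁻¹ = 1 := mul_nonsing_inv J hJ
  choose a φ hφ using key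
  have uniq : ∀ (b : K) (q q' : Fin 3 → M),
      J * rho F₁ n₁ q * J⁻¹ = b • (1 : Matrix I8 I8 K) + rho F₂ n₂ q' → φ q = q' := by
    intro b q q' h1
    rw [hφ] at h1
    exact rho_uniq hH₂ hd₂ hM F₂ hc₂ hn₂ hN₂ hs hδ₂ h1
  have hadd : ∀ x y, φ (x + y) = φ x + φ y := by
    intro x y
    apply uniq (a x + a y)
    rw [rho_add hH₁ hd₁ hM F₁ hc₁ hn₁ hN₁ hs hδ₁, rho_add hH₂ hd₂ hM F₂ hc₂ hn₂ hN₂ hs hδ₂,
      mul_add, add_mul, hφ, hφ, add_smul]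
    abel
  have hsmul : ∀ (b : K) x, φ (b • x) = b • φ x := by
    intro b x
    apply uniq (b * a x)
    rw [rho_smul hH₁ hd₁ hM F₁ hc₁ hn₁ hN₁ hs hδ₁, rho_smul hH₂ hd₂ hM F₂ hc₂ hn₂ hN₂ hs hδ₂,
      mul_smul_comm, smul_mul_assoc, hφ, smul_add, mul_smul]
  have hbr : ∀ x y, φ (br (algebraMap K M H₁.d) c₁ x y) =
      br (algebraMap K M H₂.d) c₂ (φ x) (φ y) := by
    intro x y
    apply uniq 0
    have h1 := rho_br hH₁ hd₁ hM F₁ hc₁ hn₁ hN₁ hs hδ₁ x y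
    have h2 := rho_br hH₂ hd₂ hM F₂ hc₂ hn₂ hN₂ hs hδ₂ (φ x) (φ y)
    change _ = 0 • (1 : Matrix I8 I8 K) + rho F₂ n₂ (brq (algebraMap K M H₂.d) c₂ (φ x) (φ y))
    change J * rho F₁ n₁ (brq (algebraMap K M H₁.d) c₁ x y) * J⁻¹ = _
    rw [← h1, ← h2]
    have h3 : ∀ X Y : Matrix I8 I8 K, J * (X * Y) * J⁻¹ = (J * X * J⁻¹) * (J * Y * J⁻¹) := by
      intro X Y
      calc J * (X * Y) * J⁻¹ = J * X * 1 * Y * J⁻¹ := by
            rw [mul_one]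
            simp only [mul_assoc]
        _ = J * X * (J⁻¹ * J) * Y * J⁻¹ := by rw [hJ1]
        _ = _ := by simp only [mul_assoc]
    rw [mul_sub, sub_mul, h3, h3, hφ, hφ]
    simp only [add_mul, mul_add, smul_mul_assoc, mul_smul_comm, one_mul, mul_one, zero_smul]
    module
  have hinj : ∀ x, φ x = 0 → x = 0 := by
    intro x hx
    have h1 := hφ x
    have h0 : rho F₂ n₂ (0 : Fin 3 → M) = 0 := by
      have h2 := rho_smul hH₂ hd₂ hM F₂ hc₂ hn₂ hN₂ hs hδ₂ 0 0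
      rwa [zero_smul, zero_smul] at h2
    have h0' : rho F₁ n₁ (0 : Fin 3 → M) = 0 := by
      have h2 := rho_smul hH₁ hd₁ hM F₁ hc₁ hn₁ hN₁ hs hδ₁ 0 0
      rwa [zero_smul, zero_smul] at h2
    rw [hx, h0, add_zero] at h1
    have h3 : rho F₁ n₁ x = a x • (1 : Matrix I8 I8 K) := by
      calc rho F₁ n₁ x = (J⁻¹ * J) * rho F₁ n₁ x * (J⁻¹ * J) := by rw [hJ1, one_mul, mul_one]
        _ = J⁻¹ * (J * rho F₁ n₁ x * J⁻¹) * J := by simp only [mul_assoc]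
        _ = a x • (1 : Matrix I8 I8 K) := by
            rw [h1, mul_smul_comm, smul_mul_assoc, mul_one, hJ1]
    apply rho_uniq hH₁ hd₁ hM F₁ hc₁ hn₁ hN₁ hs hδ₁ (a := 0) (a' := a x)
    rw [h3, h0', zero_smul, zero_add, add_zero]
  obtain ⟨f, hf⟩ : ∃ f : (Fin 3 → M) →ₗ[K] (Fin 3 → M), ∀ x, f x = φ x :=
    ⟨{ toFun := φ, map_add' := hadd, map_smul' := hsmul }, fun _ => rfl⟩
  refine quat_of_lie two_ne_zero hG ((map_ne_zero _).2 hd₁) hc₁ ((map_ne_zero _).2 hd₂) hc₂ f ?_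
    fun x y => ?_
  · rw [injective_iff_map_eq_zero]
    intro x hx
    exact hinj x (by rw [← hf]; exact hx)
  · rw [hf, hf, hf, hbr]

end

end Pool.Agent.GSL
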