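import Pool.Agent.GSL.WSeg

/-!
# GSL: descent of an endomorphism

`exists_q`: a matrix over `K` which in the coordinates over `Ω` is a scalar plus a sum of three
operators on the factors is a scalar plus `rho q`. `rho` is linear and compatible with commutators.
-/

set_option autoImplicit false

noncomputable section

namespace Pool.Agent.GSL

open Matrix Pool.Agent.GSH Pool.Agent.GSQ Pool.Agent.GSQ.JM

/-! ### The operators on the factors -/

section act

variable {E : Type} [Field E]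

theorem act_comm (A B : Fin 3 → Matrix (Fin 2) (Fin 2) E) (x : T8 E) :
    act A (act B x) - act B (act A x) = act (fun l => A l * B l - B l * A l) x := by
  funext i j k
  simp only [Pi.sub_apply, act_apply, Matrix.sub_apply, Matrix.mul_apply, Fin.sum_univ_two]
  ring

theorem act_add_pt (A B : Fin 3 → Matrix (Fin 2) (Fin 2) E) (x : T8 E) :
    act (fun l => A l + B l) x = act A x + act B x := by
  funext i j k
  simp only [Pi.add_apply, act_apply, Matrix.add_apply]
  ring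

theorem act_smul (a : E) (A : Fin 3 → Matrix (Fin 2) (Fin 2) E) (x : T8 E) :
    act (fun l => a • A l) x = a • act A x := by
  funext i j k
  simp only [Pi.smul_apply, act_apply, Matrix.smul_apply, smul_eq_mul]
  ring

/-- the coefficients are unique -/
theorem tl_uniq (h2 : (2 : E) ≠ 0) {al al' : E} {p u r p' u' r' : Fin 3 → E}
    (h : ∀ x : T8 E, al • x + act (tl p u r) x = al' • x + act (tl p' u' r') x) :
    al = al' ∧ p = p' ∧ u = u' ∧ r = r' := by
  have key : ∀ x : T8 E, ∀ i j k, (al • x + act (tl p u r) x) i j k =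
      (al' • x + act (tl p' u' r') x) i j k := fun x i j k => by rw [h x]
  simp only [Pi.add_apply, Pi.smul_apply, smul_eq_mul, act_apply, tl, of_apply, cons_val'] at key
  obtain ⟨e0, he0⟩ : ∃ e : T8 E, e = ![![![1, 0], ![0, 0]], ![![0, 0], ![0, 0]]] := ⟨_, rfl⟩
  obtain ⟨e1, he1⟩ : ∃ e : T8 E, e = ![![![0, 0], ![0, 0]], ![![1, 0], ![0, 0]]] := ⟨_, rfl⟩
  obtain ⟨e2, he2⟩ : ∃ e : T8 E, e = ![![![0, 0], ![1, 0]], ![![0, 0], ![0, 0]]] := ⟨_, rfl⟩
  obtain ⟨e3, he3⟩ : ∃ e : T8 E, e = ![![![0, 1], ![0, 0]], ![![0, 0], ![0, 0]]] := ⟨_, rfl⟩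
  obtain ⟨e7, he7⟩ : ∃ e : T8 E, e = ![![![0, 0], ![0, 0]], ![![0, 0], ![0, 1]]] := ⟨_, rfl⟩
  have a0 := key e0 0 0 0
  have a1 := key e1 1 0 0
  have a2 := key e2 0 1 0
  have a3 := key e3 0 0 1
  have a7 := key e7 1 1 1
  have r0 := key e0 1 0 0
  have r1 := key e0 0 1 0
  have r2 := key e0 0 0 1
  have u0 := key e7 0 1 1
  have u1 := key e7 1 0 1
  have u2 := key e7 1 1 0
  simp [he0, he1, he2, he3, he7] at a0 a1 a2 a3 a7 r0 r1 r2 u0 u1 u2
  have h4 : (2 : E) * al = 2 * al' := by linear_combination a0 + a7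
  have hal : al = al' := mul_left_cancel₀ h2 h4
  subst hal
  have q0 : p 0 = p' 0 := mul_left_cancel₀ h2 (by linear_combination a0 - a1)
  have q1 : p 1 = p' 1 := mul_left_cancel₀ h2 (by linear_combination a0 - a2)
  have q2 : p 2 = p' 2 := mul_left_cancel₀ h2 (by linear_combination a0 - a3)
  refine ⟨rfl, ?_, ?_, ?_⟩ <;> funext i <;> fin_cases i <;> assumption

end act

variable {K : Type} [Field K] [CharZero K] {M : Type} [Field M] [Algebra K M] {H : Pen K} {c : M}
  {Ω : Type} [Field Ω] [Algebra K Ω] [IsAlgClosed Ω] {s : Fin 3 → (M →ₐ[K] Ω)}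

/-- the commutator of two pure quaternions -/
def brq (d c : M) (x y : Fin 3 → M) : Fin 3 → M :=
  ![-2 * c * (x 1 * y 2 - x 2 * y 1), -2 * d * (x 2 * y 0 - x 0 * y 2),
    2 * (x 0 * y 1 - x 1 * y 0)]

theorem qm_br {δ : Ω} (hδ : δ ^ 2 = algebraMap K Ω H.d) (x y : Fin 3 → M) :
    (fun l => qm δ s c x l * qm δ s c y l - qm δ s c y l * qm δ s c x l) =
      qm δ s c (brq (algebraMap K M H.d) c x y) := by
  funext l
  ext i j
  simp only [Matrix.sub_apply, Matrix.mul_apply, Fin.sum_univ_two]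
  fin_cases i <;> fin_cases j <;>
    simp only [qm, tl, brq, Fin.zero_eta, Fin.mk_one, of_apply, cons_val', cons_val_zero,
      cons_val_one, cons_val_fin_one, cons_val, map_mul, map_sub, map_neg, map_ofNat,
      AlgHom.commutes, ← hδ] <;> ring

theorem qm_add (δ : Ω) (x y : Fin 3 → M) :
    (fun l => qm δ s c x l + qm δ s c y l) = qm δ s c (x + y) := by
  funext l
  ext i j
  simp only [Matrix.add_apply]
  fin_cases i <;> fin_cases j <;>
    simp only [qm, tl, Fin.zero_eta, Fin.mk_one, of_apply, cons_val', cons_val_zero,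
      cons_val_one, cons_val_fin_one, Pi.add_apply, map_add] <;> ring

theorem qm_smul (δ : Ω) (a : K) (x : Fin 3 → M) :
    (fun l => algebraMap K Ω a • qm δ s c x l) = qm δ s c (a • x) := by
  funext l
  ext i j
  simp only [Matrix.smul_apply, smul_eq_mul]
  have h1 : ∀ i, s l ((a • x) i) = algebraMap K Ω a * s l (x i) := fun i => by
    rw [Pi.smul_apply, Algebra.smul_def, map_mul, AlgHom.commutes]
  fin_cases i <;> fin_cases j <;>
    simp only [qm, tl, Fin.zero_eta, Fin.mk_one, of_apply, cons_val', cons_val_zero,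
      cons_val_one, cons_val_fin_one, h1] <;> ring

section

variable (hH : IsHer H) (hd : H.d ≠ 0) (hM : Module.finrank K M = 3) (F : Fr H M c)
    (hc : c ≠ 0) {n : K} (hn : n ≠ 0) (hN : Algebra.norm K c = n ^ 2)
    (hs : Function.Injective s) {δ : Ω} (hδ : δ ^ 2 = algebraMap K Ω H.d)

include hH hd hM hc hn hs hδ in
/-- two matrices over `K` which agree in the coordinates -/
theorem mat_ext {A B : Matrix I8 I8 K}
    (h : ∀ w : I8 → Ω, psi F n s δ (mK A *ᵥ w) = psi F n s δ (mK B *ᵥ w)) : A = B := by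
  apply Matrix.ext_of_mulVec_single
  intro i
  have h1 := psi_inj hH hd hM F hc hn hs hδ (h (vK (Pi.single i (1 : K))))
  rw [mK_vK, mK_vK] at h1
  funext l
  exact (algebraMap K Ω).injective (congrFun h1 l)

omit [CharZero K] [IsAlgClosed Ω] in
theorem mK_add' (A B : Matrix I8 I8 K) (w : I8 → Ω) :
    mK (A + B) *ᵥ w = mK A *ᵥ w + mK B *ᵥ w := by
  rw [← add_mulVec]
  congr 1
  exact Matrix.map_add _ (map_add _) A B

omit [CharZero K] [IsAlgClosed Ω] in
theorem mK_sub' (A B : Matrix I8 I8 K) (w : I8 → Ω) :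
    mK (A - B) *ᵥ w = mK A *ᵥ w - mK B *ᵥ w := by
  rw [← sub_mulVec]
  congr 1
  exact Matrix.map_sub _ (map_sub _) A B

omit [CharZero K] [IsAlgClosed Ω] in
theorem mK_smul' (a : K) (A : Matrix I8 I8 K) (w : I8 → Ω) :
    mK (a • A) *ᵥ w = algebraMap K Ω a • (mK A *ᵥ w) := by
  rw [← smul_mulVec]
  congr 1
  ext i j
  simp only [mK, Matrix.map_apply, Matrix.smul_apply, smul_eq_mul, map_mul]

omit [CharZero K] [IsAlgClosed Ω] in
theorem mK_mul' (A B : Matrix I8 I8 K) (w : I8 → Ω) :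
    mK (A * B) *ᵥ w = mK A *ᵥ (mK B *ᵥ w) := by
  rw [mulVec_mulVec]
  congr 1
  exact Matrix.map_mul

omit [CharZero K] [IsAlgClosed Ω] in
theorem mK_one' (w : I8 → Ω) : mK (1 : Matrix I8 I8 K) *ᵥ w = w := by
  have h1 : (mK (1 : Matrix I8 I8 K) : Matrix I8 I8 Ω) = 1 :=
    Matrix.map_one _ (map_zero _) (map_one _)
  rw [h1, one_mulVec]

include hH hd hM hc hn hN hs hδ

theorem rho_add (x y : Fin 3 → M) : rho F n (x + y) = rho F n x + rho F n y := by
  refine mat_ext hH hd hM F hc hn hs hδ fun w => ?_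
  have h1 := map_add (psiL F n s δ) (mK (rho F n x) *ᵥ w) (mK (rho F n y) *ᵥ w)
  rw [psiL_apply, psiL_apply, psiL_apply] at h1
  rw [mK_add', h1, psi_rho hH hd hM F hc hn hN hs hδ, psi_rho hH hd hM F hc hn hN hs hδ,
    psi_rho hH hd hM F hc hn hN hs hδ, ← act_add_pt, qm_add]

theorem rho_smul (a : K) (x : Fin 3 → M) : rho F n (a • x) = a • rho F n x := by
  refine mat_ext hH hd hM F hc hn hs hδ fun w => ?_
  have h1 := map_smul (psiL F n s δ) (algebraMap K Ω a) (mK (rho F n x) *ᵥ w)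
  rw [psiL_apply, psiL_apply] at h1
  rw [mK_smul', h1, psi_rho hH hd hM F hc hn hN hs hδ, psi_rho hH hd hM F hc hn hN hs hδ,
    ← act_smul, qm_smul]

theorem rho_br (x y : Fin 3 → M) : rho F n x * rho F n y - rho F n y * rho F n x =
    rho F n (brq (algebraMap K M H.d) c x y) := by
  refine mat_ext hH hd hM F hc hn hs hδ fun w => ?_
  have h1 := map_sub (psiL F n s δ) (mK (rho F n x) *ᵥ (mK (rho F n y) *ᵥ w))
    (mK (rho F n y) *ᵥ (mK (rho F n x) *ᵥ w))
  rw [psiL_apply, psiL_apply, psiL_apply] at h1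
  rw [mK_sub', mK_mul', mK_mul', h1]
  simp only [psi_rho hH hd hM F hc hn hN hs hδ]
  rw [act_comm, qm_br hδ]

/-- uniqueness -/
theorem rho_uniq {a a' : K} {x y : Fin 3 → M}
    (h : a • (1 : Matrix I8 I8 K) + rho F n x = a' • (1 : Matrix I8 I8 K) + rho F n y) :
    x = y := by
  have hz2 := two_ne' K Ω
  have hδ0 := delta_ne hd hδ
  have h1 : ∀ t : T8 Ω, algebraMap K Ω a • t + act (qm δ s c x) t =
      algebraMap K Ω a' • t + act (qm δ s c y) t := by
    intro t
    obtain ⟨w, rfl⟩ := (psi_bij hH hd hM F hc hn hs hδ).2 t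
    have h2 := congrArg (fun A => psiL F n s δ (mK A *ᵥ w)) h
    simp only [mK_add', mK_smul', mK_one', map_add, map_smul] at h2
    rw [psiL_apply F n s δ (mK (rho F n x) *ᵥ w), psiL_apply F n s δ (mK (rho F n y) *ᵥ w),
      psi_rho hH hd hM F hc hn hN hs hδ, psi_rho hH hd hM F hc hn hN hs hδ] at h2
    exact h2
  obtain ⟨-, hp, hu, hr⟩ := tl_uniq hz2 h1
  have hsc : s 0 c ≠ 0 := (map_ne_zero _).2 hc
  have e0 : s 0 (x 0) = s 0 (y 0) := mul_right_cancel₀ hδ0 (congrFun hp 0)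
  have eu : s 0 (x 1) + s 0 (x 2) * δ = s 0 (y 1) + s 0 (y 2) * δ := congrFun hu 0
  have er : s 0 (x 1) - s 0 (x 2) * δ = s 0 (y 1) - s 0 (y 2) * δ :=
    mul_left_cancel₀ hsc (congrFun hr 0)
  have e1 : s 0 (x 1) = s 0 (y 1) := mul_left_cancel₀ hz2 (by linear_combination eu + er)
  have e2 : s 0 (x 2) = s 0 (y 2) :=
    mul_left_cancel₀ (mul_ne_zero hz2 hδ0) (by linear_combination eu - er)
  funext i
  fin_cases i
  · exact (s 0).injective e0
  · exact (s 0).injective e1
  · exact (s 0).injective e2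

/-- **Descent.** -/
theorem exists_q {Z : Matrix I8 I8 K} {al : Ω} {p u r : Fin 3 → Ω}
    (h : ∀ w : I8 → Ω, psi F n s δ (mK Z *ᵥ w) =
      al • psi F n s δ w + act (tl p u r) (psi F n s δ w)) :
    ∃ (a : K) (q : Fin 3 → M), Z = a • (1 : Matrix I8 I8 K) + rho F n q := by
  have hz2 := two_ne' K Ω
  have hδ0 := delta_ne hd hδ
  have hsc : ∀ i, s i c ≠ 0 := fun i => (map_ne_zero _).2 hc
  have hn0 : algebraMap K Ω n ≠ 0 := (map_ne_zero _).2 hn
  -- the first vector
  obtain ⟨e, he⟩ : ∃ e : I8 → K, e = Sum.elim ![1, 0] 0 := ⟨_, rfl⟩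
  have hxe : ∀ ε : Ω, xv (vK e) ε = 1 := by
    intro ε
    rw [he]
    simp [xv, vK]
  have hUe : pU (vK e : I8 → Ω) = 0 := by
    rw [he]
    funext l
    exact map_zero _
  have hze : ∀ (ε : Ω) i, F.zi s ε (pU (vK e)) i = 0 := by
    intro ε i
    rw [hUe]
    have h1 := zi_smul F.toEig s ε 0 0 i
    rwa [zero_smul, zero_mul] at h1
  obtain ⟨A, hA⟩ : ∃ A, A = F.aK (pU (Z *ᵥ e)) := ⟨_, rfl⟩
  obtain ⟨B, hB⟩ : ∃ B, B = F.bK (pU (Z *ᵥ e)) := ⟨_, rfl⟩
  have hZe : ∀ (ε : Ω) i, F.zi s ε (pU (mK Z *ᵥ vK e)) i = s i A + s i B * ε := by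
    intro ε i
    have h1 : pU (vK (Z *ᵥ e) : I8 → Ω) = vK (pU (Z *ᵥ e)) := rfl
    rw [mK_vK, h1, zi_vK, hA, hB]
  have k1 : ∀ i j k, psi F n s δ (mK Z *ᵥ vK e) i j k =
      (al • psi F n s δ (vK e) + act (tl p u r) (psi F n s δ (vK e))) i j k := fun i j k => by
    rw [h]
  simp only [Pi.add_apply, Pi.smul_apply, smul_eq_mul, act_apply, tl, of_apply, cons_val'] at k1
  have r0 := k1 1 0 0
  have r1 := k1 0 1 0
  have r2 := k1 0 0 1
  have u0 := k1 0 1 1
  have u1 := k1 1 0 1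
  have u2 := k1 1 1 0
  simp [psi_000, psi_001, psi_010, psi_011, psi_100, psi_101, psi_110, psi_111, hxe, hze, hZe]
    at r0 r1 r2 u0 u1 u2
  have hr : ∀ i, r i = s i A + s i B * δ := by
    intro i
    fin_cases i
    · exact r0.symm
    · exact r1.symm
    · exact r2.symm
  have hu : ∀ i, s i c * u i = s i A - s i B * δ := by
    intro i
    have c0 := hsc 0
    have c1 := hsc 1
    have c2 := hsc 2
    fin_cases i
    · apply mul_left_cancel₀ hn0
      field_simp at u0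
      change algebraMap K Ω n * (s 0 c * u 0) = algebraMap K Ω n * (s 0 A - s 0 B * δ)
      linear_combination (-algebraMap K Ω n) * u0
    · apply mul_left_cancel₀ hn0
      field_simp at u1
      change algebraMap K Ω n * (s 1 c * u 1) = algebraMap K Ω n * (s 1 A - s 1 B * δ)
      linear_combination (-algebraMap K Ω n) * u1
    · apply mul_left_cancel₀ hn0
      field_simp at u2
      change algebraMap K Ω n * (s 2 c * u 2) = algebraMap K Ω n * (s 2 A - s 2 B * δ)
      linear_combination (-algebraMap K Ω n) * u2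
  obtain ⟨q', hq'⟩ : ∃ q' : Fin 3 → M, q' = ![0, A / c, -B / c] := ⟨_, rfl⟩
  have hqu : ∀ i, u i = s i (A / c) + s i (-B / c) * δ := by
    intro i
    have h1 := hsc i
    rw [map_div₀, map_div₀, map_neg]
    field_simp
    linear_combination hu i
  have hqr : ∀ i, r i = s i c * (s i (A / c) - s i (-B / c) * δ) := by
    intro i
    have h1 := hsc i
    rw [map_div₀, map_div₀, map_neg]
    field_simp
    linear_combination hr i
  obtain ⟨Z', hZ'⟩ : ∃ Z', Z' = Z - rho F n q' := ⟨_, rfl⟩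
  have h' : ∀ w : I8 → Ω, psi F n s δ (mK Z' *ᵥ w) =
      al • psi F n s δ w + act (tl p 0 0) (psi F n s δ w) := by
    intro w
    have h1 := map_sub (psiL F n s δ) (mK Z *ᵥ w) (mK (rho F n q') *ᵥ w)
    rw [psiL_apply, psiL_apply, psiL_apply] at h1
    have h2 : tl p u r = fun l => tl p 0 0 l + qm δ s c q' l := by
      funext l
      ext i j
      rw [Matrix.add_apply]
      fin_cases i <;> fin_cases j
      · simp [tl, qm, hq']
      · simp [tl, qm, hq', hqu]
      · simp [tl, qm, hq', hqr]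
      · simp [tl, qm, hq']
    rw [hZ', mK_sub', h1, h, psi_rho hH hd hM F hc hn hN hs hδ, h2, act_add_pt]
    abel
  -- the second vector
  obtain ⟨e', he'⟩ : ∃ e' : I8 → K, e' = Sum.elim ![0, 0] (F.vec 1 0) := ⟨_, rfl⟩
  have hxe' : ∀ ε : Ω, xv (vK e') ε = 0 := by
    intro ε
    rw [he']
    simp [xv, vK]
  have hze' : ∀ (ε : Ω) i, F.zi s ε (pU (vK e')) i = 1 := by
    intro ε i
    have h1 : pU (vK e' : I8 → Ω) = vK (F.vec 1 0) := by
      rw [he']
      rfl
    rw [h1, zi_vec hH hd hM F hs, map_one, map_zero, zero_mul, add_zero]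
  obtain ⟨A', hA'⟩ : ∃ A', A' = F.aK (pU (Z' *ᵥ e')) := ⟨_, rfl⟩
  obtain ⟨B', hB'⟩ : ∃ B', B' = F.bK (pU (Z' *ᵥ e')) := ⟨_, rfl⟩
  have hZe' : ∀ (ε : Ω) i, F.zi s ε (pU (mK Z' *ᵥ vK e')) i = s i A' + s i B' * ε := by
    intro ε i
    have h1 : pU (vK (Z' *ᵥ e') : I8 → Ω) = vK (pU (Z' *ᵥ e')) := rfl
    rw [mK_vK, h1, zi_vK, hA', hB']
  have k2 : ∀ i j k, psi F n s δ (mK Z' *ᵥ vK e') i j k =
      (al • psi F n s δ (vK e') + act (tl p 0 0) (psi F n s δ (vK e'))) i j k :=
    fun i j k => by rw [h']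
  simp only [Pi.add_apply, Pi.smul_apply, smul_eq_mul, act_apply, tl, of_apply, cons_val'] at k2
  have v0 := k2 1 0 0
  have v1 := k2 0 1 0
  have v2 := k2 0 0 1
  have w0 := k2 0 1 1
  have w1 := k2 1 0 1
  have w2 := k2 1 1 0
  simp [psi_000, psi_001, psi_010, psi_011, psi_100, psi_101, psi_110, psi_111, hxe', hze', hZe']
    at v0 v1 v2 w0 w1 w2
  have hnc : ∀ i, algebraMap K Ω n / s i c ≠ 0 := fun i => div_ne_zero hn0 (hsc i)
  have x0 : s 0 A' - s 0 B' * δ = al + (p 0 - p 1 - p 2) :=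
    mul_left_cancel₀ (hnc 0) (by linear_combination w0)
  have x1 : s 1 A' - s 1 B' * δ = al + (p 1 - p 0 - p 2) :=
    mul_left_cancel₀ (hnc 1) (by linear_combination w1)
  have x2 : s 2 A' - s 2 B' * δ = al + (p 2 - p 0 - p 1) :=
    mul_left_cancel₀ (hnc 2) (by linear_combination w2)
  have hAl : ∀ i, s i A' = al := by
    intro i
    fin_cases i
    · change s 0 A' = al
      exact mul_left_cancel₀ hz2 (by linear_combination v0 + x0)
    · change s 1 A' = al
      exact mul_left_cancel₀ hz2 (by linear_combination v1 + x1)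
    · change s 2 A' = al
      exact mul_left_cancel₀ hz2 (by linear_combination v2 + x2)
  have y0 : s 0 B' * δ = p 1 + p 2 - p 0 := mul_left_cancel₀ hz2 (by linear_combination v0 - x0)
  have y1 : s 1 B' * δ = p 0 + p 2 - p 1 := mul_left_cancel₀ hz2 (by linear_combination v1 - x1)
  have y2 : s 2 B' * δ = p 0 + p 1 - p 2 := mul_left_cancel₀ hz2 (by linear_combination v2 - x2)
  have hz3 : (3 : Ω) ≠ 0 := by
    have h4 := (map_ne_zero (algebraMap K Ω)).2 (three_ne_zero (α := K))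
    rwa [map_ofNat] at h4
  have hal : al = algebraMap K Ω (Algebra.trace K M A' / 3) := by
    rw [map_div₀, tr_eq hM hs, Fin.sum_univ_three, hAl, hAl, hAl, map_ofNat]
    field_simp
    ring
  obtain ⟨q, hq⟩ : ∃ q : Fin 3 → M,
      q = ![(algebraMap K M (Algebra.trace K M B') - B') / 2, A / c, -B / c] := ⟨_, rfl⟩
  have hp : ∀ i, p i = s i ((algebraMap K M (Algebra.trace K M B') - B') / 2) * δ := by
    intro i
    apply mul_left_cancel₀ hz2
    rw [map_div₀, map_sub, AlgHom.commutes, tr_eq hM hs, Fin.sum_univ_three, map_ofNat]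
    have h1 : 2 * ((s 0 B' + s 1 B' + s 2 B' - s i B') / 2 * δ) =
        s 0 B' * δ + s 1 B' * δ + s 2 B' * δ - s i B' * δ := by
      field_simp
    rw [h1]
    fin_cases i
    · change 2 * p 0 = s 0 B' * δ + s 1 B' * δ + s 2 B' * δ - s 0 B' * δ
      linear_combination -y1 - y2
    · change 2 * p 1 = s 0 B' * δ + s 1 B' * δ + s 2 B' * δ - s 1 B' * δ
      linear_combination -y0 - y2
    · change 2 * p 2 = s 0 B' * δ + s 1 B' * δ + s 2 B' * δ - s 2 B' * δ
      linear_combination -y0 - y1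
  have hqm : tl p u r = qm δ s c q := by
    funext l
    ext i j
    fin_cases i <;> fin_cases j
    · simp [tl, qm, hq, hp]
    · simp [tl, qm, hq, hqu]
    · simp [tl, qm, hq, hqr]
    · simp [tl, qm, hq, hp]
  refine ⟨Algebra.trace K M A' / 3, q, ?_⟩
  refine mat_ext hH hd hM F hc hn hs hδ fun w => ?_
  have h1 := map_add (psiL F n s δ) (algebraMap K Ω (Algebra.trace K M A' / 3) • w)
    (mK (rho F n q) *ᵥ w)
  rw [map_smul, psiL_apply, psiL_apply, psiL_apply] at h1
  rw [mK_add', mK_smul', mK_one', h1, h, psi_rho hH hd hM F hc hn hN hs hδ, hqm, ← hal]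

end

end Pool.Agent.GSL
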