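import Mathlib

/-!
# GSL: cubic extensions without automorphisms

`no_aut`: if `M = K(m)` has degree 3 over `K` and `m` is a root of `X ^ 3 + a X ^ 2 + b X + c` with a
discriminant which is not a square in `K`, then the identity is the only `K`-endomorphism of `M`.
-/

set_option autoImplicit false

noncomputable section

namespace Pool.Agent.GSL

variable {K M : Type*} [Field K] [Field M] [Algebra K M]

/-- the discriminant of `X ^ 3 + a X ^ 2 + b X + c` -/
def disc3 {R : Type*} [CommRing R] (a b c : R) : R :=
  a ^ 2 * b ^ 2 - 4 * b ^ 3 - 4 * a ^ 3 * c + 18 * a * b * c - 27 * c ^ 2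

/-- an element of a cubic extension with square in `K` belongs to `K` -/
theorem mem_of_sq (hM : Module.finrank K M = 3) {x : M} {y : K} (h : x ^ 2 = algebraMap K M y) :
    IsSquare y := by
  have hfin : FiniteDimensional K M := Module.finite_of_finrank_pos (by rw [hM]; norm_num)
  have h1 : (minpoly K x).natDegree ∣ 3 := by
    rw [← hM]
    exact minpoly.degree_dvd (Algebra.IsIntegral.isIntegral x)
  have h2 : (minpoly K x).natDegree ≤ 2 := by
    have h3 : Polynomial.aeval x (Polynomial.X ^ 2 - Polynomial.C y : Polynomial K) = 0 := by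
      rw [map_sub, map_pow, Polynomial.aeval_X, Polynomial.aeval_C, h, sub_self]
    have h4 : (Polynomial.X ^ 2 - Polynomial.C y : Polynomial K) ≠ 0 :=
      Polynomial.X_pow_sub_C_ne_zero two_pos y
    have h5 := Polynomial.natDegree_le_natDegree (minpoly.degree_le_of_ne_zero K x h4 h3)
    rwa [Polynomial.natDegree_X_pow_sub_C] at h5
  have h6 : (minpoly K x).natDegree = 1 := by
    rcases (Nat.dvd_prime Nat.prime_three).1 h1 with h7 | h7
    · exact h7
    · omega
  obtain ⟨z, hz⟩ := minpoly.natDegree_eq_one_iff.1 h6
  refine ⟨z, (algebraMap K M).injective ?_⟩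
  rw [map_mul, hz, ← h, pow_two]

/-- **No automorphisms.** -/
theorem no_aut (hM : Module.finrank K M = 3) {m : M} (hm : IntermediateField.adjoin K {m} = ⊤)
    {a b c : K} (h : m ^ 3 + algebraMap K M a * m ^ 2 + algebraMap K M b * m + algebraMap K M c = 0)
    (hd : ¬ IsSquare (disc3 a b c)) (f : M →ₐ[K] M) : f = AlgHom.id K M := by
  by_cases hf : f m = m
  · ext x
    have h2 : x ∈ IntermediateField.adjoin K {m} := by
      rw [hm]
      trivial
    induction h2 using IntermediateField.adjoin_induction with
    | mem x hx =>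
      rw [Set.mem_singleton_iff] at hx
      rw [hx]
      exact hf
    | algebraMap x => rw [AlgHom.commutes, AlgHom.commutes]
    | add x y _ _ hx hy => rw [map_add, map_add, hx, hy]
    | inv x _ hx => rw [map_inv₀, map_inv₀, hx]
    | mul x y _ _ hx hy => rw [map_mul, map_mul, hx, hy]
  exfalso
  apply hd
  have h1 := congrArg f h
  simp only [map_add, map_mul, map_pow, map_zero, AlgHom.commutes] at h1
  set y := f m
  set A := algebraMap K M a with hA
  set B := algebraMap K M b with hB
  set C := algebraMap K M c with hC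
  have h3 : y - m ≠ 0 := sub_ne_zero.2 hf
  have h4 : y ^ 2 + (m + A) * y + (m ^ 2 + A * m + B) = 0 := by
    apply mul_left_cancel₀ h3
    linear_combination h1 - h
  refine mem_of_sq hM (x := (m - y) * (m - (-A - m - y)) * (y - (-A - m - y))) ?_
  have h5 : algebraMap K M (disc3 a b c) = disc3 A B C := by
    simp only [disc3, map_sub, map_add, map_mul, map_pow, map_ofNat, ← hA, ← hB, ← hC]
  rw [h5]
  have h6 : B = -(y ^ 2 + (m + A) * y + (m ^ 2 + A * m)) := by linear_combination h4
  have h7 : C = -(m ^ 3 + A * m ^ 2 + B * m) := by linear_combination h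
  rw [h7, h6, disc3]
  ring

end Pool.Agent.GSL
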