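import Mathlib

/-!
# GSL: tensors of the format 2 x 2 x 2

`Seg x`: the nine quadratic equations of the Segre cone of `(ℙ¹) ^ 3`.
`act A`: the sum of the operators `A 0`, `A 1`, `A 2` on the three factors.
-/

set_option autoImplicit false

noncomputable section

namespace Pool.Agent.GSL

/-- tensors of the format 2 x 2 x 2 -/
abbrev T8 (E : Type) : Type := Fin 2 → Fin 2 → Fin 2 → E

variable {E : Type} [Field E]

/-- the cone of the tensors of rank one -/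
structure Seg (x : T8 E) : Prop where
  f0 : x 0 0 0 * x 1 1 0 = x 1 0 0 * x 0 1 0
  f1 : x 0 0 1 * x 1 1 1 = x 1 0 1 * x 0 1 1
  f2 : x 0 0 0 * x 1 0 1 = x 1 0 0 * x 0 0 1
  f3 : x 0 1 0 * x 1 1 1 = x 1 1 0 * x 0 1 1
  f4 : x 0 0 0 * x 0 1 1 = x 0 1 0 * x 0 0 1
  f5 : x 1 0 0 * x 1 1 1 = x 1 1 0 * x 1 0 1
  g0 : x 0 0 0 * x 1 1 1 = x 1 0 0 * x 0 1 1
  g1 : x 0 0 0 * x 1 1 1 = x 0 1 0 * x 1 0 1
  g2 : x 0 0 0 * x 1 1 1 = x 0 0 1 * x 1 1 0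

/-- the operator `A 0 ⊗ 1 ⊗ 1 + 1 ⊗ A 1 ⊗ 1 + 1 ⊗ 1 ⊗ A 2` -/
def act (A : Fin 3 → Matrix (Fin 2) (Fin 2) E) : T8 E →ₗ[E] T8 E where
  toFun x := fun i j k => ∑ l, A 0 i l * x l j k + ∑ l, A 1 j l * x i l k +
    ∑ l, A 2 k l * x i j l
  map_add' x y := by
    funext i j k
    simp only [Pi.add_apply, Fin.sum_univ_two]
    ring
  map_smul' r x := by
    funext i j k
    simp only [Pi.smul_apply, Fin.sum_univ_two, smul_eq_mul, RingHom.id_apply]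
    ring

theorem act_apply (A : Fin 3 → Matrix (Fin 2) (Fin 2) E) (x : T8 E) (i j k : Fin 2) :
    act A x i j k = A 0 i 0 * x 0 j k + A 0 i 1 * x 1 j k + (A 1 j 0 * x i 0 k +
      A 1 j 1 * x i 1 k) + (A 2 k 0 * x i j 0 + A 2 k 1 * x i j 1) := by
  change ∑ l, A 0 i l * x l j k + ∑ l, A 1 j l * x i l k + ∑ l, A 2 k l * x i j l = _
  simp only [Fin.sum_univ_two]

/-- the matrix `(p, u; r, -p)` -/
def tl (p u r : Fin 3 → E) : Fin 3 → Matrix (Fin 2) (Fin 2) E := fun l => !![p l, u l; r l, -p l]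

end Pool.Agent.GSL
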