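import Pool.Agent.GSQ.JmapB
import Pool.Agent.GSL.T8

/-!
# GSL: the pure quaternions over `M` as endomorphisms of `K ^ 8`

`F` is a frame of a pencil with the constants `c` in `M` and `n` in `K`, `n ^ 2 = N(c)`. `Psi`: the
coordinates of `K ^ 8` over a splitting field in which `(F.pen n).W` is the cone of the tensors of
rank one. `rho q`, `q = (a, b, g)`: the sum of the three conjugates of the matrix
`(a δ, b + g δ; c (b - g δ), -a δ)` (the matrix of the pure quaternion `a i + b j + g k` in
`(d, c)`).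
-/

set_option autoImplicit false

noncomputable section

namespace Pool.Agent.GSL

open Matrix Pool.Agent.GSH Pool.Agent.GSQ Pool.Agent.GSQ.JM

variable {K : Type} [Field K] {M : Type} [Field M] [Algebra K M] {H : Pen K} {c : M}
  {Ω : Type} [Field Ω] [Algebra K Ω]

/-- the coordinates -/
def psi (F : Fr H M c) (n : K) (s : Fin 3 → (M →ₐ[K] Ω)) (δ : Ω) (w : I8 → Ω) : T8 Ω :=
  ![![![xv w δ, F.zi s δ (pU w) 2],
      ![F.zi s δ (pU w) 1, algebraMap K Ω n / s 0 c * F.zi s (-δ) (pU w) 0]],
    ![![F.zi s δ (pU w) 0, algebraMap K Ω n / s 1 c * F.zi s (-δ) (pU w) 1],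
      ![algebraMap K Ω n / s 2 c * F.zi s (-δ) (pU w) 2, algebraMap K Ω n * xv w (-δ)]]]

section psi

variable (F : Fr H M c) (n : K) (s : Fin 3 → (M →ₐ[K] Ω)) (δ : Ω) (w : I8 → Ω)

theorem psi_000 : psi F n s δ w 0 0 0 = xv w δ := rfl
theorem psi_001 : psi F n s δ w 0 0 1 = F.zi s δ (pU w) 2 := rfl
theorem psi_010 : psi F n s δ w 0 1 0 = F.zi s δ (pU w) 1 := rfl
theorem psi_011 : psi F n s δ w 0 1 1 = algebraMap K Ω n / s 0 c * F.zi s (-δ) (pU w) 0 := rfl
theorem psi_100 : psi F n s δ w 1 0 0 = F.zi s δ (pU w) 0 := rfl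
theorem psi_101 : psi F n s δ w 1 0 1 = algebraMap K Ω n / s 1 c * F.zi s (-δ) (pU w) 1 := rfl
theorem psi_110 : psi F n s δ w 1 1 0 = algebraMap K Ω n / s 2 c * F.zi s (-δ) (pU w) 2 := rfl
theorem psi_111 : psi F n s δ w 1 1 1 = algebraMap K Ω n * xv w (-δ) := rfl

end psi

theorem pU_add (w w' : I8 → Ω) : pU (w + w') = pU w + pU w' := rfl

theorem pU_smul (a : Ω) (w : I8 → Ω) : pU (a • w) = a • pU w := rfl

/-- the coordinates as a linear map -/
def psiL (F : Fr H M c) (n : K) (s : Fin 3 → (M →ₐ[K] Ω)) (δ : Ω) : (I8 → Ω) →ₗ[Ω] T8 Ω where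
  toFun := psi F n s δ
  map_add' w w' := by
    funext i j k
    fin_cases i <;> fin_cases j <;> fin_cases k <;>
      simp only [psi, Fin.zero_eta, Fin.mk_one, cons_val_zero, cons_val_one, Pi.add_apply, pU_add,
        zi_add, xv_add, mul_add]
  map_smul' a w := by
    funext i j k
    fin_cases i <;> fin_cases j <;> fin_cases k <;>
      simp only [psi, Fin.zero_eta, Fin.mk_one, cons_val_zero, cons_val_one, Pi.smul_apply,
        pU_smul, zi_smul, xv_smul, smul_eq_mul, RingHom.id_apply] <;> ring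

theorem psiL_apply (F : Fr H M c) (n : K) (s : Fin 3 → (M →ₐ[K] Ω)) (δ : Ω) (w : I8 → Ω) :
    psiL F n s δ w = psi F n s δ w := rfl

/-- two linear maps which agree on vectors over `K` are equal -/
theorem ext8L {V : Type} [AddCommGroup V] [Module Ω V] {f g : (I8 → Ω) →ₗ[Ω] V}
    (h : ∀ w : I8 → K, f (vK w) = g (vK w)) : f = g := by
  refine LinearMap.pi_ext' fun i => ?_
  ext
  have h2 := h (Pi.single i 1)
  rw [vK_single] at h2
  simpa using h2

/-! ### The endomorphisms -/

theorem ad_add_div (q c x y : M) :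
    ad (K := K) q ((x + y) / c) = ad (K := K) q (x / c) + ad (K := K) q (y / c) := by
  rw [add_div, ad_add]

theorem ad_smul_div (q c : M) (a : K) (x : M) :
    ad (K := K) q ((a • x) / c) = algebraMap K M a * ad (K := K) q (x / c) := by
  rw [Algebra.smul_def, mul_div_assoc, ad_mul]

/-- the first component of the image -/
def rA (d n : K) (c : M) (q : Fin 3 → M) (x y : K) (A B : M) : M :=
  (algebraMap K M (Algebra.trace K M (q 0)) - 2 * q 0) * (algebraMap K M d * B) +
    c * (q 1 * algebraMap K M x - algebraMap K M d * q 2 * algebraMap K M y) +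
    2 * algebraMap K M n * (ad (K := K) (q 1) (A / c) -
      algebraMap K M d * ad (K := K) (q 2) (B / c))

/-- the second component of the image -/
def rB (n : K) (c : M) (q : Fin 3 → M) (x y : K) (A B : M) : M :=
  (algebraMap K M (Algebra.trace K M (q 0)) - 2 * q 0) * A +
    c * (q 1 * algebraMap K M y - q 2 * algebraMap K M x) +
    2 * algebraMap K M n * (ad (K := K) (q 2) (A / c) - ad (K := K) (q 1) (B / c))

theorem rA_add (d n : K) (c : M) (q : Fin 3 → M) (x y x' y' : K) (A B A' B' : M) :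
    rA d n c q (x + x') (y + y') (A + A') (B + B') =
      rA d n c q x y A B + rA d n c q x' y' A' B' := by
  unfold rA
  rw [ad_add_div, ad_add_div, map_add, map_add]
  ring

theorem rB_add (n : K) (c : M) (q : Fin 3 → M) (x y x' y' : K) (A B A' B' : M) :
    rB n c q (x + x') (y + y') (A + A') (B + B') = rB n c q x y A B + rB n c q x' y' A' B' := by
  unfold rB
  rw [ad_add_div, ad_add_div, map_add, map_add]
  ring

theorem rA_smul (d n : K) (c : M) (q : Fin 3 → M) (a x y : K) (A B : M) :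
    rA d n c q (a * x) (a * y) (a • A) (a • B) = a • rA d n c q x y A B := by
  unfold rA
  rw [ad_smul_div, ad_smul_div, map_mul, map_mul]
  simp only [Algebra.smul_def]
  ring

theorem rB_smul (n : K) (c : M) (q : Fin 3 → M) (a x y : K) (A B : M) :
    rB n c q (a * x) (a * y) (a • A) (a • B) = a • rB n c q x y A B := by
  unfold rB
  rw [ad_smul_div, ad_smul_div, map_mul, map_mul]
  simp only [Algebra.smul_def]
  ring

/-- the endomorphism which belongs to the pure quaternion `q 0 i + q 1 j + q 2 k` -/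
def rhoF (F : Fr H M c) (n : K) (q : Fin 3 → M) (w : I8 → K) : I8 → K :=
  Sum.elim ![H.d * Algebra.trace K M (q 0) * w (Sum.inl 1) +
      Algebra.trace K M (q 1 * F.aK (pU w)) + H.d * Algebra.trace K M (q 2 * F.bK (pU w)),
      Algebra.trace K M (q 0) * w (Sum.inl 0) + Algebra.trace K M (q 1 * F.bK (pU w)) +
        Algebra.trace K M (q 2 * F.aK (pU w))]
    (F.vec (rA H.d n c q (w (Sum.inl 0)) (w (Sum.inl 1)) (F.aK (pU w)) (F.bK (pU w)))
      (rB n c q (w (Sum.inl 0)) (w (Sum.inl 1)) (F.aK (pU w)) (F.bK (pU w))))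

/-- `rhoF` as a linear map -/
def rhoL (F : Fr H M c) (n : K) (q : Fin 3 → M) : (I8 → K) →ₗ[K] (I8 → K) where
  toFun := rhoF F n q
  map_add' w w' := by
    have h : pU (w + w') = pU w + pU w' := rfl
    funext i
    rcases i with i | i
    · fin_cases i <;>
        simp [rhoF, h, JM.aK_add, JM.bK_add, mul_add] <;> ring
    · simp only [rhoF, Sum.elim_inr, Pi.add_apply, h, JM.aK_add, JM.bK_add]
      rw [rA_add, rB_add, JM.vec_add]
      rfl
  map_smul' a w := by
    have h : pU (a • w) = a • pU w := rfl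
    funext i
    rcases i with i | i
    · fin_cases i <;>
        simp [rhoF, h, JM.aK_smul, JM.bK_smul] <;> ring
    · simp only [rhoF, Sum.elim_inr, Pi.smul_apply, h, JM.aK_smul, JM.bK_smul,
        RingHom.id_apply, smul_eq_mul]
      rw [rA_smul, rB_smul, JM.vec_smul]
      rfl

/-- the matrix of the endomorphism -/
def rho (F : Fr H M c) (n : K) (q : Fin 3 → M) : Matrix I8 I8 K := LinearMap.toMatrix' (rhoL F n q)

theorem rho_mulVec (F : Fr H M c) (n : K) (q : Fin 3 → M) (w : I8 → K) :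
    rho F n q *ᵥ w = rhoF F n q w := by
  unfold rho
  rw [LinearMap.toMatrix'_mulVec]
  rfl

/-- the conjugates of the matrix of a pure quaternion -/
def qm (d : Ω) (s : Fin 3 → (M →ₐ[K] Ω)) (c : M) (q : Fin 3 → M) :
    Fin 3 → Matrix (Fin 2) (Fin 2) Ω :=
  tl (fun l => s l (q 0) * d) (fun l => s l (q 1) + s l (q 2) * d)
    (fun l => s l c * (s l (q 1) - s l (q 2) * d))

end Pool.Agent.GSL
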