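import Pool.Agent.GSL.Rho

/-!
# GSL: the endomorphisms in coordinates
-/

set_option autoImplicit false

noncomputable section

namespace Pool.Agent.GSL

open Matrix Pool.Agent.GSH Pool.Agent.GSQ Pool.Agent.GSQ.JM

variable {K : Type} [Field K] [CharZero K] {M : Type} [Field M] [Algebra K M] {H : Pen K} {c : M}
  {Ω : Type} [Field Ω] [Algebra K Ω] [IsAlgClosed Ω] {s : Fin 3 → (M →ₐ[K] Ω)}

theorem zi_vec (hH : IsHer H) (hd : H.d ≠ 0) (hM : Module.finrank K M = 3) (F : Fr H M c)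
    (hs : Function.Injective s) (δ : Ω) (a b : M) (i : Fin 3) :
    F.zi s δ (vK (F.vec a b)) i = s i a + s i b * δ := by
  unfold Eig.zi
  rw [vec_eq hH hd hM F.toEig hs, ai_comb hH hd hM F.toEig hs, bi_comb hH hd hM F.toEig hs]

theorem s_rA (hM : Module.finrank K M = 3) (hs : Function.Injective s) (d n : K) (c : M)
    (q : Fin 3 → M) (x y : K) (A B : M) (i : Fin 3) : s i (rA d n c q x y A B) =
      (s 0 (q 0) + s 1 (q 0) + s 2 (q 0) - 2 * s i (q 0)) * (algebraMap K Ω d * s i B) +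
      s i c * (s i (q 1) * algebraMap K Ω x - algebraMap K Ω d * s i (q 2) * algebraMap K Ω y) +
      2 * algebraMap K Ω n * ((s (i + 1) (q 1) * (s (i + 2) A / s (i + 2) c) +
        s (i + 2) (q 1) * (s (i + 1) A / s (i + 1) c)) / 2 -
      algebraMap K Ω d * ((s (i + 1) (q 2) * (s (i + 2) B / s (i + 2) c) +
        s (i + 2) (q 2) * (s (i + 1) B / s (i + 1) c)) / 2)) := by
  unfold rA
  simp only [map_add, map_sub, map_mul, AlgHom.commutes, map_ofNat, s_ad hM hs, tr_eq hM hs,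
    map_div₀, Fin.sum_univ_three]

theorem s_rB (hM : Module.finrank K M = 3) (hs : Function.Injective s) (n : K) (c : M)
    (q : Fin 3 → M) (x y : K) (A B : M) (i : Fin 3) : s i (rB n c q x y A B) =
      (s 0 (q 0) + s 1 (q 0) + s 2 (q 0) - 2 * s i (q 0)) * s i A +
      s i c * (s i (q 1) * algebraMap K Ω y - s i (q 2) * algebraMap K Ω x) +
      2 * algebraMap K Ω n * ((s (i + 1) (q 2) * (s (i + 2) A / s (i + 2) c) +
        s (i + 2) (q 2) * (s (i + 1) A / s (i + 1) c)) / 2 -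
      (s (i + 1) (q 1) * (s (i + 2) B / s (i + 2) c) +
        s (i + 2) (q 1) * (s (i + 1) B / s (i + 1) c)) / 2) := by
  unfold rB
  simp only [map_add, map_sub, map_mul, AlgHom.commutes, map_ofNat, s_ad hM hs, tr_eq hM hs,
    map_div₀, Fin.sum_univ_three]

/-- **The endomorphism in coordinates.** -/
theorem psi_rho (hH : IsHer H) (hd : H.d ≠ 0) (hM : Module.finrank K M = 3) (F : Fr H M c)
    (hc : c ≠ 0) {n : K} (hn : n ≠ 0) (hN : Algebra.norm K c = n ^ 2)
    (hs : Function.Injective s) {δ : Ω} (hδ : δ ^ 2 = algebraMap K Ω H.d) (q : Fin 3 → M)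
    (w : I8 → Ω) : psi F n s δ (mK (rho F n q) *ᵥ w) = act (qm δ s c q) (psi F n s δ w) := by
  have key : (psiL F n s δ).comp (mulVecLin (mK (rho F n q))) =
      (act (qm δ s c q)).comp (psiL F n s δ) := by
    apply ext8L (K := K)
    intro w
    rw [LinearMap.comp_apply, LinearMap.comp_apply, mulVecLin_apply, mK_vK, rho_mulVec,
      psiL_apply, psiL_apply]
    obtain ⟨A, hA⟩ : ∃ A, A = F.aK (pU w) := ⟨_, rfl⟩
    obtain ⟨B, hB⟩ : ∃ B, B = F.bK (pU w) := ⟨_, rfl⟩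
    have hU : pU (vK (rhoF F n q w) : I8 → Ω) = vK (F.vec
        (rA H.d n c q (w (Sum.inl 0)) (w (Sum.inl 1)) A B)
        (rB n c q (w (Sum.inl 0)) (w (Sum.inl 1)) A B)) := by
      rw [hA, hB]
      rfl
    have hx : ∀ ε : Ω, xv (vK (rhoF F n q w) : I8 → Ω) ε =
        (algebraMap K Ω H.d * (s 0 (q 0) + s 1 (q 0) + s 2 (q 0)) *
          algebraMap K Ω (w (Sum.inl 1)) +
          (s 0 (q 1) * s 0 A + s 1 (q 1) * s 1 A + s 2 (q 1) * s 2 A) +
          algebraMap K Ω H.d * (s 0 (q 2) * s 0 B + s 1 (q 2) * s 1 B + s 2 (q 2) * s 2 B)) +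
        ((s 0 (q 0) + s 1 (q 0) + s 2 (q 0)) * algebraMap K Ω (w (Sum.inl 0)) +
          (s 0 (q 1) * s 0 B + s 1 (q 1) * s 1 B + s 2 (q 1) * s 2 B) +
          (s 0 (q 2) * s 0 A + s 1 (q 2) * s 1 A + s 2 (q 2) * s 2 A)) * ε := by
      intro ε
      rw [hA, hB]
      unfold xv
      simp only [vK, rhoF, Sum.elim_inl, cons_val_zero, cons_val_one, map_add, map_mul,
        tr_eq hM hs, Fin.sum_univ_three]
    have hz : ∀ (ε : Ω) (i : Fin 3), F.zi s ε (pU (vK w)) i = s i A + s i B * ε := by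
      intro ε i
      have h1 : pU (vK w : I8 → Ω) = vK (pU w) := rfl
      rw [h1, zi_vK, hA, hB]
    have hx' : ∀ ε : Ω, xv (vK w : I8 → Ω) ε =
        algebraMap K Ω (w (Sum.inl 0)) + algebraMap K Ω (w (Sum.inl 1)) * ε := fun _ => rfl
    have e01 : (0 : Fin 3) + 1 = 1 := rfl
    have e02 : (0 : Fin 3) + 2 = 2 := rfl
    have e11 : (1 : Fin 3) + 1 = 2 := rfl
    have e12 : (1 : Fin 3) + 2 = 0 := rfl
    have e21 : (2 : Fin 3) + 1 = 0 := rfl
    have e22 : (2 : Fin 3) + 2 = 1 := rfl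
    have hz0 : ∀ ε : Ω, F.zi s ε (pU (vK (rhoF F n q w))) 0 = _ := fun ε => by
      rw [hU, zi_vec hH hd hM F hs, s_rA hM hs, s_rB hM hs, e01, e02]
    have hz1 : ∀ ε : Ω, F.zi s ε (pU (vK (rhoF F n q w))) 1 = _ := fun ε => by
      rw [hU, zi_vec hH hd hM F hs, s_rA hM hs, s_rB hM hs, e11, e12]
    have hz2 : ∀ ε : Ω, F.zi s ε (pU (vK (rhoF F n q w))) 2 = _ := fun ε => by
      rw [hU, zi_vec hH hd hM F hs, s_rA hM hs, s_rB hM hs, e21, e22]
    have hsc : ∀ i, s i c ≠ 0 := fun i => by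
      rw [Ne, map_eq_zero]
      exact hc
    have hn0 : algebraMap K Ω n ≠ 0 := (map_ne_zero _).2 hn
    have hNc : algebraMap K Ω n ^ 2 = s 0 c * s 1 c * s 2 c := by
      rw [← map_pow, ← hN, nm_eq hM hs, Fin.prod_univ_three]
    have hc0 : s 0 c = algebraMap K Ω n ^ 2 / (s 1 c * s 2 c) := by
      rw [hNc]
      field_simp [hsc 0, hsc 1, hsc 2]
    have h1 := hsc 1
    have h2 := hsc 2
    have hz2' : (2 : Ω) ≠ 0 := by
      have h4 := (map_ne_zero (algebraMap K Ω)).2 (two_ne_zero (α := K))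
      rwa [map_ofNat] at h4
    funext i j k
    fin_cases i <;> fin_cases j <;> fin_cases k <;>
      simp only [Fin.zero_eta, Fin.mk_one, act_apply, qm, tl, of_apply, cons_val', cons_val_zero,
        cons_val_one, cons_val_fin_one, psi_000, psi_001, psi_010, psi_011, psi_100, psi_101,
        psi_110, psi_111, hx, hx', hz, hz0, hz1, hz2, ← hδ, hc0] <;> field_simp <;> ring
  exact LinearMap.congr_fun key w

end Pool.Agent.GSL
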