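import Pool.Agent.GSL.T8

/-!
# GSL: linear maps which preserve the Segre cone of `(ℙ¹) ^ 3`

`seg_main`: if an injective linear map `T` of `E ^ 2 ⊗ E ^ 2 ⊗ E ^ 2` maps tensors of rank one to
tensors of rank one, then `T (act A x) = α T x + act A' (T x)` for some `α`, `A'`, `A'` of trace zero:
the conjugation with `T` preserves the Lie algebra of the cone.

`Seg.of_map`: `T ⁻¹` also preserves the cone. `tangent`: the linear maps `Z` such that `Z x` is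
tangent to the cone at `x`, for all `x` in the cone.
-/

set_option autoImplicit false

noncomputable section

namespace Pool.Agent.GSL

open scoped TensorProduct

variable {E : Type} [Field E]

/-! ### The polar forms -/

/-- the polar forms of the nine quadratic forms vanish at `(x, y)` -/
structure Pol (x y : T8 E) : Prop where
  f0 : x 0 0 0 * y 1 1 0 + y 0 0 0 * x 1 1 0 = x 1 0 0 * y 0 1 0 + y 1 0 0 * x 0 1 0
  f1 : x 0 0 1 * y 1 1 1 + y 0 0 1 * x 1 1 1 = x 1 0 1 * y 0 1 1 + y 1 0 1 * x 0 1 1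
  f2 : x 0 0 0 * y 1 0 1 + y 0 0 0 * x 1 0 1 = x 1 0 0 * y 0 0 1 + y 1 0 0 * x 0 0 1
  f3 : x 0 1 0 * y 1 1 1 + y 0 1 0 * x 1 1 1 = x 1 1 0 * y 0 1 1 + y 1 1 0 * x 0 1 1
  f4 : x 0 0 0 * y 0 1 1 + y 0 0 0 * x 0 1 1 = x 0 1 0 * y 0 0 1 + y 0 1 0 * x 0 0 1
  f5 : x 1 0 0 * y 1 1 1 + y 1 0 0 * x 1 1 1 = x 1 1 0 * y 1 0 1 + y 1 1 0 * x 1 0 1
  g0 : x 0 0 0 * y 1 1 1 + y 0 0 0 * x 1 1 1 = x 1 0 0 * y 0 1 1 + y 1 0 0 * x 0 1 1
  g1 : x 0 0 0 * y 1 1 1 + y 0 0 0 * x 1 1 1 = x 0 1 0 * y 1 0 1 + y 0 1 0 * x 1 0 1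
  g2 : x 0 0 0 * y 1 1 1 + y 0 0 0 * x 1 1 1 = x 0 0 1 * y 1 1 0 + y 0 0 1 * x 1 1 0

theorem pol_of (h2 : (2 : E) ≠ 0) {x y : T8 E} (h1 : Seg (x + y)) (h3 : Seg (x - y)) : Pol x y := by
  have key : ∀ {a b c d a' b' c' d' : E}, (a + a') * (b + b') = (c + c') * (d + d') →
      (a - a') * (b - b') = (c - c') * (d - d') → a * b' + a' * b = c * d' + c' * d := by
    intro a b c d a' b' c' d' e1 e2
    apply mul_left_cancel₀ h2
    linear_combination e1 - e2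
  exact ⟨key h1.f0 h3.f0, key h1.f1 h3.f1, key h1.f2 h3.f2, key h1.f3 h3.f3, key h1.f4 h3.f4,
    key h1.f5 h3.f5, key h1.g0 h3.g0, key h1.g1 h3.g1, key h1.g2 h3.g2⟩

/-! ### One factor -/

/-- the matrix `G` on the first factor -/
def m0 (G : Matrix (Fin 2) (Fin 2) E) (x : T8 E) : T8 E :=
  fun i j k => G i 0 * x 0 j k + G i 1 * x 1 j k

/-- the matrix `G` on the second factor -/
def m1 (G : Matrix (Fin 2) (Fin 2) E) (x : T8 E) : T8 E :=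
  fun i j k => G j 0 * x i 0 k + G j 1 * x i 1 k

/-- the matrix `G` on the third factor -/
def m2 (G : Matrix (Fin 2) (Fin 2) E) (x : T8 E) : T8 E :=
  fun i j k => G k 0 * x i j 0 + G k 1 * x i j 1

theorem Seg.m0 {x : T8 E} (h : Seg x) (G : Matrix (Fin 2) (Fin 2) E) : Seg (GSL.m0 G x) where
  f0 := by
    simp only [GSL.m0]
    linear_combination (-G 0 1 * G 1 0 + G 0 0 * G 1 1) * h.f0
  f1 := by
    simp only [GSL.m0]
    linear_combination (-G 0 1 * G 1 0 + G 0 0 * G 1 1) * h.f1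
  f2 := by
    simp only [GSL.m0]
    linear_combination (-G 0 1 * G 1 0 + G 0 0 * G 1 1) * h.f2
  f3 := by
    simp only [GSL.m0]
    linear_combination (-G 0 1 * G 1 0 + G 0 0 * G 1 1) * h.f3
  f4 := by
    simp only [GSL.m0]
    linear_combination (-(G 0 0 * G 0 1)) * h.g0 + (G 0 0 * G 0 0) * h.f4 + (G 0 0 * G 0 1) * h.g1 + (G 0 0 * G 0 1) * h.g2 + (G 0 1 * G 0 1) * h.f5
  f5 := by
    simp only [GSL.m0]
    linear_combination (-(G 1 0 * G 1 1)) * h.g0 + (G 1 0 * G 1 0) * h.f4 + (G 1 0 * G 1 1) * h.g1 + (G 1 0 * G 1 1) * h.g2 + (G 1 1 * G 1 1) * h.f5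
  g0 := by
    simp only [GSL.m0]
    linear_combination (-G 0 1 * G 1 0 + G 0 0 * G 1 1) * h.g0
  g1 := by
    simp only [GSL.m0]
    linear_combination (-(G 0 1 * G 1 0)) * h.g0 + (G 0 0 * G 1 0) * h.f4 + (G 0 0 * G 1 1) * h.g1 + (G 0 1 * G 1 0) * h.g2 + (G 0 1 * G 1 1) * h.f5
  g2 := by
    simp only [GSL.m0]
    linear_combination (-(G 0 1 * G 1 0)) * h.g0 + (G 0 0 * G 1 0) * h.f4 + (G 0 0 * G 1 1) * h.g2 + (G 0 1 * G 1 0) * h.g1 + (G 0 1 * G 1 1) * h.f5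

theorem Seg.m1 {x : T8 E} (h : Seg x) (G : Matrix (Fin 2) (Fin 2) E) : Seg (GSL.m1 G x) where
  f0 := by
    simp only [GSL.m1]
    linear_combination (-G 0 1 * G 1 0 + G 0 0 * G 1 1) * h.f0
  f1 := by
    simp only [GSL.m1]
    linear_combination (-G 0 1 * G 1 0 + G 0 0 * G 1 1) * h.f1
  f2 := by
    simp only [GSL.m1]
    linear_combination (-(G 0 0 * G 0 1)) * h.g1 + (G 0 0 * G 0 0) * h.f2 + (G 0 0 * G 0 1) * h.g0 + (G 0 0 * G 0 1) * h.g2 + (G 0 1 * G 0 1) * h.f3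
  f3 := by
    simp only [GSL.m1]
    linear_combination (-(G 1 0 * G 1 1)) * h.g1 + (G 1 0 * G 1 0) * h.f2 + (G 1 0 * G 1 1) * h.g0 + (G 1 0 * G 1 1) * h.g2 + (G 1 1 * G 1 1) * h.f3
  f4 := by
    simp only [GSL.m1]
    linear_combination (-G 0 1 * G 1 0 + G 0 0 * G 1 1) * h.f4
  f5 := by
    simp only [GSL.m1]
    linear_combination (-G 0 1 * G 1 0 + G 0 0 * G 1 1) * h.f5
  g0 := by
    simp only [GSL.m1]
    linear_combination (-(G 0 1 * G 1 0)) * h.g1 + (G 0 0 * G 1 0) * h.f2 + (G 0 0 * G 1 1) * h.g0 + (G 0 1 * G 1 0) * h.g2 + (G 0 1 * G 1 1) * h.f3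
  g1 := by
    simp only [GSL.m1]
    linear_combination (-G 0 1 * G 1 0 + G 0 0 * G 1 1) * h.g1
  g2 := by
    simp only [GSL.m1]
    linear_combination (-(G 0 1 * G 1 0)) * h.g1 + (G 0 0 * G 1 0) * h.f2 + (G 0 0 * G 1 1) * h.g2 + (G 0 1 * G 1 0) * h.g0 + (G 0 1 * G 1 1) * h.f3

theorem Seg.m2 {x : T8 E} (h : Seg x) (G : Matrix (Fin 2) (Fin 2) E) : Seg (GSL.m2 G x) where
  f0 := by
    simp only [GSL.m2]
    linear_combination (-(G 0 0 * G 0 1)) * h.g2 + (G 0 0 * G 0 0) * h.f0 + (G 0 0 * G 0 1) * h.g0 + (G 0 0 * G 0 1) * h.g1 + (G 0 1 * G 0 1) * h.f1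
  f1 := by
    simp only [GSL.m2]
    linear_combination (-(G 1 0 * G 1 1)) * h.g2 + (G 1 0 * G 1 0) * h.f0 + (G 1 0 * G 1 1) * h.g0 + (G 1 0 * G 1 1) * h.g1 + (G 1 1 * G 1 1) * h.f1
  f2 := by
    simp only [GSL.m2]
    linear_combination (-G 0 1 * G 1 0 + G 0 0 * G 1 1) * h.f2
  f3 := by
    simp only [GSL.m2]
    linear_combination (-G 0 1 * G 1 0 + G 0 0 * G 1 1) * h.f3
  f4 := by
    simp only [GSL.m2]
    linear_combination (-G 0 1 * G 1 0 + G 0 0 * G 1 1) * h.f4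
  f5 := by
    simp only [GSL.m2]
    linear_combination (-G 0 1 * G 1 0 + G 0 0 * G 1 1) * h.f5
  g0 := by
    simp only [GSL.m2]
    linear_combination (-(G 0 1 * G 1 0)) * h.g2 + (G 0 0 * G 1 0) * h.f0 + (G 0 0 * G 1 1) * h.g0 + (G 0 1 * G 1 0) * h.g1 + (G 0 1 * G 1 1) * h.f1
  g1 := by
    simp only [GSL.m2]
    linear_combination (-(G 0 1 * G 1 0)) * h.g2 + (G 0 0 * G 1 0) * h.f0 + (G 0 0 * G 1 1) * h.g1 + (G 0 1 * G 1 0) * h.g0 + (G 0 1 * G 1 1) * h.f1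
  g2 := by
    simp only [GSL.m2]
    linear_combination (-G 0 1 * G 1 0 + G 0 0 * G 1 1) * h.g2

theorem act_single0 (A : Matrix (Fin 2) (Fin 2) E) (x : T8 E) :
    act (Pi.single 0 A) x = m0 A x := by
  funext i j k
  simp [act_apply, m0]

theorem act_single1 (A : Matrix (Fin 2) (Fin 2) E) (x : T8 E) :
    act (Pi.single 1 A) x = m1 A x := by
  funext i j k
  simp [act_apply, m1]

theorem act_single2 (A : Matrix (Fin 2) (Fin 2) E) (x : T8 E) :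
    act (Pi.single 2 A) x = m2 A x := by
  funext i j k
  simp [act_apply, m2]

theorem m0_one (A : Matrix (Fin 2) (Fin 2) E) (x : T8 E) : m0 (1 + A) x = x + m0 A x := by
  funext i j k
  fin_cases i <;> simp [m0] <;> ring

theorem m1_one (A : Matrix (Fin 2) (Fin 2) E) (x : T8 E) : m1 (1 + A) x = x + m1 A x := by
  funext i j k
  fin_cases j <;> simp [m1] <;> ring

theorem m2_one (A : Matrix (Fin 2) (Fin 2) E) (x : T8 E) : m2 (1 + A) x = x + m2 A x := by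
  funext i j k
  fin_cases k <;> simp [m2] <;> ring

theorem act_add (A B : Fin 3 → Matrix (Fin 2) (Fin 2) E) (x : T8 E) :
    act (A + B) x = act A x + act B x := by
  funext i j k
  simp only [act_apply, Pi.add_apply, Matrix.add_apply]
  ring

/-- the operators on one factor are tangent to the cone -/
theorem Seg.add_act {x : T8 E} (h : Seg x) (l : Fin 3) (A : Matrix (Fin 2) (Fin 2) E) :
    Seg (x + act (Pi.single l A) x) := by
  fin_cases l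
  · change Seg (x + act (Pi.single 0 A) x)
    rw [act_single0, ← m0_one]
    exact h.m0 _
  · change Seg (x + act (Pi.single 1 A) x)
    rw [act_single1, ← m1_one]
    exact h.m1 _
  · change Seg (x + act (Pi.single 2 A) x)
    rw [act_single2, ← m2_one]
    exact h.m2 _

theorem act_neg (A : Fin 3 → Matrix (Fin 2) (Fin 2) E) (x : T8 E) : act (-A) x = -act A x := by
  funext i j k
  simp only [act_apply, Pi.neg_apply, Matrix.neg_apply]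
  ring

theorem Seg.sub_act {x : T8 E} (h : Seg x) (l : Fin 3) (A : Matrix (Fin 2) (Fin 2) E) :
    Seg (x - act (Pi.single l A) x) := by
  have h1 := h.add_act l (-A)
  rwa [Pi.single_neg, act_neg, ← sub_eq_add_neg] at h1

/-! ### The tangent lemma -/

/-- the basis -/
def e (i j k : Fin 2) : T8 E :=
  fun a b c => if a = i then if b = j then if c = k then 1 else 0 else 0 else 0

theorem expand (x : T8 E) : x =
    x 0 0 0 • e 0 0 0 +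
    x 0 0 1 • e 0 0 1 +
    x 0 1 0 • e 0 1 0 +
    x 0 1 1 • e 0 1 1 +
    x 1 0 0 • e 1 0 0 +
    x 1 0 1 • e 1 0 1 +
    x 1 1 0 • e 1 1 0 +
    x 1 1 1 • e 1 1 1 := by
  funext i j k
  fin_cases i <;> fin_cases j <;> fin_cases k <;> simp [e]

section Tangent

variable {Z : T8 E →ₗ[E] T8 E} (hZ : ∀ x, Seg x → Pol x (Z x))

include hZ

theorem z000 : Z (e 0 0 0) 0 1 1 = 0 ∧ Z (e 0 0 0) 1 0 1 = 0 ∧ Z (e 0 0 0) 1 1 0 = 0 ∧ Z (e 0 0 0) 1 1 1 = 0 := by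
  have h := hZ (e 0 0 0) (by constructor <;> simp [e])
  refine ⟨?_, ?_, ?_, ?_⟩
  · simpa [e] using h.f4
  · simpa [e] using h.f2
  · simpa [e] using h.f0
  · simpa [e] using h.g0

theorem z001 : Z (e 0 0 1) 0 1 0 = 0 ∧ Z (e 0 0 1) 1 0 0 = 0 ∧ Z (e 0 0 1) 1 1 0 = 0 ∧ Z (e 0 0 1) 1 1 1 = 0 := by
  have h := hZ (e 0 0 1) (by constructor <;> simp [e])
  refine ⟨?_, ?_, ?_, ?_⟩
  · simpa [e] using h.f4.symm
  · simpa [e] using h.f2.symm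
  · simpa [e] using h.g2.symm
  · simpa [e] using h.f1

theorem z010 : Z (e 0 1 0) 0 0 1 = 0 ∧ Z (e 0 1 0) 1 0 0 = 0 ∧ Z (e 0 1 0) 1 0 1 = 0 ∧ Z (e 0 1 0) 1 1 1 = 0 := by
  have h := hZ (e 0 1 0) (by constructor <;> simp [e])
  refine ⟨?_, ?_, ?_, ?_⟩
  · simpa [e] using h.f4.symm
  · simpa [e] using h.f0.symm
  · simpa [e] using h.g1.symm
  · simpa [e] using h.f3

theorem z011 : Z (e 0 1 1) 0 0 0 = 0 ∧ Z (e 0 1 1) 1 0 0 = 0 ∧ Z (e 0 1 1) 1 0 1 = 0 ∧ Z (e 0 1 1) 1 1 0 = 0 := by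
  have h := hZ (e 0 1 1) (by constructor <;> simp [e])
  refine ⟨?_, ?_, ?_, ?_⟩
  · simpa [e] using h.f4
  · simpa [e] using h.g0.symm
  · simpa [e] using h.f1.symm
  · simpa [e] using h.f3.symm

theorem z100 : Z (e 1 0 0) 0 0 1 = 0 ∧ Z (e 1 0 0) 0 1 0 = 0 ∧ Z (e 1 0 0) 0 1 1 = 0 ∧ Z (e 1 0 0) 1 1 1 = 0 := by
  have h := hZ (e 1 0 0) (by constructor <;> simp [e])
  refine ⟨?_, ?_, ?_, ?_⟩
  · simpa [e] using h.f2.symm
  · simpa [e] using h.f0.symm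
  · simpa [e] using h.g0.symm
  · simpa [e] using h.f5

theorem z101 : Z (e 1 0 1) 0 0 0 = 0 ∧ Z (e 1 0 1) 0 1 0 = 0 ∧ Z (e 1 0 1) 0 1 1 = 0 ∧ Z (e 1 0 1) 1 1 0 = 0 := by
  have h := hZ (e 1 0 1) (by constructor <;> simp [e])
  refine ⟨?_, ?_, ?_, ?_⟩
  · simpa [e] using h.f2
  · simpa [e] using h.g1.symm
  · simpa [e] using h.f1.symm
  · simpa [e] using h.f5.symm

theorem z110 : Z (e 1 1 0) 0 0 0 = 0 ∧ Z (e 1 1 0) 0 0 1 = 0 ∧ Z (e 1 1 0) 0 1 1 = 0 ∧ Z (e 1 1 0) 1 0 1 = 0 := by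
  have h := hZ (e 1 1 0) (by constructor <;> simp [e])
  refine ⟨?_, ?_, ?_, ?_⟩
  · simpa [e] using h.f0
  · simpa [e] using h.g2.symm
  · simpa [e] using h.f3.symm
  · simpa [e] using h.f5.symm

theorem z111 : Z (e 1 1 1) 0 0 0 = 0 ∧ Z (e 1 1 1) 0 0 1 = 0 ∧ Z (e 1 1 1) 0 1 0 = 0 ∧ Z (e 1 1 1) 1 0 0 = 0 := by
  have h := hZ (e 1 1 1) (by constructor <;> simp [e])
  refine ⟨?_, ?_, ?_, ?_⟩
  · simpa [e] using h.g0
  · simpa [e] using h.f1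
  · simpa [e] using h.f3
  · simpa [e] using h.f5

theorem sf0_000_100 : Z (e 1 0 0) 1 1 0 = Z (e 0 0 0) 0 1 0 := by
  have h := (hZ (e 0 0 0 + e 1 0 0) (by constructor <;> simp [e])).f0
  rw [map_add] at h
  have h1 : Z (e 0 0 0) 1 1 0 = 0 := ((z000 hZ).2.2.1)
  have h2 : Z (e 1 0 0) 0 1 0 = 0 := ((z100 hZ).2.1)
  simpa [e, h1, h2] using h

theorem sf0_000_010 : Z (e 0 1 0) 1 1 0 = Z (e 0 0 0) 1 0 0 := by
  have h := (hZ (e 0 0 0 + e 0 1 0) (by constructor <;> simp [e])).f0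
  rw [map_add] at h
  have h1 : Z (e 0 0 0) 1 1 0 = 0 := ((z000 hZ).2.2.1)
  have h2 : Z (e 0 1 0) 1 0 0 = 0 := ((z010 hZ).2.1)
  simpa [e, h1, h2] using h

theorem sf0_110_100 : Z (e 1 0 0) 0 0 0 = Z (e 1 1 0) 0 1 0 := by
  have h := (hZ (e 1 1 0 + e 1 0 0) (by constructor <;> simp [e])).f0
  rw [map_add] at h
  have h1 : Z (e 1 1 0) 0 0 0 = 0 := ((z110 hZ).1)
  have h2 : Z (e 1 0 0) 0 1 0 = 0 := ((z100 hZ).2.1)
  simpa [e, h1, h2] using h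

theorem sf0_110_010 : Z (e 0 1 0) 0 0 0 = Z (e 1 1 0) 1 0 0 := by
  have h := (hZ (e 1 1 0 + e 0 1 0) (by constructor <;> simp [e])).f0
  rw [map_add] at h
  have h1 : Z (e 1 1 0) 0 0 0 = 0 := ((z110 hZ).1)
  have h2 : Z (e 0 1 0) 1 0 0 = 0 := ((z010 hZ).2.1)
  simpa [e, h1, h2] using h

theorem sf1_001_101 : Z (e 1 0 1) 1 1 1 = Z (e 0 0 1) 0 1 1 := by
  have h := (hZ (e 0 0 1 + e 1 0 1) (by constructor <;> simp [e])).f1
  rw [map_add] at h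
  have h1 : Z (e 0 0 1) 1 1 1 = 0 := ((z001 hZ).2.2.2)
  have h2 : Z (e 1 0 1) 0 1 1 = 0 := ((z101 hZ).2.2.1)
  simpa [e, h1, h2] using h

theorem sf1_001_011 : Z (e 0 1 1) 1 1 1 = Z (e 0 0 1) 1 0 1 := by
  have h := (hZ (e 0 0 1 + e 0 1 1) (by constructor <;> simp [e])).f1
  rw [map_add] at h
  have h1 : Z (e 0 0 1) 1 1 1 = 0 := ((z001 hZ).2.2.2)
  have h2 : Z (e 0 1 1) 1 0 1 = 0 := ((z011 hZ).2.2.1)
  simpa [e, h1, h2] using h

theorem sf1_111_101 : Z (e 1 0 1) 0 0 1 = Z (e 1 1 1) 0 1 1 := by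
  have h := (hZ (e 1 1 1 + e 1 0 1) (by constructor <;> simp [e])).f1
  rw [map_add] at h
  have h1 : Z (e 1 1 1) 0 0 1 = 0 := ((z111 hZ).2.1)
  have h2 : Z (e 1 0 1) 0 1 1 = 0 := ((z101 hZ).2.2.1)
  simpa [e, h1, h2] using h

theorem sf1_111_011 : Z (e 0 1 1) 0 0 1 = Z (e 1 1 1) 1 0 1 := by
  have h := (hZ (e 1 1 1 + e 0 1 1) (by constructor <;> simp [e])).f1
  rw [map_add] at h
  have h1 : Z (e 1 1 1) 0 0 1 = 0 := ((z111 hZ).2.1)
  have h2 : Z (e 0 1 1) 1 0 1 = 0 := ((z011 hZ).2.2.1)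
  simpa [e, h1, h2] using h

theorem sf2_000_100 : Z (e 1 0 0) 1 0 1 = Z (e 0 0 0) 0 0 1 := by
  have h := (hZ (e 0 0 0 + e 1 0 0) (by constructor <;> simp [e])).f2
  rw [map_add] at h
  have h1 : Z (e 0 0 0) 1 0 1 = 0 := ((z000 hZ).2.1)
  have h2 : Z (e 1 0 0) 0 0 1 = 0 := ((z100 hZ).1)
  simpa [e, h1, h2] using h

theorem sf2_000_001 : Z (e 0 0 1) 1 0 1 = Z (e 0 0 0) 1 0 0 := by
  have h := (hZ (e 0 0 0 + e 0 0 1) (by constructor <;> simp [e])).f2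
  rw [map_add] at h
  have h1 : Z (e 0 0 0) 1 0 1 = 0 := ((z000 hZ).2.1)
  have h2 : Z (e 0 0 1) 1 0 0 = 0 := ((z001 hZ).2.1)
  simpa [e, h1, h2] using h

theorem sf2_101_100 : Z (e 1 0 0) 0 0 0 = Z (e 1 0 1) 0 0 1 := by
  have h := (hZ (e 1 0 1 + e 1 0 0) (by constructor <;> simp [e])).f2
  rw [map_add] at h
  have h1 : Z (e 1 0 1) 0 0 0 = 0 := ((z101 hZ).1)
  have h2 : Z (e 1 0 0) 0 0 1 = 0 := ((z100 hZ).1)
  simpa [e, h1, h2] using h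

theorem sf2_101_001 : Z (e 0 0 1) 0 0 0 = Z (e 1 0 1) 1 0 0 := by
  have h := (hZ (e 1 0 1 + e 0 0 1) (by constructor <;> simp [e])).f2
  rw [map_add] at h
  have h1 : Z (e 1 0 1) 0 0 0 = 0 := ((z101 hZ).1)
  have h2 : Z (e 0 0 1) 1 0 0 = 0 := ((z001 hZ).2.1)
  simpa [e, h1, h2] using h

theorem sf3_010_110 : Z (e 1 1 0) 1 1 1 = Z (e 0 1 0) 0 1 1 := by
  have h := (hZ (e 0 1 0 + e 1 1 0) (by constructor <;> simp [e])).f3
  rw [map_add] at h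
  have h1 : Z (e 0 1 0) 1 1 1 = 0 := ((z010 hZ).2.2.2)
  have h2 : Z (e 1 1 0) 0 1 1 = 0 := ((z110 hZ).2.2.1)
  simpa [e, h1, h2] using h

theorem sf3_010_011 : Z (e 0 1 1) 1 1 1 = Z (e 0 1 0) 1 1 0 := by
  have h := (hZ (e 0 1 0 + e 0 1 1) (by constructor <;> simp [e])).f3
  rw [map_add] at h
  have h1 : Z (e 0 1 0) 1 1 1 = 0 := ((z010 hZ).2.2.2)
  have h2 : Z (e 0 1 1) 1 1 0 = 0 := ((z011 hZ).2.2.2)
  simpa [e, h1, h2] using h

theorem sf3_111_110 : Z (e 1 1 0) 0 1 0 = Z (e 1 1 1) 0 1 1 := by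
  have h := (hZ (e 1 1 1 + e 1 1 0) (by constructor <;> simp [e])).f3
  rw [map_add] at h
  have h1 : Z (e 1 1 1) 0 1 0 = 0 := ((z111 hZ).2.2.1)
  have h2 : Z (e 1 1 0) 0 1 1 = 0 := ((z110 hZ).2.2.1)
  simpa [e, h1, h2] using h

theorem sf3_111_011 : Z (e 0 1 1) 0 1 0 = Z (e 1 1 1) 1 1 0 := by
  have h := (hZ (e 1 1 1 + e 0 1 1) (by constructor <;> simp [e])).f3
  rw [map_add] at h
  have h1 : Z (e 1 1 1) 0 1 0 = 0 := ((z111 hZ).2.2.1)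
  have h2 : Z (e 0 1 1) 1 1 0 = 0 := ((z011 hZ).2.2.2)
  simpa [e, h1, h2] using h

theorem sf4_000_010 : Z (e 0 1 0) 0 1 1 = Z (e 0 0 0) 0 0 1 := by
  have h := (hZ (e 0 0 0 + e 0 1 0) (by constructor <;> simp [e])).f4
  rw [map_add] at h
  have h1 : Z (e 0 0 0) 0 1 1 = 0 := ((z000 hZ).1)
  have h2 : Z (e 0 1 0) 0 0 1 = 0 := ((z010 hZ).1)
  simpa [e, h1, h2] using h

theorem sf4_000_001 : Z (e 0 0 1) 0 1 1 = Z (e 0 0 0) 0 1 0 := by
  have h := (hZ (e 0 0 0 + e 0 0 1) (by constructor <;> simp [e])).f4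
  rw [map_add] at h
  have h1 : Z (e 0 0 0) 0 1 1 = 0 := ((z000 hZ).1)
  have h2 : Z (e 0 0 1) 0 1 0 = 0 := ((z001 hZ).1)
  simpa [e, h1, h2] using h

theorem sf4_011_010 : Z (e 0 1 0) 0 0 0 = Z (e 0 1 1) 0 0 1 := by
  have h := (hZ (e 0 1 1 + e 0 1 0) (by constructor <;> simp [e])).f4
  rw [map_add] at h
  have h1 : Z (e 0 1 1) 0 0 0 = 0 := ((z011 hZ).1)
  have h2 : Z (e 0 1 0) 0 0 1 = 0 := ((z010 hZ).1)
  simpa [e, h1, h2] using h

theorem sf4_011_001 : Z (e 0 0 1) 0 0 0 = Z (e 0 1 1) 0 1 0 := by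
  have h := (hZ (e 0 1 1 + e 0 0 1) (by constructor <;> simp [e])).f4
  rw [map_add] at h
  have h1 : Z (e 0 1 1) 0 0 0 = 0 := ((z011 hZ).1)
  have h2 : Z (e 0 0 1) 0 1 0 = 0 := ((z001 hZ).1)
  simpa [e, h1, h2] using h

theorem sf5_100_110 : Z (e 1 1 0) 1 1 1 = Z (e 1 0 0) 1 0 1 := by
  have h := (hZ (e 1 0 0 + e 1 1 0) (by constructor <;> simp [e])).f5
  rw [map_add] at h
  have h1 : Z (e 1 0 0) 1 1 1 = 0 := ((z100 hZ).2.2.2)
  have h2 : Z (e 1 1 0) 1 0 1 = 0 := ((z110 hZ).2.2.2)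
  simpa [e, h1, h2] using h

theorem sf5_100_101 : Z (e 1 0 1) 1 1 1 = Z (e 1 0 0) 1 1 0 := by
  have h := (hZ (e 1 0 0 + e 1 0 1) (by constructor <;> simp [e])).f5
  rw [map_add] at h
  have h1 : Z (e 1 0 0) 1 1 1 = 0 := ((z100 hZ).2.2.2)
  have h2 : Z (e 1 0 1) 1 1 0 = 0 := ((z101 hZ).2.2.2)
  simpa [e, h1, h2] using h

theorem sf5_111_110 : Z (e 1 1 0) 1 0 0 = Z (e 1 1 1) 1 0 1 := by
  have h := (hZ (e 1 1 1 + e 1 1 0) (by constructor <;> simp [e])).f5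
  rw [map_add] at h
  have h1 : Z (e 1 1 1) 1 0 0 = 0 := ((z111 hZ).2.2.2)
  have h2 : Z (e 1 1 0) 1 0 1 = 0 := ((z110 hZ).2.2.2)
  simpa [e, h1, h2] using h

theorem sf5_111_101 : Z (e 1 0 1) 1 0 0 = Z (e 1 1 1) 1 1 0 := by
  have h := (hZ (e 1 1 1 + e 1 0 1) (by constructor <;> simp [e])).f5
  rw [map_add] at h
  have h1 : Z (e 1 1 1) 1 0 0 = 0 := ((z111 hZ).2.2.2)
  have h2 : Z (e 1 0 1) 1 1 0 = 0 := ((z101 hZ).2.2.2)
  simpa [e, h1, h2] using h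

theorem r001_0 : Z (e 0 0 1) 1 0 1 = Z (e 0 0 0) 1 0 0 :=
  (sf2_000_001 hZ)

theorem r001_1 : Z (e 0 0 1) 0 1 1 = Z (e 0 0 0) 0 1 0 :=
  (sf4_000_001 hZ)

theorem r010_0 : Z (e 0 1 0) 1 1 0 = Z (e 0 0 0) 1 0 0 :=
  (sf0_000_010 hZ)

theorem r010_2 : Z (e 0 1 0) 0 1 1 = Z (e 0 0 0) 0 0 1 :=
  (sf4_000_010 hZ)

theorem r011_0 : Z (e 0 1 1) 1 1 1 = Z (e 0 0 0) 1 0 0 :=
  (sf1_001_011 hZ).trans (sf2_000_001 hZ)

theorem r011_1 : Z (e 0 1 1) 0 0 1 = Z (e 0 1 0) 0 0 0 :=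
  (sf4_011_010 hZ).symm

theorem r011_2 : Z (e 0 1 1) 0 1 0 = Z (e 0 0 1) 0 0 0 :=
  (sf4_011_001 hZ).symm

theorem r100_1 : Z (e 1 0 0) 1 1 0 = Z (e 0 0 0) 0 1 0 :=
  (sf0_000_100 hZ)

theorem r100_2 : Z (e 1 0 0) 1 0 1 = Z (e 0 0 0) 0 0 1 :=
  (sf2_000_100 hZ)

theorem r101_0 : Z (e 1 0 1) 0 0 1 = Z (e 1 0 0) 0 0 0 :=
  (sf2_101_100 hZ).symm

theorem r101_1 : Z (e 1 0 1) 1 1 1 = Z (e 0 0 0) 0 1 0 :=
  (sf1_001_101 hZ).trans (sf4_000_001 hZ)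

theorem r101_2 : Z (e 1 0 1) 1 0 0 = Z (e 0 0 1) 0 0 0 :=
  (sf2_101_001 hZ).symm

theorem r110_0 : Z (e 1 1 0) 0 1 0 = Z (e 1 0 0) 0 0 0 :=
  (sf0_110_100 hZ).symm

theorem r110_1 : Z (e 1 1 0) 1 0 0 = Z (e 0 1 0) 0 0 0 :=
  (sf0_110_010 hZ).symm

theorem r110_2 : Z (e 1 1 0) 1 1 1 = Z (e 0 0 0) 0 0 1 :=
  (sf3_010_110 hZ).trans (sf4_000_010 hZ)

theorem r111_0 : Z (e 1 1 1) 0 1 1 = Z (e 1 0 0) 0 0 0 :=
  (sf1_111_101 hZ).symm.trans (sf2_101_100 hZ).symm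

theorem r111_1 : Z (e 1 1 1) 1 0 1 = Z (e 0 1 0) 0 0 0 :=
  (sf1_111_011 hZ).symm.trans (sf4_011_010 hZ).symm

theorem r111_2 : Z (e 1 1 1) 1 1 0 = Z (e 0 0 1) 0 0 0 :=
  (sf3_111_011 hZ).symm.trans (sf4_011_001 hZ).symm

theorem df0 : Z (e 0 0 0) 0 0 0 + Z (e 1 1 0) 1 1 0 =
    Z (e 1 0 0) 1 0 0 + Z (e 0 1 0) 0 1 0 := by
  have h := (hZ (e 0 0 0 + e 1 1 0 + e 1 0 0 + e 0 1 0) (by constructor <;> simp [e])).f0
  rw [map_add, map_add, map_add] at h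
  have h1 : Z (e 0 0 0) 1 1 0 = 0 := ((z000 hZ).2.2.1)
  have h2 : Z (e 1 1 0) 0 0 0 = 0 := ((z110 hZ).1)
  have h3 : Z (e 1 0 0) 0 1 0 = 0 := ((z100 hZ).2.1)
  have h4 : Z (e 0 1 0) 1 0 0 = 0 := ((z010 hZ).2.1)
  have k1 := sf0_000_100 hZ
  have k2 := sf0_000_010 hZ
  have k3 := sf0_110_100 hZ
  have k4 := sf0_110_010 hZ
  simp [e, h1, h2, h3, h4] at h
  linear_combination h - k1 - k2 - k3 - k4

theorem df1 : Z (e 0 0 1) 0 0 1 + Z (e 1 1 1) 1 1 1 =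
    Z (e 1 0 1) 1 0 1 + Z (e 0 1 1) 0 1 1 := by
  have h := (hZ (e 0 0 1 + e 1 1 1 + e 1 0 1 + e 0 1 1) (by constructor <;> simp [e])).f1
  rw [map_add, map_add, map_add] at h
  have h1 : Z (e 0 0 1) 1 1 1 = 0 := ((z001 hZ).2.2.2)
  have h2 : Z (e 1 1 1) 0 0 1 = 0 := ((z111 hZ).2.1)
  have h3 : Z (e 1 0 1) 0 1 1 = 0 := ((z101 hZ).2.2.1)
  have h4 : Z (e 0 1 1) 1 0 1 = 0 := ((z011 hZ).2.2.1)
  have k1 := sf1_001_101 hZ
  have k2 := sf1_001_011 hZ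
  have k3 := sf1_111_101 hZ
  have k4 := sf1_111_011 hZ
  simp [e, h1, h2, h3, h4] at h
  linear_combination h - k1 - k2 - k3 - k4

theorem df2 : Z (e 0 0 0) 0 0 0 + Z (e 1 0 1) 1 0 1 =
    Z (e 1 0 0) 1 0 0 + Z (e 0 0 1) 0 0 1 := by
  have h := (hZ (e 0 0 0 + e 1 0 1 + e 1 0 0 + e 0 0 1) (by constructor <;> simp [e])).f2
  rw [map_add, map_add, map_add] at h
  have h1 : Z (e 0 0 0) 1 0 1 = 0 := ((z000 hZ).2.1)
  have h2 : Z (e 1 0 1) 0 0 0 = 0 := ((z101 hZ).1)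
  have h3 : Z (e 1 0 0) 0 0 1 = 0 := ((z100 hZ).1)
  have h4 : Z (e 0 0 1) 1 0 0 = 0 := ((z001 hZ).2.1)
  have k1 := sf2_000_100 hZ
  have k2 := sf2_000_001 hZ
  have k3 := sf2_101_100 hZ
  have k4 := sf2_101_001 hZ
  simp [e, h1, h2, h3, h4] at h
  linear_combination h - k1 - k2 - k3 - k4

theorem df3 : Z (e 0 1 0) 0 1 0 + Z (e 1 1 1) 1 1 1 =
    Z (e 1 1 0) 1 1 0 + Z (e 0 1 1) 0 1 1 := by
  have h := (hZ (e 0 1 0 + e 1 1 1 + e 1 1 0 + e 0 1 1) (by constructor <;> simp [e])).f3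
  rw [map_add, map_add, map_add] at h
  have h1 : Z (e 0 1 0) 1 1 1 = 0 := ((z010 hZ).2.2.2)
  have h2 : Z (e 1 1 1) 0 1 0 = 0 := ((z111 hZ).2.2.1)
  have h3 : Z (e 1 1 0) 0 1 1 = 0 := ((z110 hZ).2.2.1)
  have h4 : Z (e 0 1 1) 1 1 0 = 0 := ((z011 hZ).2.2.2)
  have k1 := sf3_010_110 hZ
  have k2 := sf3_010_011 hZ
  have k3 := sf3_111_110 hZ
  have k4 := sf3_111_011 hZ
  simp [e, h1, h2, h3, h4] at h
  linear_combination h - k1 - k2 - k3 - k4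

theorem df4 : Z (e 0 0 0) 0 0 0 + Z (e 0 1 1) 0 1 1 =
    Z (e 0 1 0) 0 1 0 + Z (e 0 0 1) 0 0 1 := by
  have h := (hZ (e 0 0 0 + e 0 1 1 + e 0 1 0 + e 0 0 1) (by constructor <;> simp [e])).f4
  rw [map_add, map_add, map_add] at h
  have h1 : Z (e 0 0 0) 0 1 1 = 0 := ((z000 hZ).1)
  have h2 : Z (e 0 1 1) 0 0 0 = 0 := ((z011 hZ).1)
  have h3 : Z (e 0 1 0) 0 0 1 = 0 := ((z010 hZ).1)
  have h4 : Z (e 0 0 1) 0 1 0 = 0 := ((z001 hZ).1)
  have k1 := sf4_000_010 hZ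
  have k2 := sf4_000_001 hZ
  have k3 := sf4_011_010 hZ
  have k4 := sf4_011_001 hZ
  simp [e, h1, h2, h3, h4] at h
  linear_combination h - k1 - k2 - k3 - k4

theorem df5 : Z (e 1 0 0) 1 0 0 + Z (e 1 1 1) 1 1 1 =
    Z (e 1 1 0) 1 1 0 + Z (e 1 0 1) 1 0 1 := by
  have h := (hZ (e 1 0 0 + e 1 1 1 + e 1 1 0 + e 1 0 1) (by constructor <;> simp [e])).f5
  rw [map_add, map_add, map_add] at h
  have h1 : Z (e 1 0 0) 1 1 1 = 0 := ((z100 hZ).2.2.2)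
  have h2 : Z (e 1 1 1) 1 0 0 = 0 := ((z111 hZ).2.2.2)
  have h3 : Z (e 1 1 0) 1 0 1 = 0 := ((z110 hZ).2.2.2)
  have h4 : Z (e 1 0 1) 1 1 0 = 0 := ((z101 hZ).2.2.2)
  have k1 := sf5_100_110 hZ
  have k2 := sf5_100_101 hZ
  have k3 := sf5_111_110 hZ
  have k4 := sf5_111_101 hZ
  simp [e, h1, h2, h3, h4] at h
  linear_combination h - k1 - k2 - k3 - k4

/-- **The tangent lemma.** -/
theorem tangent (h2 : (2 : E) ≠ 0) : ∃ (α : E) (p u r : Fin 3 → E), ∀ x,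
    Z x = α • x + act (fun l => !![p l, u l; r l, -p l]) x := by
  obtain ⟨t, ht⟩ : ∃ t : E, 2 * t = 1 := ⟨2⁻¹, mul_inv_cancel₀ h2⟩
  set D := Z (e 0 0 0) 0 0 0 with hD
  set D0 := Z (e 1 0 0) 1 0 0 with hD0
  set D1 := Z (e 0 1 0) 0 1 0 with hD1
  set D2 := Z (e 0 0 1) 0 0 1 with hD2
  refine ⟨D - t * (D - D0) - t * (D - D1) - t * (D - D2),
    ![t * (D - D0), t * (D - D1), t * (D - D2)],
    ![Z (e 1 0 0) 0 0 0, Z (e 0 1 0) 0 0 0, Z (e 0 0 1) 0 0 0],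
    ![Z (e 0 0 0) 1 0 0, Z (e 0 0 0) 0 1 0, Z (e 0 0 0) 0 0 1], fun x => ?_⟩
  have df0 := df0 hZ
  have df1 := df1 hZ
  have df2 := df2 hZ
  have df3 := df3 hZ
  have df4 := df4 hZ
  have df5 := df5 hZ
  have hx : Z x =
      x 0 0 0 • Z (e 0 0 0) +
      x 0 0 1 • Z (e 0 0 1) +
      x 0 1 0 • Z (e 0 1 0) +
      x 0 1 1 • Z (e 0 1 1) +
      x 1 0 0 • Z (e 1 0 0) +
      x 1 0 1 • Z (e 1 0 1) +
      x 1 1 0 • Z (e 1 1 0) +
      x 1 1 1 • Z (e 1 1 1) := by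
    conv_lhs => rw [expand x]
    simp only [map_add, map_smul]
  rw [hx]
  funext i j k
  simp only [Pi.add_apply, Pi.smul_apply, smul_eq_mul, act_apply]
  fin_cases i <;> fin_cases j <;> fin_cases k
  · -- 000
    have a011 : Z (e 0 1 1) 0 0 0 = 0 := ((z011 hZ).1)
    have a101 : Z (e 1 0 1) 0 0 0 = 0 := ((z101 hZ).1)
    have a110 : Z (e 1 1 0) 0 0 0 = 0 := ((z110 hZ).1)
    have a111 : Z (e 1 1 1) 0 0 0 = 0 := ((z111 hZ).1)
    simp [a011, a101, a110, a111]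
    linear_combination 0 * ht
  · -- 001
    have a010 : Z (e 0 1 0) 0 0 1 = 0 := ((z010 hZ).1)
    have a100 : Z (e 1 0 0) 0 0 1 = 0 := ((z100 hZ).1)
    have a110 : Z (e 1 1 0) 0 0 1 = 0 := ((z110 hZ).2.1)
    have a111 : Z (e 1 1 1) 0 0 1 = 0 := ((z111 hZ).2.1)
    have b0 := r101_0 hZ
    have b1 := r011_1 hZ
    simp [a010, a100, a110, a111, b0, b1]
    linear_combination (x 0 0 1 * (D - D2)) * ht
  · -- 010
    have a001 : Z (e 0 0 1) 0 1 0 = 0 := ((z001 hZ).1)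
    have a100 : Z (e 1 0 0) 0 1 0 = 0 := ((z100 hZ).2.1)
    have a101 : Z (e 1 0 1) 0 1 0 = 0 := ((z101 hZ).2.1)
    have a111 : Z (e 1 1 1) 0 1 0 = 0 := ((z111 hZ).2.2.1)
    have b0 := r110_0 hZ
    have b2 := r011_2 hZ
    simp [a001, a100, a101, a111, b0, b2]
    linear_combination (x 0 1 0 * (D - D1)) * ht
  · -- 011
    have a000 : Z (e 0 0 0) 0 1 1 = 0 := ((z000 hZ).1)
    have a100 : Z (e 1 0 0) 0 1 1 = 0 := ((z100 hZ).2.2.1)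
    have a101 : Z (e 1 0 1) 0 1 1 = 0 := ((z101 hZ).2.2.1)
    have a110 : Z (e 1 1 0) 0 1 1 = 0 := ((z110 hZ).2.2.1)
    have b0 := r111_0 hZ
    have b1 := r001_1 hZ
    have b2 := r010_2 hZ
    simp [a000, a100, a101, a110, b0, b1, b2]
    linear_combination x 0 1 1 * df4 + (x 0 1 1 * (D - D1 + (D - D2))) * ht
  · -- 100
    have a001 : Z (e 0 0 1) 1 0 0 = 0 := ((z001 hZ).2.1)
    have a010 : Z (e 0 1 0) 1 0 0 = 0 := ((z010 hZ).2.1)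
    have a011 : Z (e 0 1 1) 1 0 0 = 0 := ((z011 hZ).2.1)
    have a111 : Z (e 1 1 1) 1 0 0 = 0 := ((z111 hZ).2.2.2)
    have b1 := r110_1 hZ
    have b2 := r101_2 hZ
    simp [a001, a010, a011, a111, b1, b2]
    linear_combination (x 1 0 0 * (D - D0)) * ht
  · -- 101
    have a000 : Z (e 0 0 0) 1 0 1 = 0 := ((z000 hZ).2.1)
    have a010 : Z (e 0 1 0) 1 0 1 = 0 := ((z010 hZ).2.2.1)
    have a011 : Z (e 0 1 1) 1 0 1 = 0 := ((z011 hZ).2.2.1)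
    have a110 : Z (e 1 1 0) 1 0 1 = 0 := ((z110 hZ).2.2.2)
    have b0 := r001_0 hZ
    have b1 := r111_1 hZ
    have b2 := r100_2 hZ
    simp [a000, a010, a011, a110, b0, b1, b2]
    linear_combination x 1 0 1 * df2 + (x 1 0 1 * (D - D0 + (D - D2))) * ht
  · -- 110
    have a000 : Z (e 0 0 0) 1 1 0 = 0 := ((z000 hZ).2.2.1)
    have a001 : Z (e 0 0 1) 1 1 0 = 0 := ((z001 hZ).2.2.1)
    have a011 : Z (e 0 1 1) 1 1 0 = 0 := ((z011 hZ).2.2.2)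
    have a101 : Z (e 1 0 1) 1 1 0 = 0 := ((z101 hZ).2.2.2)
    have b0 := r010_0 hZ
    have b1 := r100_1 hZ
    have b2 := r111_2 hZ
    simp [a000, a001, a011, a101, b0, b1, b2]
    linear_combination x 1 1 0 * df0 + (x 1 1 0 * (D - D0 + (D - D1))) * ht
  · -- 111
    have a000 : Z (e 0 0 0) 1 1 1 = 0 := ((z000 hZ).2.2.2)
    have a001 : Z (e 0 0 1) 1 1 1 = 0 := ((z001 hZ).2.2.2)
    have a010 : Z (e 0 1 0) 1 1 1 = 0 := ((z010 hZ).2.2.2)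
    have a100 : Z (e 1 0 0) 1 1 1 = 0 := ((z100 hZ).2.2.2)
    have b0 := r011_0 hZ
    have b1 := r101_1 hZ
    have b2 := r110_2 hZ
    simp [a000, a001, a010, a100, b0, b1, b2]
    linear_combination x 1 1 1 * (df1 + df2 + df4) + (x 1 1 1 * (D - D0 + (D - D1) + (D - D2))) * ht

end Tangent

/-! ### The inverse -/

/-- the coordinate function -/
def co (i j k : Fin 2) : T8 E →ₗ[E] E where
  toFun x := x i j k
  map_add' _ _ := rfl
  map_smul' _ _ := rfl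

/-- the bilinear form `x v y w - x v' y w'` -/
def bq (f g f' g' : T8 E →ₗ[E] E) : T8 E →ₗ[E] T8 E →ₗ[E] E :=
  LinearMap.mk₂ E (fun x y => f x * g y - f' x * g' y)
    (fun x x' y => by simp only [map_add]; ring)
    (fun c x y => by simp only [map_smul, smul_eq_mul]; ring)
    (fun x y y' => by simp only [map_add]; ring)
    (fun c x y => by simp only [map_smul, smul_eq_mul]; ring)

/-- a linear map which preserves the cone: its inverse also preserves it -/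
theorem Seg.of_map {T : T8 E →ₗ[E] T8 E} (hinj : Function.Injective T)
    (hT : ∀ x, Seg x → Seg (T x)) {x : T8 E} (hx : Seg (T x)) : Seg x := by
  have hsurj : Function.Surjective T := LinearMap.injective_iff_surjective.1 hinj
  set e := LinearEquiv.ofBijective T ⟨hinj, hsurj⟩ with he
  set ee := TensorProduct.congr e e with hee
  set W : Submodule E (T8 E ⊗[E] T8 E) := Submodule.span E {z | ∃ y, Seg y ∧ z = y ⊗ₜ[E] y}
    with hW
  have hle : W.map ee.toLinearMap ≤ W := by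
    rw [hW, Submodule.map_span, Submodule.span_le]
    rintro _ ⟨_, ⟨y, hy, rfl⟩, rfl⟩
    exact Submodule.subset_span ⟨T y, hT y hy, rfl⟩
  have heq : W.map ee.toLinearMap = W :=
    Submodule.eq_of_le_of_finrank_eq hle (LinearEquiv.finrank_map_eq ee W)
  have hxW : x ⊗ₜ[E] x ∈ W := by
    have h1 : ee (x ⊗ₜ[E] x) ∈ W := Submodule.subset_span ⟨T x, hx, rfl⟩
    rw [← heq] at h1
    obtain ⟨z, hz, hzx⟩ := h1
    rwa [← ee.injective hzx]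
  have key : ∀ B : T8 E →ₗ[E] T8 E →ₗ[E] E, (∀ y, Seg y → B y y = 0) → B x x = 0 := by
    intro B hB
    have h1 : W ≤ LinearMap.ker (TensorProduct.lift B) := by
      rw [hW, Submodule.span_le]
      rintro _ ⟨y, hy, rfl⟩
      exact hB y hy
    exact h1 hxW
  have key2 : ∀ f g f' g' : T8 E →ₗ[E] E, (∀ y, Seg y → f y * g y = f' y * g' y) →
      f x * g x = f' x * g' x := by
    intro f g f' g' h
    have h1 := key (bq f g f' g') fun y hy => sub_eq_zero.2 (h y hy)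
    exact sub_eq_zero.1 h1
  exact ⟨
    key2 (co 0 0 0) (co 1 1 0) (co 1 0 0) (co 0 1 0) fun y hy => hy.f0,
    key2 (co 0 0 1) (co 1 1 1) (co 1 0 1) (co 0 1 1) fun y hy => hy.f1,
    key2 (co 0 0 0) (co 1 0 1) (co 1 0 0) (co 0 0 1) fun y hy => hy.f2,
    key2 (co 0 1 0) (co 1 1 1) (co 1 1 0) (co 0 1 1) fun y hy => hy.f3,
    key2 (co 0 0 0) (co 0 1 1) (co 0 1 0) (co 0 0 1) fun y hy => hy.f4,
    key2 (co 1 0 0) (co 1 1 1) (co 1 1 0) (co 1 0 1) fun y hy => hy.f5,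
    key2 (co 0 0 0) (co 1 1 1) (co 1 0 0) (co 0 1 1) fun y hy => hy.g0,
    key2 (co 0 0 0) (co 1 1 1) (co 0 1 0) (co 1 0 1) fun y hy => hy.g1,
    key2 (co 0 0 0) (co 1 1 1) (co 0 0 1) (co 1 1 0) fun y hy => hy.g2⟩

/-! ### The main theorem -/

/-- **Linear maps which preserve the cone preserve its Lie algebra.** -/
theorem seg_main (h2 : (2 : E) ≠ 0) (T : T8 E →ₗ[E] T8 E) (hinj : Function.Injective T)
    (hT : ∀ x, Seg x → Seg (T x)) (A : Fin 3 → Matrix (Fin 2) (Fin 2) E) :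
    ∃ (α : E) (p u r : Fin 3 → E), ∀ x,
      T (act A x) = α • T x + act (tl p u r) (T x) := by
  have hsurj : Function.Surjective T := LinearMap.injective_iff_surjective.1 hinj
  set e := LinearEquiv.ofBijective T ⟨hinj, hsurj⟩ with he
  have h1 : ∀ (l : Fin 3) (B : Matrix (Fin 2) (Fin 2) E) (x : T8 E), Seg x →
      Pol x (T (act (Pi.single l B) (e.symm x))) := by
    intro l B x hx
    have h3 : T (e.symm x) = x := e.apply_symm_apply x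
    have h4 : Seg (e.symm x) := by
      refine Seg.of_map hinj hT ?_
      rwa [h3]
    refine pol_of h2 ?_ ?_
    · have h5 := hT _ (h4.add_act l B)
      rwa [map_add, h3] at h5
    · have h5 := hT _ (h4.sub_act l B)
      rwa [map_sub, h3] at h5
  have hA : A = Pi.single 0 (A 0) + Pi.single 1 (A 1) + Pi.single 2 (A 2) := by
    funext l
    fin_cases l <;> simp
  set Z : T8 E →ₗ[E] T8 E := (T ∘ₗ act A) ∘ₗ e.symm.toLinearMap with hZd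
  have hZ : ∀ x, Seg x → Pol x (Z x) := by
    intro x hx
    have g0 := h1 0 (A 0) x hx
    have g1 := h1 1 (A 1) x hx
    have g2 := h1 2 (A 2) x hx
    have h3 : Z x = T (act (Pi.single 0 (A 0)) (e.symm x)) +
        T (act (Pi.single 1 (A 1)) (e.symm x)) + T (act (Pi.single 2 (A 2)) (e.symm x)) := by
      rw [← map_add, ← map_add, ← act_add, ← act_add, ← hA]
      rfl
    rw [h3]
    constructor
    · simp only [Pi.add_apply]
      linear_combination g0.f0 + g1.f0 + g2.f0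
    · simp only [Pi.add_apply]
      linear_combination g0.f1 + g1.f1 + g2.f1
    · simp only [Pi.add_apply]
      linear_combination g0.f2 + g1.f2 + g2.f2
    · simp only [Pi.add_apply]
      linear_combination g0.f3 + g1.f3 + g2.f3
    · simp only [Pi.add_apply]
      linear_combination g0.f4 + g1.f4 + g2.f4
    · simp only [Pi.add_apply]
      linear_combination g0.f5 + g1.f5 + g2.f5
    · simp only [Pi.add_apply]
      linear_combination g0.g0 + g1.g0 + g2.g0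
    · simp only [Pi.add_apply]
      linear_combination g0.g1 + g1.g1 + g2.g1
    · simp only [Pi.add_apply]
      linear_combination g0.g2 + g1.g2 + g2.g2
  obtain ⟨α, p, u, r, h⟩ := tangent hZ h2
  refine ⟨α, p, u, r, fun x => ?_⟩
  have h3 : Z (T x) = T (act A x) := by
    change T (act A (e.symm (T x))) = _
    have h4 : e.symm (T x) = x := e.symm_apply_apply x
    rw [h4]
  rw [← h3, h]
  rfl

end Pool.Agent.GSL
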