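import Pool.Agent.GSQ.XSide

/-!
# GSL: the cone of a pencil of hermitian matrices and the normal cone of a frame

`H` a pencil of hermitian `3 × 3` matrices over `L = K(√d)`, `F` a frame of `H.pen` with the
constants `c`, `κ`, `n`. With `G = D Δ` (`D = (m 0 - m 1) (m 1 - m 2) (m 2 - m 0)`, `Δ` the
determinant of the vectors `B 0 v̄ i`), which is an element `A + B √d` of `L`, the quadratic maps `P` of
the two cones satisfy `P_F = (κ / (n G)) P_H`.

`exists_tr`: an isomorphism `(ξ, u) ↦ (ρ ξ, u)` over `K` of the cone of `H.pen` with the cone of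
`F.pen n`.
-/

set_option autoImplicit false

noncomputable section

namespace Pool.Agent.GSL

open Matrix Pool.Agent.GSH Pool.Agent.GSX Pool.Agent.GSX.Herm Pool.Agent.GSQ Pool.Agent.GSQ.XS

variable {K : Type} [Field K]

/-! ### Polynomials in `√d` -/

theorem exists_mod (P : Polynomial K) (d : K) : ∃ a b : K, ∀ (E : Type) [Field E] [Algebra K E]
    (δ : E), δ ^ 2 = algebraMap K E d →
      Polynomial.aeval δ P = algebraMap K E a + algebraMap K E b * δ := by
  set q : Polynomial K := Polynomial.X ^ 2 - Polynomial.C d with hq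
  have hqm : q.Monic := Polynomial.monic_X_pow_sub_C d two_ne_zero
  have hdeg : (P %ₘ q).degree ≤ 1 := by
    have h1 := Polynomial.degree_modByMonic_lt P hqm
    rw [hq, Polynomial.degree_X_pow_sub_C (by norm_num)] at h1
    exact Order.le_of_lt_succ h1
  refine ⟨(P %ₘ q).coeff 0, (P %ₘ q).coeff 1, fun E _ _ δ hδ => ?_⟩
  conv_lhs => rw [← Polynomial.modByMonic_add_div P q]
  rw [map_add, map_mul]
  have h3 : Polynomial.aeval δ q = 0 := by
    rw [hq, map_sub, map_pow, Polynomial.aeval_X, Polynomial.aeval_C, hδ, sub_self]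
  rw [h3, zero_mul, add_zero]
  conv_lhs => rw [Polynomial.eq_X_add_C_of_degree_le_one hdeg]
  rw [map_add, map_mul, Polynomial.aeval_X, Polynomial.aeval_C, Polynomial.aeval_C]
  ring

section Coef

variable [CharZero K] {M : Type} [Field M] [Algebra K M] {H : Herm K}

/-- the number `D` -/
def vd {E : Type} [Field E] [Algebra K E] (F : Eig H.pen M) (s : Fin 3 → (M →ₐ[K] E)) : E :=
  (s 0 F.m - s 1 F.m) * (s 1 F.m - s 2 F.m) * (s 2 F.m - s 0 F.m)

/-- the number `Δ` -/
def dl {E : Type} [Field E] [Algebra K E] (F : Eig H.pen M) (s : Fin 3 → (M →ₐ[K] E)) (δ : E) :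
    E := (Matrix.of fun k => ln H 0 δ (F.vi s k)).det

/-- `D Δ` belongs to `L` -/
theorem exists_G (hd : H.d ≠ 0) (hM : Module.finrank K M = 3) (F : Eig H.pen M) :
    ∃ a b : K, ∀ (E : Type) [Field E] [Algebra K E] [IsAlgClosed E] (s : Fin 3 → (M →ₐ[K] E)),
      Function.Injective s → ∀ δ : E, δ ^ 2 = algebraMap K E H.d →
        vd F s * dl F s δ = algebraMap K E a + algebraMap K E b * δ := by
  set w : Fin 3 → Fin 6 → K := fun a => F.vec (F.m ^ (a : ℕ)) 0 with hw
  obtain ⟨a, b, h⟩ := exists_mod (Matrix.of fun (a l : Fin 3) =>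
    Polynomial.C (H.E 0 l ⬝ᵥ w a) + Polynomial.X * Polynomial.C (H.F 0 l ⬝ᵥ w a)).det H.d
  refine ⟨a, b, fun E _ _ _ s hs δ hδ => ?_⟩
  rw [← h E δ hδ]
  have h1 : vd F s = (Matrix.of fun (a k : Fin 3) => s k F.m ^ (a : ℕ)).det := by
    rw [Matrix.det_fin_three]
    simp [vd]
    ring
  rw [h1, dl, ← Matrix.det_mul, AlgHom.map_det]
  congr 1
  ext a l
  rw [Matrix.mul_apply]
  have h2 : (vK (w a) : Fin 6 → E) = ∑ i, s i F.m ^ (a : ℕ) • F.vi s i := by
    rw [hw, vec_eq (isHer_herm H) hd hM F hs]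
    simp only [map_pow, map_zero, zero_smul, add_zero]
  have h3 : ln H 0 δ (vK (w a)) l = Polynomial.aeval δ
      (Polynomial.C (H.E 0 l ⬝ᵥ w a) + Polynomial.X * Polynomial.C (H.F 0 l ⬝ᵥ w a)) := by
    simp only [ln, lv, vK, dotProduct, map_add, map_mul, map_sum, Polynomial.aeval_C,
      Polynomial.aeval_X]
  change _ = Polynomial.aeval δ
    (Polynomial.C (H.E 0 l ⬝ᵥ w a) + Polynomial.X * Polynomial.C (H.F 0 l ⬝ᵥ w a))
  rw [← h3, h2]
  simp only [Fin.sum_univ_three, ln_add, ln_smul, Pi.add_apply, Pi.smul_apply, smul_eq_mul,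
    Matrix.of_apply]

end Coef

section Alg

variable [CharZero K] {M : Type} [Field M] [Algebra K M] {H : Herm K} {E : Type} [Field E]
  [Algebra K E]

/-- the quadratic map of a pencil -/
def qp (P : Pen K) (u : Fin 6 → E) : Fin 6 → E := fun l => bl (P.P l) u u

theorem cx_qp {δ : E} (hδ : δ ^ 2 = algebraMap K E H.d) (u : Fin 6 → E) (k : Fin 3) :
    cx δ (qp H.pen u) k =
      ln H 0 δ u (k + 1) * ln H 1 δ u (k + 2) - ln H 0 δ u (k + 2) * ln H 1 δ u (k + 1) := by
  rw [← cross_eq H hδ]
  fin_cases k <;> rfl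

/-- the coordinates of the quadratic map of a pencil of hermitian matrices -/
theorem zi_qp (hd : H.d ≠ 0) (hM : Module.finrank K M = 3) (F : Eig H.pen M)
    {s : Fin 3 → (M →ₐ[K] E)} (hs : Function.Injective s) {δ : E}
    (hδ : δ ^ 2 = algebraMap K E H.d) (u : Fin 6 → E) (i : Fin 3) :
    F.zi s (-δ) u (i + 1) * F.zi s (-δ) u (i + 2) * (s (i + 2) F.m - s (i + 1) F.m) * dl F s δ =
      F.zi s δ (qp H.pen u) i * F.ci s i := by
  rw [dl, ← cross_id (fun k => ln H 0 δ (F.vi s k)) (fun a => F.zi s (-δ) u a)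
    (fun a => s a F.m) i]
  have h0 : ∀ k, ln H 0 δ u k = ∑ a, F.zi s (-δ) u a * ln H 0 δ (F.vi s a) k := by
    intro k
    rw [ln_eq hd hM F hs hδ, Finset.sum_apply]
    rfl
  have h1 : ∀ k, ln H 1 δ u k =
      ∑ a, F.zi s (-δ) u a * (s a F.m * ln H 0 δ (F.vi s a) k) := by
    intro k
    rw [ln_eq hd hM F hs hδ, Finset.sum_apply]
    refine Finset.sum_congr rfl fun a _ => ?_
    rw [ln_eig hd]
    rfl
  have h2 : cx δ (qp H.pen u) ⬝ᵥ ln H 0 δ (F.vi s i) = F.zi s δ (qp H.pen u) i * F.ci s i := by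
    rw [cx_eq hd hM F hs hδ, sum_dotProduct, Finset.sum_eq_single i]
    · rw [smul_dotProduct, smul_eq_mul, orth hd F hs hδ, if_pos rfl]
    · intro a _ ha
      rw [smul_dotProduct, orth hd F hs hδ, if_neg ha, smul_zero]
    · intro hi
      exact absurd (Finset.mem_univ i) hi
  rw [← h2, dotProduct]
  refine Finset.sum_congr rfl fun k _ => ?_
  rw [← h0, ← h0, ← h1, ← h1, cx_qp hδ]

/-- the coordinates of the quadratic map of a frame -/
theorem zi_qpF [IsAlgClosed E] {H : Pen K} {c : M} (hH : IsHer H) (hd : H.d ≠ 0)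
    (hM : Module.finrank K M = 3) (F : Fr H M c) (n : K) {s : Fin 3 → (M →ₐ[K] E)}
    (hs : Function.Injective s) {δ : E} (hδ : δ ^ 2 = algebraMap K E H.d) (u : Fin 6 → E)
    (i : Fin 3) : F.zi s δ (qp (F.pen n) u) i =
      s i c / algebraMap K E n * (F.zi s (-δ) u (i + 1) * F.zi s (-δ) u (i + 2)) := by
  have h1 : qp (F.pen n) u =
      ∑ i, ((s i c / algebraMap K E n * (F.ai s u (i + 1) * F.ai s u (i + 2) +
        algebraMap K E H.d * (F.bi s u (i + 1) * F.bi s u (i + 2)))) • F.vi s i +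
        (-(s i c / algebraMap K E n) * (F.ai s u (i + 1) * F.bi s u (i + 2) +
        F.bi s u (i + 1) * F.ai s u (i + 2))) • (mK H.S *ᵥ F.vi s i)) := by
    funext l
    exact bl_P F n hH hd hM hs u l
  rw [h1]
  unfold Eig.zi
  rw [ai_comb hH hd hM F.toEig hs, bi_comb hH hd hM F.toEig hs, ← hδ]
  ring

omit [CharZero K] in
theorem zi_sm {H : Pen K} (hH : IsHer H) (hd : H.d ≠ 0) (F : Eig H M) (s : Fin 3 → (M →ₐ[K] E))
    {δ : E} (hδ : δ ^ 2 = algebraMap K E H.d) (α β : E) (u : Fin 6 → E) (i : Fin 3) :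
    F.zi s δ (sm H.S α β u) i = (α + β * δ) * F.zi s δ u i := by
  unfold Eig.zi sm
  rw [ai_add, bi_add, ai_smul, ai_smul, bi_smul, bi_smul, ai_S F hd, bi_S F hH hd, ← hδ]
  ring

/-- a vector is determined by its coordinates -/
theorem ext_zi {H : Pen K} (hH : IsHer H) (hd : H.d ≠ 0) (hM : Module.finrank K M = 3)
    (F : Eig H M) {s : Fin 3 → (M →ₐ[K] E)} (hs : Function.Injective s) {δ : E}
    (hδ : δ ^ 2 = algebraMap K E H.d) {u v : Fin 6 → E} (h1 : ∀ i, F.zi s δ u i = F.zi s δ v i)
    (h2 : ∀ i, F.zi s (-δ) u i = F.zi s (-δ) v i) : u = v := by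
  have hE : CharZero E := charZero_of_injective_algebraMap (algebraMap K E).injective
  have hδ0 : δ ≠ 0 := by
    rintro rfl
    apply hd
    rw [zero_pow two_ne_zero] at hδ
    exact (map_eq_zero _).1 hδ.symm
  have ha : ∀ i, F.ai s u i = F.ai s v i := by
    intro i
    have h4 := h1 i
    have h5 := h2 i
    unfold Eig.zi at h4 h5
    apply mul_left_cancel₀ (two_ne_zero : (2 : E) ≠ 0)
    linear_combination h4 + h5
  have hb : ∀ i, F.bi s u i = F.bi s v i := by
    intro i
    have h4 := h1 i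
    have h5 := h2 i
    unfold Eig.zi at h4 h5
    apply mul_left_cancel₀ (mul_ne_zero (two_ne_zero : (2 : E) ≠ 0) hδ0)
    linear_combination h4 - h5
  rw [coord hH hd hM F hs u, coord hH hd hM F hs v]
  simp only [ha, hb]

end Alg

section Main

variable [CharZero K] {M : Type} [Field M] [Algebra K M] {H : Herm K}

/-- the quadratic maps of the two cones are proportional -/
theorem exists_prop (hd : H.d ≠ 0) (hM : Module.finrank K M = 3) {c : M} (F : Fr H.pen M c)
    (hc : c ≠ 0) {n : K} (hn : n ≠ 0) : ∃ α β : K, α ^ 2 - H.d * β ^ 2 ≠ 0 ∧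
      ∀ (E : Type) [Field E] [Algebra K E] (u : Fin 6 → E),
        qp (F.pen n) u = sm H.S (algebraMap K E α) (algebraMap K E β) (qp H.pen u) := by
  obtain ⟨a, b, hG⟩ := exists_G hd hM F.toEig
  have hfin := fin_of_three hM
  have hκ : F.κ ≠ 0 := by
    intro h0
    have h1 := F.hκ
    rw [h0, map_zero] at h1
    exact mul_ne_zero hc (mul_ne_zero (pd_ne hM F.toEig) F.ne) h1.symm
  -- the numbers `G`
  have hGne : ∀ (E : Type) [Field E] [Algebra K E] [IsAlgClosed E] (s : Fin 3 → (M →ₐ[K] E)),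
      Function.Injective s → ∀ δ : E, δ ^ 2 = algebraMap K E H.d →
        algebraMap K E a + algebraMap K E b * δ ≠ 0 := by
    intro E _ _ _ s hs δ hδ
    rw [← hG E s hs δ hδ]
    have hinj := s_inj F.toEig hs
    refine mul_ne_zero (mul_ne_zero (mul_ne_zero ?_ ?_) ?_) (det_ne' hd F.toEig hs hδ)
    · exact sub_ne_zero.2 fun h => absurd (hinj h) (by decide)
    · exact sub_ne_zero.2 fun h => absurd (hinj h) (by decide)
    · exact sub_ne_zero.2 fun h => absurd (hinj h) (by decide)
  have hN : a ^ 2 - H.d * b ^ 2 ≠ 0 := by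
    intro h0
    obtain ⟨s, hs⟩ := exists_s (M := M) (Ω := AlgebraicClosure K) hM
    obtain ⟨δ, hδ⟩ := IsAlgClosed.exists_pow_nat_eq (algebraMap K (AlgebraicClosure K) H.d)
      (n := 2) (by norm_num)
    have h1 := hGne (AlgebraicClosure K) s hs δ hδ
    have h2 := hGne (AlgebraicClosure K) s hs (-δ) (by rw [← hδ]; ring)
    apply mul_ne_zero h1 h2
    have h3 := congrArg (algebraMap K (AlgebraicClosure K)) h0
    rw [map_sub, map_mul, map_pow, map_pow, map_zero, ← hδ] at h3
    linear_combination h3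
  set N := a ^ 2 - H.d * b ^ 2 with hNd
  refine ⟨F.κ * a / (n * N), -(F.κ * b) / (n * N), ?_, ?_⟩
  · have h1 : (F.κ * a / (n * N)) ^ 2 - H.d * (-(F.κ * b) / (n * N)) ^ 2 =
        F.κ ^ 2 / (n ^ 2 * N) := by
      field_simp
      rw [hNd]
    rw [h1]
    exact div_ne_zero (pow_ne_zero 2 hκ) (mul_ne_zero (pow_ne_zero 2 hn) hN)
  -- over an algebraically closed field
  have key : ∀ (E : Type) [Field E] [Algebra K E] [IsAlgClosed E] (u : Fin 6 → E),
      qp (F.pen n) u = sm H.S (algebraMap K E (F.κ * a / (n * N)))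
        (algebraMap K E (-(F.κ * b) / (n * N))) (qp H.pen u) := by
    intro E _ _ _ u
    obtain ⟨s, hs⟩ := exists_s (M := M) (Ω := E) hM
    obtain ⟨δ, hδ⟩ := IsAlgClosed.exists_pow_nat_eq (algebraMap K E H.d) (n := 2) (by norm_num)
    have hn' : algebraMap K E n ≠ 0 := (map_ne_zero _).2 hn
    have hN' : algebraMap K E N ≠ 0 := (map_ne_zero _).2 hN
    have main : ∀ ε : E, ε ^ 2 = algebraMap K E H.d → ∀ i,
        F.zi s ε (qp (F.pen n) u) i = F.zi s ε (sm H.S (algebraMap K E (F.κ * a / (n * N)))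
          (algebraMap K E (-(F.κ * b) / (n * N))) (qp H.pen u)) i := by
      intro ε hε i
      have hS : F.zi s ε (sm H.S (algebraMap K E (F.κ * a / (n * N)))
          (algebraMap K E (-(F.κ * b) / (n * N))) (qp H.pen u)) i =
          (algebraMap K E (F.κ * a / (n * N)) + algebraMap K E (-(F.κ * b) / (n * N)) * ε) *
            F.zi s ε (qp H.pen u) i :=
        zi_sm (isHer_herm H) hd F.toEig s hε _ _ _ i
      rw [hS, zi_qpF (isHer_herm H) hd hM F n hs hε]
      have e1 := zi_qp hd hM F.toEig hs hε u i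
      have e2 := hG E s hs ε hε
      have e3 : s i c * (s i F.pd * F.ci s i) = algebraMap K E F.κ := by
        have h1 := congrArg (s i) F.hκ
        rw [AlgHom.commutes, map_mul, map_mul] at h1
        exact h1.symm
      have e4 : (s (i + 2) F.m - s (i + 1) F.m) * s i F.pd = vd F.toEig s := by
        rw [s_pd hM F.toEig hs, vd]
        have f1 : (0 : Fin 3) + 1 = 1 := rfl
        have f2 : (0 : Fin 3) + 2 = 2 := rfl
        have f3 : (1 : Fin 3) + 1 = 2 := rfl
        have f4 : (1 : Fin 3) + 2 = 0 := rfl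
        have f5 : (2 : Fin 3) + 1 = 0 := rfl
        have f6 : (2 : Fin 3) + 2 = 1 := rfl
        fin_cases i
        · simp only [Fin.zero_eta, f1, f2]
          ring
        · simp only [Fin.mk_one, f3, f4]
          ring
        · simp only [Fin.reduceFinMk, f5, f6]
          ring
      have e5 : F.ci s i ≠ 0 := ci_ne F.toEig s i
      have e6 : s i F.pd ≠ 0 := (map_ne_zero _).2 (pd_ne hM F.toEig)
      have e7 : algebraMap K E (F.κ * a / (n * N)) + algebraMap K E (-(F.κ * b) / (n * N)) * ε =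
          algebraMap K E F.κ * (algebraMap K E a - algebraMap K E b * ε) /
            (algebraMap K E n * algebraMap K E N) := by
        rw [map_div₀, map_div₀, map_neg, map_mul, map_mul, map_mul]
        ring
      have e8 : algebraMap K E N = (algebraMap K E a + algebraMap K E b * ε) *
          (algebraMap K E a - algebraMap K E b * ε) := by
        rw [hNd, map_sub, map_mul, map_pow, map_pow, ← hε]
        ring
      have e9 : algebraMap K E a - algebraMap K E b * ε ≠ 0 := by
        intro h0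
        rw [h0, mul_zero] at e8
        exact hN' e8
      have e10 : algebraMap K E a + algebraMap K E b * ε ≠ 0 := by
        intro h0
        rw [h0, zero_mul] at e8
        exact hN' e8
      rw [e7, e8]
      have e11 : algebraMap K E F.κ * (algebraMap K E a - algebraMap K E b * ε) /
          (algebraMap K E n * ((algebraMap K E a + algebraMap K E b * ε) *
            (algebraMap K E a - algebraMap K E b * ε))) =
          algebraMap K E F.κ / (algebraMap K E n * (algebraMap K E a + algebraMap K E b * ε)) := by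
        field_simp
      rw [e11, div_mul_eq_mul_div, div_mul_eq_mul_div, div_eq_div_iff hn' (mul_ne_zero hn' e10)]
      apply mul_left_cancel₀ (mul_ne_zero e5 e6)
      rw [← e2, ← e3]
      linear_combination (s i c * s i F.pd * algebraMap K E n * (s i F.pd * F.ci s i)) * e1 -
        (s i c * s i F.pd * algebraMap K E n * F.ci s i * F.zi s (-ε) u (i + 1) *
          F.zi s (-ε) u (i + 2) * dl F.toEig s ε) * e4
    refine ext_zi (isHer_herm H) hd hM F.toEig hs hδ (main δ hδ) (main (-δ) ?_)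
    rw [← hδ]
    ring
  intro E _ _ u
  have h1 := key (AlgebraicClosure E) fun i => algebraMap E (AlgebraicClosure E) (u i)
  funext l
  apply (algebraMap E (AlgebraicClosure E)).injective
  have h2 := congrFun h1 l
  have h3 : ∀ P : Pen K, ∀ l, algebraMap E (AlgebraicClosure E) (qp P u l) =
      qp P (fun i => algebraMap E (AlgebraicClosure E) (u i)) l := fun P l => bl_map _ _ _
  rw [h3, h2]
  simp only [sm, Pi.add_apply, Pi.smul_apply, smul_eq_mul, map_add, map_mul, mK_map,
    ← IsScalarTower.algebraMap_apply, h3]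

/-- the isomorphism `(ξ, u) ↦ (ρ ξ, u)` -/
def trm (d α β : K) : Matrix I8 I8 K :=
  Matrix.fromBlocks !![α, -(d * β); -β, α] 0 0 1

omit [CharZero K] in
theorem trm_det (d α β : K) : (trm d α β).det = α ^ 2 - d * β ^ 2 := by
  rw [trm, Matrix.det_fromBlocks_zero₂₁, Matrix.det_one, mul_one, Matrix.det_fin_two]
  simp
  ring

section

variable {E : Type} [Field E] [Algebra K E]

omit [CharZero K] in
theorem mK_trm (d α β : K) (w : I8 → E) : mK (trm d α β) *ᵥ w =
    Sum.elim ![algebraMap K E α * pL w 0 - algebraMap K E d * algebraMap K E β * pL w 1,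
      algebraMap K E α * pL w 1 - algebraMap K E β * pL w 0] (pU w) := by
  funext i
  rcases i with i | i
  · fin_cases i
    · simp [trm, mK, mulVec, dotProduct, Fintype.sum_sum_type, pL, Fin.sum_univ_two]
      ring
    · simp [trm, mK, mulVec, dotProduct, Fintype.sum_sum_type, pL, Fin.sum_univ_two]
      ring
  · simp [trm, mK, mulVec, dotProduct, Fintype.sum_sum_type, pU, Matrix.one_apply]

omit [CharZero K] in
theorem pU_trm (d α β : K) (w : I8 → E) : pU (mK (trm d α β) *ᵥ w) = pU w := by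
  rw [mK_trm]
  rfl

end

/-- **The cone of a pencil of hermitian matrices is the cone of a frame.** -/
theorem exists_tr (H : Herm K) (hd : H.d ≠ 0) (hM : Module.finrank K M = 3) {c : M}
    (F : Fr H.pen M c) (hc : c ≠ 0) {n : K} (hn : n ≠ 0) : ∃ R : Matrix I8 I8 K, IsUnit R.det ∧
      ∀ (E : Type) [Field E] [Algebra K E] (w : I8 → E), pU (mK R *ᵥ w) = pU w ∧
        (mK R *ᵥ w ∈ (F.pen n).W E ↔ w ∈ H.pen.W E) := by
  obtain ⟨α, β, hN, h⟩ := exists_prop hd hM F hc hn
  refine ⟨trm H.d α β, ?_, fun E _ _ w => ⟨pU_trm _ _ _ _, ?_⟩⟩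
  · rw [trm_det, isUnit_iff_ne_zero]
    exact hN
  have hQ : ∀ j, bl ((F.pen n).Q j) (pU w) (pU w) = bl (H.pen.Q j) (pU w) (pU w) :=
    fun j => Fr.pen_Q F n j _
  have hS : H.S * H.S = H.d • 1 := H.isPen.sq
  have hN' : algebraMap K E (α ^ 2 - H.d * β ^ 2) ≠ 0 := (map_ne_zero _).2 hN
  have hsm : sm H.S (algebraMap K E α) (algebraMap K E β) (sm H.S (pL w 0) (-pL w 1) (pU w)) =
      sm H.S (pL (mK (trm H.d α β) *ᵥ w) 0) (-pL (mK (trm H.d α β) *ᵥ w) 1) (pU w) := by
    rw [sm_sm hS, mK_trm]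
    congr 1
    · change _ = algebraMap K E α * pL w 0 - algebraMap K E H.d * algebraMap K E β * pL w 1
      ring
    · change _ = -(algebraMap K E α * pL w 1 - algebraMap K E β * pL w 0)
      ring
  have hinj : ∀ x y : Fin 6 → E, sm H.S (algebraMap K E α) (algebraMap K E β) x =
      sm H.S (algebraMap K E α) (algebraMap K E β) y → x = y := by
    intro x y hxy
    have h1 := congrArg (sm H.S (algebraMap K E α) (-algebraMap K E β)) hxy
    rw [sm_sm hS, sm_sm hS] at h1
    have h2 : algebraMap K E α * algebraMap K E β + -algebraMap K E β * algebraMap K E α = 0 := by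
      ring
    have h3 : algebraMap K E α * algebraMap K E α +
        algebraMap K E H.d * (-algebraMap K E β * algebraMap K E β) =
        algebraMap K E (α ^ 2 - H.d * β ^ 2) := by
      rw [map_sub, map_mul, map_pow, map_pow]
      ring
    rw [h2, h3] at h1
    unfold sm at h1
    rw [zero_smul, zero_smul, add_zero, add_zero] at h1
    exact smul_right_injective _ hN' h1
  constructor
  · rintro ⟨h1, h2⟩
    rw [pU_trm] at h1 h2
    refine ⟨fun j => by rw [← hQ]; exact h1 j, fun l => ?_⟩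
    have h3 : qp (F.pen n) (pU w) = sm H.S (pL (mK (trm H.d α β) *ᵥ w) 0)
        (-pL (mK (trm H.d α β) *ᵥ w) 1) (pU w) := funext h2
    rw [h, ← hsm] at h3
    exact congrFun (hinj _ _ h3) l
  · rintro ⟨h1, h2⟩
    refine ⟨fun j => ?_, fun l => ?_⟩
    · rw [pU_trm, hQ]
      exact h1 j
    · rw [pU_trm]
      have h3 : qp H.pen (pU w) = sm H.S (pL w 0) (-pL w 1) (pU w) := funext h2
      have h4 := h E (pU w)
      rw [h3, hsm] at h4
      exact congrFun h4 l

end Main

end Pool.Agent.GSL
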