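import Pool.Agent.GSL.RhoB

/-!
# GSL: the cone of a frame is the cone of the tensors of rank one
-/

set_option autoImplicit false

noncomputable section

namespace Pool.Agent.GSL

open Matrix Pool.Agent.GSH Pool.Agent.GSQ Pool.Agent.GSQ.JM

variable {K : Type} [Field K] [CharZero K] {M : Type} [Field M] [Algebra K M] {H : Pen K} {c : M}
  {Ω : Type} [Field Ω] [Algebra K Ω] [IsAlgClosed Ω] {s : Fin 3 → (M →ₐ[K] Ω)}

theorem two_ne' (K Ω : Type) [Field K] [CharZero K] [Field Ω] [Algebra K Ω] : (2 : Ω) ≠ 0 := by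
  have h4 := (map_ne_zero (algebraMap K Ω)).2 (two_ne_zero (α := K))
  rwa [map_ofNat] at h4

omit [IsAlgClosed Ω] in
theorem delta_ne (hd : H.d ≠ 0) {δ : Ω} (hδ : δ ^ 2 = algebraMap K Ω H.d) : δ ≠ 0 := by
  rintro rfl
  apply hd
  rw [zero_pow two_ne_zero] at hδ
  exact (map_eq_zero _).1 hδ.symm

omit [IsAlgClosed Ω] in
/-- a vector with zero coordinates is zero -/
theorem u_zero (hH : IsHer H) (hd : H.d ≠ 0) (hM : Module.finrank K M = 3) (F : Fr H M c)
    (hs : Function.Injective s) {δ : Ω} (hδ : δ ^ 2 = algebraMap K Ω H.d) {u : Fin 6 → Ω}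
    (h1 : ∀ i, F.zi s δ u i = 0) (h2 : ∀ i, F.zi s (-δ) u i = 0) : u = 0 := by
  have hz2 := two_ne' K Ω
  have hδ0 := delta_ne hd hδ
  have h3 : ∀ i, F.ai s u i = 0 ∧ F.bi s u i = 0 := by
    intro i
    have h4 := h1 i
    have h5 := h2 i
    unfold Eig.zi at h4 h5
    constructor
    · apply mul_left_cancel₀ hz2
      linear_combination h4 + h5
    · apply mul_left_cancel₀ (mul_ne_zero hz2 hδ0)
      linear_combination h4 - h5
  rw [coord hH hd hM F.toEig hs u]
  refine Finset.sum_eq_zero fun i _ => ?_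
  rw [(h3 i).1, (h3 i).2, zero_smul, zero_smul, add_zero]

/-- the coordinates are injective -/
theorem psi_inj (hH : IsHer H) (hd : H.d ≠ 0) (hM : Module.finrank K M = 3) (F : Fr H M c)
    (hc : c ≠ 0) {n : K} (hn : n ≠ 0) (hs : Function.Injective s) {δ : Ω}
    (hδ : δ ^ 2 = algebraMap K Ω H.d) : Function.Injective (psiL F n s δ) := by
  rw [injective_iff_map_eq_zero]
  intro w hw
  have hz2 := two_ne' K Ω
  have hδ0 := delta_ne hd hδ
  have hn0 : algebraMap K Ω n ≠ 0 := (map_ne_zero _).2 hn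
  have hnc : ∀ i, algebraMap K Ω n / s i c ≠ 0 := fun i =>
    div_ne_zero hn0 ((map_ne_zero _).2 hc)
  have h : ∀ i j k, psi F n s δ w i j k = 0 := fun i j k => congrFun (congrFun (congrFun hw i) j) k
  have h000 := h 0 0 0
  have h001 := h 0 0 1
  have h010 := h 0 1 0
  have h011 := h 0 1 1
  have h100 := h 1 0 0
  have h101 := h 1 0 1
  have h110 := h 1 1 0
  have h111 := h 1 1 1
  rw [psi_000] at h000
  rw [psi_001] at h001
  rw [psi_010] at h010
  rw [psi_011] at h011
  rw [psi_100] at h100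
  rw [psi_101] at h101
  rw [psi_110] at h110
  rw [psi_111] at h111
  have hU : pU w = 0 := by
    refine u_zero hH hd hM F hs hδ (fun i => ?_) fun i => ?_
    · fin_cases i
      · exact h100
      · exact h010
      · exact h001
    · fin_cases i
      · exact (mul_eq_zero.1 h011).resolve_left (hnc 0)
      · exact (mul_eq_zero.1 h101).resolve_left (hnc 1)
      · exact (mul_eq_zero.1 h110).resolve_left (hnc 2)
  have h5 := (mul_eq_zero.1 h111).resolve_left hn0
  unfold xv at h000 h5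
  funext i
  rcases i with i | i
  · fin_cases i
    · apply mul_left_cancel₀ hz2
      change 2 * w (Sum.inl 0) = 2 * 0
      linear_combination h000 + h5
    · apply mul_left_cancel₀ (mul_ne_zero hz2 hδ0)
      change 2 * δ * w (Sum.inl 1) = 2 * δ * 0
      linear_combination h000 - h5
  · exact congrFun hU i

theorem psi_bij (hH : IsHer H) (hd : H.d ≠ 0) (hM : Module.finrank K M = 3) (F : Fr H M c)
    (hc : c ≠ 0) {n : K} (hn : n ≠ 0) (hs : Function.Injective s) {δ : Ω}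
    (hδ : δ ^ 2 = algebraMap K Ω H.d) : Function.Bijective (psiL F n s δ) := by
  have h1 := psi_inj hH hd hM F hc hn hs hδ
  refine ⟨h1, (LinearMap.injective_iff_surjective_of_finrank_eq_finrank ?_).1 h1⟩
  simp [T8, Module.finrank_pi_fintype]

section

variable (hH : IsHer H) (hd : H.d ≠ 0) (hM : Module.finrank K M = 3) (F : Fr H M c)
    (hc : c ≠ 0) {n : K} (hn : n ≠ 0) (hN : Algebra.norm K c = n ^ 2)
    (hs : Function.Injective s) {δ : Ω} (hδ : δ ^ 2 = algebraMap K Ω H.d)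

include hH hd hM hc hn hN hs hδ

/-- the equations of the cone -/
theorem W_iff (w : I8 → Ω) : w ∈ (F.pen n).W Ω ↔
    (∃ r, ∀ i, F.zi s δ (pU w) i * F.zi s (-δ) (pU w) i = r * s i c) ∧
    (∀ i, xv w δ * F.zi s (-δ) (pU w) i = s i c / algebraMap K Ω n *
      (F.zi s δ (pU w) (i + 1) * F.zi s δ (pU w) (i + 2))) ∧
    ∀ i, xv w (-δ) * F.zi s δ (pU w) i = s i c / algebraMap K Ω n *
      (F.zi s (-δ) (pU w) (i + 1) * F.zi s (-δ) (pU w) (i + 2)) := by
  have hsc : ∀ i, s i c ≠ 0 := fun i => (map_ne_zero _).2 hc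
  have hκ : ∀ i, s i c * s i F.e = algebraMap K Ω F.κ := by
    intro i
    have h1 := congrArg (s i) F.hκ
    rw [AlgHom.commutes, map_mul] at h1
    exact h1.symm
  have he : F.e ≠ 0 := mul_ne_zero (pd_ne hM F.toEig) F.ne
  have hκ0 : algebraMap K Ω F.κ ≠ 0 := by
    rw [← hκ 0]
    exact mul_ne_zero (hsc 0) ((map_ne_zero _).2 he)
  have hse : ∀ i, s i F.e = algebraMap K Ω F.κ / s i c := by
    intro i
    rw [eq_div_iff (hsc i), mul_comm, hκ]
  have hzz : ∀ i, F.zi s δ (pU w) i * F.zi s (-δ) (pU w) i =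
      F.ai s (pU w) i ^ 2 - algebraMap K Ω H.d * F.bi s (pU w) i ^ 2 := by
    intro i
    unfold Eig.zi
    rw [← hδ]
    ring
  rw [Fr.mem_W hH hd hM F hn hs, iso_iff hH hd hM F.toEig hs]
  simp only [Algebra.algebraMap_self, RingHom.id_apply]
  refine and_congr ?_ ?_
  · constructor
    · rintro ⟨r, hr⟩
      refine ⟨r / algebraMap K Ω F.κ, fun i => ?_⟩
      have h1 := hr i
      rw [← hzz, hse] at h1
      have h2 := hsc i
      rw [← h1]
      field_simp
    · rintro ⟨r, hr⟩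
      refine ⟨r * algebraMap K Ω F.κ, fun i => ?_⟩
      have h2 := hsc i
      rw [← hzz, hr, hse]
      field_simp
  · constructor
    · intro h
      refine ⟨h δ hδ, fun i => ?_⟩
      have h1 := h (-δ) (by rw [neg_sq, hδ]) i
      rw [neg_neg] at h1
      exact h1
    · rintro ⟨h1, h2⟩ ε hε i
      have h3 : (ε - δ) * (ε + δ) = 0 := by linear_combination hε - hδ
      rcases mul_eq_zero.1 h3 with h4 | h4
      · rw [sub_eq_zero.1 h4]
        exact h1 i
      · rw [eq_neg_of_add_eq_zero_left h4, neg_neg]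
        exact h2 i

theorem seg_of_W {w : I8 → Ω} (hw : w ∈ (F.pen n).W Ω) (hU : pU w ≠ 0) :
    Seg (psi F n s δ w) := by
  obtain ⟨⟨r, hr⟩, hp, hm⟩ := (W_iff hH hd hM F hc hn hN hs hδ w).1 hw
  have hsc : ∀ i, s i c ≠ 0 := fun i => (map_ne_zero _).2 hc
  have hn0 : algebraMap K Ω n ≠ 0 := (map_ne_zero _).2 hn
  have hNc : s 0 c * s 1 c * s 2 c = algebraMap K Ω n ^ 2 := by
    rw [← map_pow, ← hN, nm_eq hM hs, Fin.prod_univ_three]
  obtain ⟨X, hX⟩ : ∃ X, X = xv w δ := ⟨_, rfl⟩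
  obtain ⟨Y, hY⟩ : ∃ Y, Y = xv w (-δ) := ⟨_, rfl⟩
  obtain ⟨z, hz⟩ : ∃ z, z = F.zi s δ (pU w) := ⟨_, rfl⟩
  obtain ⟨y, hy⟩ : ∃ y, y = F.zi s (-δ) (pU w) := ⟨_, rfl⟩
  obtain ⟨N, hNd⟩ : ∃ N, N = algebraMap K Ω n := ⟨_, rfl⟩
  obtain ⟨C, hC⟩ : ∃ C : Fin 3 → Ω, C = fun i => s i c := ⟨_, rfl⟩
  have hCi : ∀ i, s i c = C i := fun i => by rw [hC]
  simp only [← hX, ← hY, ← hz, ← hy, ← hNd, hCi] at hr hp hm hsc hn0 hNc
  have p0 : X * y 0 = C 0 / N * (z 1 * z 2) := hp 0
  have p1 : X * y 1 = C 1 / N * (z 2 * z 0) := hp 1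
  have p2 : X * y 2 = C 2 / N * (z 0 * z 1) := hp 2
  have m0 : Y * z 0 = C 0 / N * (y 1 * y 2) := hm 0
  have m1 : Y * z 1 = C 1 / N * (y 2 * y 0) := hm 1
  have m2 : Y * z 2 = C 2 / N * (y 0 * y 1) := hm 2
  have r0 := hr 0
  have r1 := hr 1
  have r2 := hr 2
  have c0 := hsc 0
  have c1 := hsc 1
  have c2 := hsc 2
  rw [div_mul_eq_mul_div, eq_div_iff hn0] at p0 p1 p2 m0 m1 m2
  have hXY : X * Y = r := by
    by_contra hne
    have hne' : X * Y - r ≠ 0 := sub_ne_zero.2 hne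
    apply hU
    have hN2 : N ^ 2 ≠ 0 := pow_ne_zero 2 hn0
    have gen : ∀ t : Ω, N ^ 2 * ((X * Y - r) * t) = 0 → t = 0 := fun t ht =>
      (mul_eq_zero.1 ((mul_eq_zero.1 ht).resolve_left hN2)).resolve_left hne'
    refine u_zero hH hd hM F hs hδ (fun i => ?_) fun i => ?_
    · rw [← hz]
      fin_cases i
      · change z 0 = 0
        apply gen
        linear_combination (X * N) * m0 + (C 0 * y 2) * p1 + (C 0 * C 1 * z 0) * r2 +
          (r * z 0) * hNc
      · change z 1 = 0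
        apply gen
        linear_combination (X * N) * m1 + (C 1 * y 0) * p2 + (C 1 * C 2 * z 1) * r0 +
          (r * z 1) * hNc
      · change z 2 = 0
        apply gen
        linear_combination (X * N) * m2 + (C 2 * y 1) * p0 + (C 2 * C 0 * z 2) * r1 +
          (r * z 2) * hNc
    · rw [← hy]
      fin_cases i
      · change y 0 = 0
        apply gen
        linear_combination (Y * N) * p0 + (C 0 * z 2) * m1 + (C 0 * C 1 * y 0) * r2 +
          (r * y 0) * hNc
      · change y 1 = 0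
        apply gen
        linear_combination (Y * N) * p1 + (C 1 * z 0) * m2 + (C 1 * C 2 * y 1) * r0 +
          (r * y 1) * hNc
      · change y 2 = 0
        apply gen
        linear_combination (Y * N) * p2 + (C 2 * z 1) * m0 + (C 2 * C 0 * y 2) * r1 +
          (r * y 2) * hNc
  constructor <;>
    simp only [psi_000, psi_001, psi_010, psi_011, psi_100, psi_101, psi_110, psi_111, ← hX,
      ← hY, ← hz, ← hy, ← hNd, hCi]
  · field_simp
    linear_combination p2
  · field_simp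
    apply mul_left_cancel₀ hn0
    linear_combination (C 0 * C 1) * m2 + (y 0 * y 1) * hNc
  · field_simp
    linear_combination p1
  · field_simp
    apply mul_left_cancel₀ hn0
    linear_combination (C 0 * C 2) * m1 + (y 0 * y 2) * hNc
  · field_simp
    linear_combination p0
  · field_simp
    apply mul_left_cancel₀ hn0
    linear_combination (C 1 * C 2) * m0 + (y 1 * y 2) * hNc
  · field_simp
    linear_combination C 0 * hXY - r0
  · field_simp
    linear_combination C 1 * hXY - r1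
  · field_simp
    linear_combination C 2 * hXY - r2

theorem W_of_seg {w : I8 → Ω} (h : Seg (psi F n s δ w)) : w ∈ (F.pen n).W Ω := by
  rw [W_iff hH hd hM F hc hn hN hs hδ]
  have hsc : ∀ i, s i c ≠ 0 := fun i => (map_ne_zero _).2 hc
  have hn0 : algebraMap K Ω n ≠ 0 := (map_ne_zero _).2 hn
  have hNc : s 0 c * s 1 c * s 2 c = algebraMap K Ω n ^ 2 := by
    rw [← map_pow, ← hN, nm_eq hM hs, Fin.prod_univ_three]
  obtain ⟨f0, f1, f2, f3, f4, f5, g0, g1, g2⟩ := h
  simp only [psi_000, psi_001, psi_010, psi_011, psi_100, psi_101, psi_110, psi_111]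
    at f0 f1 f2 f3 f4 f5 g0 g1 g2
  obtain ⟨X, hX⟩ : ∃ X, X = xv w δ := ⟨_, rfl⟩
  obtain ⟨Y, hY⟩ : ∃ Y, Y = xv w (-δ) := ⟨_, rfl⟩
  obtain ⟨z, hz⟩ : ∃ z, z = F.zi s δ (pU w) := ⟨_, rfl⟩
  obtain ⟨y, hy⟩ : ∃ y, y = F.zi s (-δ) (pU w) := ⟨_, rfl⟩
  obtain ⟨N, hNd⟩ : ∃ N, N = algebraMap K Ω n := ⟨_, rfl⟩
  obtain ⟨C, hC⟩ : ∃ C : Fin 3 → Ω, C = fun i => s i c := ⟨_, rfl⟩
  have hCi : ∀ i, s i c = C i := fun i => by rw [hC]
  simp only [← hX, ← hY, ← hz, ← hy, ← hNd, hCi] at f0 f1 f2 f3 f4 f5 g0 g1 g2 hsc hn0 hNc ⊢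
  have c0 := hsc 0
  have c1 := hsc 1
  have c2 := hsc 2
  field_simp at f0 f1 f2 f3 f4 f5 g0 g1 g2
  refine ⟨⟨X * Y, fun i => ?_⟩, fun i => ?_, fun i => ?_⟩
  · fin_cases i
    · change z 0 * y 0 = X * Y * C 0
      linear_combination -g0
    · change z 1 * y 1 = X * Y * C 1
      linear_combination -g1
    · change z 2 * y 2 = X * Y * C 2
      linear_combination -g2
  · fin_cases i
    · change X * y 0 = C 0 / N * (z 1 * z 2)
      field_simp
      linear_combination f4
    · change X * y 1 = C 1 / N * (z 2 * z 0)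
      field_simp
      linear_combination f2
    · change X * y 2 = C 2 / N * (z 0 * z 1)
      field_simp
      linear_combination f0
  · fin_cases i
    · change Y * z 0 = C 0 / N * (y 1 * y 2)
      rw [div_mul_eq_mul_div, eq_div_iff hn0]
      apply mul_left_cancel₀ (mul_ne_zero c1 c2)
      linear_combination N * f5 - (y 1 * y 2) * hNc
    · change Y * z 1 = C 1 / N * (y 2 * y 0)
      rw [div_mul_eq_mul_div, eq_div_iff hn0]
      apply mul_left_cancel₀ (mul_ne_zero c0 c2)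
      linear_combination N * f3 - (y 2 * y 0) * hNc
    · change Y * z 2 = C 2 / N * (y 0 * y 1)
      rw [div_mul_eq_mul_div, eq_div_iff hn0]
      apply mul_left_cancel₀ (mul_ne_zero c0 c1)
      linear_combination N * f1 - (y 0 * y 1) * hNc

end

end Pool.Agent.GSL
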