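import Pool.Agent.GSK.CubNe
import Pool.Agent.GSX.GenK2

/-!
# GSL: the K3 surface of a cubic fourfold and the node pencil

`cub_herm2`: the cubics of the two pencils `Cub.herm`, `Cub.herm2` are proportional.
`exists_eig2`: the invariants of the pencil `Cub.herm2` are the cubic extension `M` and the
quaternion algebra `(-det n, n_00 n'_00)`, like those of `Cub.herm`.
-/

set_option autoImplicit false

noncomputable section

namespace Pool.Agent.GSL

open Matrix Pool.Agent.GSH Pool.Agent.GSX Pool.Agent.GSQ Pool.Agent.GSK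
open scoped Quaternion

section

variable {K : Type} [Field K]

/-- the determinants of the two pencils are proportional -/
theorem dH_two (D : Cub K) (s t τ : K) :
    dH (D.d2 s t) (fun i => (D.herm2 s t).p 0 i * τ - (D.herm2 s t).p 1 i)
      (fun i => (D.herm2 s t).q 0 i * τ - (D.herm2 s t).q 1 i) =
    -D.d2 s t * dH (t - s ^ 2) (fun i => (D.herm s t).p 0 i * τ - (D.herm s t).p 1 i)
      (fun i => (D.herm s t).q 0 i * τ - (D.herm s t).q 1 i) := by
  have hd := D.det_c s t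
  simp only [dH, Cub.herm2, Cub.herm, Cub.hp2, Cub.hq2, Cub.hp, Cub.hq, Cub.m, Cub.g, Cub.tr]
  generalize D.d2 s t = D2 at *
  generalize D.c s t 0 0 = c00 at *
  generalize D.c s t 0 1 = c01 at *
  generalize D.c s t 0 2 = c02 at *
  generalize D.c s t 1 = c1 at *
  generalize D.c s t 2 = c2 at *
  generalize D.c s t 3 = c3 at *
  generalize D.c s t 4 = c4 at *
  generalize D.c s t 5 = c5 at *
  simp
  linear_combination (2 * (t - s ^ 2) * ((-(2 * c01) * τ + c02) *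
    ((-(2 * c01) * τ + c02) * c3 0 + 2 * (c00 * τ) * c3 1 + (-c00) * c3 2) ^ 2 +
    2 * (c00 * τ) * (((-(2 * c01) * τ + c02) * c3 0 + 2 * (c00 * τ) * c3 1 + (-c00) * c3 2) *
    ((-(2 * c01) * τ + c02) * c4 0 + 2 * (c00 * τ) * c4 1 + (-c00) * c4 2)) +
    (-c00) * ((-(2 * c01) * τ + c02) * c4 0 + 2 * (c00 * τ) * c4 1 + (-c00) * c4 2) ^ 2)) * hd

theorem eval_cub (H : Herm K) (τ : K) : Polynomial.eval τ (cub H) =
    dH H.d (fun i => H.p 0 i * τ - H.p 1 i) (fun i => H.q 0 i * τ - H.q 1 i) := by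
  rw [← Polynomial.coe_aeval_eq_eval, aeval_cub]
  rfl

/-- the cubics of the two pencils are proportional -/
theorem cub_herm2 [CharZero K] (D : Cub K) (s t : K) :
    cub (D.herm2 s t) = Polynomial.C (-D.d2 s t) * cub (D.herm s t) := by
  apply Polynomial.funext
  intro τ
  rw [Polynomial.eval_mul, Polynomial.eval_C, eval_cub, eval_cub]
  exact dH_two D s t τ

end

section

variable {K : Type} [Field K] [CharZero K] {M : Type} [Field M] [Algebra K M] {D : Cub K} {s t : K}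
  {n n' : Fin 3 → M}

omit [CharZero K] in
/-- the upper left minor of the node pencil -/
theorem kap_two (h : K3 D s t n n') (hn : n' 0 ≠ 0) :
    GSK.kap (algebraMap K M (D.herm2 s t).d) (pM (D.herm2 s t) (n' 1 / n' 0))
      (qM (D.herm2 s t) (n' 1 / n' 0)) = K3.rho D s t n' ^ 2 * (4 * dt n') := by
  have h0 := h.lin0
  have e2 : algebraMap K M 2 = 2 := map_ofNat _ 2
  have p0 : pM (D.herm2 s t) (n' 1 / n' 0) 0 = K3.rho D s t n' * (2 * n' 0) := by
    rw [pM, K3.rho, div_mul_eq_mul_div, mul_div_assoc', div_sub' hn, div_left_inj' hn]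
    simp [Cub.herm2, Cub.hp2, Cub.m, e2]
    ring
  have p1 : pM (D.herm2 s t) (n' 1 / n' 0) 1 = K3.rho D s t n' * (2 * n' 1) := by
    rw [pM, K3.rho, div_mul_eq_mul_div, mul_div_assoc', div_sub' hn, div_left_inj' hn]
    simp [Cub.herm2, Cub.hp2, Cub.m, e2]
    ring
  have p3 : pM (D.herm2 s t) (n' 1 / n' 0) 3 = K3.rho D s t n' * (2 * n' 2) := by
    rw [pM, K3.rho, div_mul_eq_mul_div, mul_div_assoc', div_sub' hn, div_left_inj' hn]
    simp [Cub.herm2, Cub.hp2, Cub.m, e2]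
    linear_combination 2 * (algebraMap K M t - algebraMap K M s ^ 2) * h0
  have q0 : qM (D.herm2 s t) (n' 1 / n' 0) 0 = 0 := by
    simp [qM, Cub.herm2, Cub.hq2]
  rw [GSK.kap, p0, p1, p3, q0, dt]
  ring

/-- **The invariants of the node pencil** are the cubic extension `M` and `(-det n, n_00 n'_00)`. -/
theorem K3.exists_eig2 (h : K3 D s t n n') (hM : Module.finrank K M = 3)
    (hd : t - s ^ 2 ≠ 0) (hd2 : D.d2 s t ≠ 0) (hc : D.c s t 0 0 ≠ 0) (ht : t ≠ 0)
    (hB : t * D.c s t 0 1 + s * D.c s t 0 0 = 0 → s ^ 2 * D.c s t 0 0 ≠ t ^ 2 * D.c s t 0 2)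
    (hf : cub (D.herm s t) ≠ 0) :
    ∃ F : Eig (D.herm2 s t).pen M, Nonempty
      (ℍ[M, algebraMap K M (D.d2 s t), F.c] ≃ₐ[M] ℍ[M, -dt n, n 0 * n' 0]) := by
  have hn := h.n0'_ne hM hd hc
  have hn0 := h.n0_ne hM hd hc ht two_ne_zero hB
  have hc' : algebraMap K M (D.c s t 0 0) ≠ 0 := by
    rw [Ne, map_eq_zero]
    exact hc
  have hd' : algebraMap K M (t - s ^ 2) ≠ 0 := by
    rw [Ne, map_eq_zero]
    exact hd
  have hd2' : algebraMap K M (D.d2 s t) ≠ 0 := by
    rw [Ne, map_eq_zero]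
    exact hd2
  have hMz : CharZero M := charZero_of_injective_algebraMap (algebraMap K M).injective
  have hρ : K3.rho D s t n' ≠ 0 := div_ne_zero (neg_ne_zero.2 (mul_ne_zero hc' hd')) hn
  have hf2 : cub (D.herm2 s t) ≠ 0 := by
    rw [cub_herm2]
    exact mul_ne_zero (Polynomial.C_ne_zero.2 (neg_ne_zero.2 hd2)) hf
  have h1 : dH (algebraMap K M (D.herm2 s t).d) (pM (D.herm2 s t) (n' 1 / n' 0))
      (qM (D.herm2 s t) (n' 1 / n' 0)) = 0 := by
    have h2 : dH (algebraMap K M (D.herm s t).d) (pM (D.herm s t) (n' 1 / n' 0))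
        (qM (D.herm s t) (n' 1 / n' 0)) = 0 := by
      rw [h.pM_eq hn, h.qM_eq hn, K3.dH_smul]
      change K3.rho D s t n' ^ 3 * dH (algebraMap K M (t - s ^ 2)) (K3.Pn D s t n n')
        (K3.Qn D n n') = 0
      rw [h.dH_Pn, mul_zero]
    rw [← aeval_cub, cub_herm2, map_mul, aeval_cub, h2, mul_zero]
  have h2 := kap_two h hn
  have h3 : K3.rho D s t n' ^ 2 * (4 * dt n') ≠ 0 :=
    mul_ne_zero (pow_ne_zero 2 hρ) (mul_ne_zero (by norm_num) (h.dt_ne hM hd hc))
  obtain ⟨F, -, hF0, x, y, hxy⟩ := GSK.exists_eig (D.herm2 s t) hd2 hM (h.gen hn hd hc) hf2 h1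
    (by rw [h2]; exact h3)
  refine ⟨F, ?_⟩
  have e1 : F.c = -dt n * ((2 * K3.rho D s t n' * x) ^ 2 -
      algebraMap K M (D.d2 s t) * (2 * K3.rho D s t n' * y) ^ 2) := by
    rw [hxy, h2, h.quad]
    change -(K3.rho D s t n' ^ 2 * (4 * dt n')) *
      (x ^ 2 - algebraMap K M (D.d2 s t) * y ^ 2) = _
    ring
  obtain ⟨q1⟩ := Quat.norm hF0 e1
  obtain ⟨q2⟩ := Quat.swap (algebraMap K M (D.d2 s t)) (-dt n)
  -- `d n_00 n'_00` is a norm
  have e2 : algebraMap K M (t - s ^ 2) * (n 0 * n' 0) = (algebraMap K M s * n 0 +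
      algebraMap K M t * n 1) ^ 2 + dt n * algebraMap K M t ^ 2 := by
    have hs : algebraMap K M s = -(n 1 + n' 1) := by rw [h.c1, neg_neg]
    have hq := h.quad
    unfold dt at hq ⊢
    rw [h.dd, ← h.c0, hs]
    linear_combination -(n 0 * (n 0 + n' 0)) * hq
  have e3 : n 0 * n' 0 = algebraMap K M (t - s ^ 2) *
      (((algebraMap K M s * n 0 + algebraMap K M t * n 1) / algebraMap K M (t - s ^ 2)) ^ 2 -
      (-dt n) * (algebraMap K M t / algebraMap K M (t - s ^ 2)) ^ 2) := by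
    field_simp
    linear_combination e2
  obtain ⟨q3⟩ := Quat.norm (mul_ne_zero hn0 hn) e3
  -- `d D₂` is a norm
  have e4 : n' 0 ^ 2 * (algebraMap K M (t - s ^ 2) * algebraMap K M (D.d2 s t)) =
      (n' 0 * algebraMap K M (D.c s t 0 1) - n' 1 * algebraMap K M (D.c s t 0 0)) ^ 2 +
        dt n * algebraMap K M (D.c s t 0 0) ^ 2 := by
    have g1 := congrArg (algebraMap K M) (D.det_c s t)
    have g2 := h.lin0
    rw [map_mul, map_sub _ (_ ^ 2), map_mul, map_pow] at g1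
    rw [h.quad, dt]
    linear_combination n' 0 ^ 2 * g1 - n' 0 * algebraMap K M (D.c s t 0 0) * g2
  have e5 : algebraMap K M (D.d2 s t) = algebraMap K M (t - s ^ 2) *
      (((n' 0 * algebraMap K M (D.c s t 0 1) - n' 1 * algebraMap K M (D.c s t 0 0)) /
        (n' 0 * algebraMap K M (t - s ^ 2))) ^ 2 -
      (-dt n) * (algebraMap K M (D.c s t 0 0) / (n' 0 * algebraMap K M (t - s ^ 2))) ^ 2) := by
    field_simp
    linear_combination e4
  obtain ⟨q4⟩ := Quat.norm hd2' e5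
  exact ⟨((q1.trans q2).trans q4).trans q3.symm⟩

end

/-- **The invariants of the node pencil of a cubic fourfold.** -/
theorem exists_eigX2 {X' : Cub ℂ} (hn : X'.NonDeg) (hirr : Irreducible X'.F) (hD2 : X'.D2 ≠ 0)
    {M : Type} [Field M] [Algebra KK M] {n n' : Fin 3 → M} (hM : Module.finrank KK M = 3)
    (h : K3 (X'.map (algebraMap ℂ KK)) sK tK n n') :
    ∃ F : Eig X'.pen2 M, Nonempty
      (ℍ[M, algebraMap KK M X'.pen2.d, F.c] ≃ₐ[M] ℍ[M, -dt n, n 0 * n' 0]) :=
  K3.exists_eig2 h hM dK_ne hD2 (GSX.c00_ne hn.a0) tK_ne (hB_of hn.b0) (cub_ne hn hirr)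

end Pool.Agent.GSL
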